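import Mathlib

/-!
# Almost toric base diagrams with four nodes and their mutations

Definitions for the problem of mutating a rectangle: diagrams, nodal slides, mutations
in both directions, the starting diagrams of a rectangle.
-/

open Set

namespace Pool.Agent.NH80.Quad

/-- The plane (row vectors). -/
abbrev Pt := ℝ × ℝ

/-- An integer vector as a vector of the plane. -/
def toPt (v : ℤ × ℤ) : Pt := ((v.1 : ℝ), (v.2 : ℝ))

/-- The determinant of two vectors. -/
def det (v w : Pt) : ℝ := v.1 * w.2 - v.2 * w.1

/-- The determinant of two integer vectors. -/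
def idet (v w : ℤ × ℤ) : ℤ := v.1 * w.2 - v.2 * w.1

/-- The monodromy `M_e(v) = v + (v₁ e₂ - v₂ e₁) e`. -/
def mono (e : ℤ × ℤ) (v : Pt) : Pt := v + (v.1 * e.2 - v.2 * e.1) • toPt e

/-- The monodromy on integer vectors. -/
def imono (e : ℤ × ℤ) (v : ℤ × ℤ) : ℤ × ℤ := v + (v.1 * e.2 - v.2 * e.1) • e

/-- A base-node: its position and the primitive integer vector which points from the node
along its branch cut (so the eigenvector is this vector, up to sign). -/
structure Node where
  /-- the position of the node -/
  pos : Pt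
  /-- the direction of the branch cut -/
  cut : ℤ × ℤ

/-- The affine map `φ` with linear part `M_e` fixing the node `n` with eigenvector `e`. -/
def phi (n : Node) (x : Pt) : Pt := n.pos + mono n.cut (x - n.pos)

/-- The action of `φ` on nodes and their cuts. -/
def phiNode (n m : Node) : Node := ⟨phi n m.pos, imono n.cut m.cut⟩

/-- The points lying clockwise of the branch cut of the node `n`
(one side of its eigenline). -/
def cwSide (n : Node) : Set Pt := {x | det (toPt n.cut) (x - n.pos) ≤ 0}

/-- The points lying anticlockwise of the branch cut of the node `n`. -/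
def acwSide (n : Node) : Set Pt := {x | 0 ≤ det (toPt n.cut) (x - n.pos)}

/-- A base diagram with four nodes: a region of the plane and four nodes. -/
structure Diagram where
  /-- the underlying region -/
  region : Set Pt
  /-- the four nodes -/
  node : Fin 4 → Node

/-- The branch cut of the node `j`: the part of the ray from the node in direction `cut`
which lies in the region. -/
def Diagram.cutSeg (D : Diagram) (j : Fin 4) : Set Pt :=
  {x | x ∈ D.region ∧ ∃ s : ℝ, 0 ≤ s ∧ x = (D.node j).pos + s • toPt (D.node j).cut}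

/-- Two nodes lie on a common eigenline. -/
def SameLine (n m : Node) : Prop :=
  idet n.cut m.cut = 0 ∧ ∃ s : ℝ, m.pos = n.pos + s • toPt n.cut

/-- A diagram is an almost toric base diagram: the region is a convex polygon, the cuts have
primitive directions, the nodes are distinct points of the interior of the polygon, and two
branch cuts meet at most on the boundary of the polygon, unless their nodes lie on a common
eigenline. -/
structure Diagram.Valid (D : Diagram) : Prop where
  /-- the region is a convex polygon -/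
  polygon : ∃ T : Set Pt, T.Finite ∧ D.region = convexHull ℝ T
  /-- the cut directions are primitive -/
  prim : ∀ j, IsCoprime (D.node j).cut.1 (D.node j).cut.2
  /-- the nodes are interior points -/
  inside : ∀ j, (D.node j).pos ∈ interior D.region
  /-- the nodes are distinct points -/
  distinct : Function.Injective fun j => (D.node j).pos
  /-- the cuts do not cross -/
  cuts : ∀ i j, i ≠ j → SameLine (D.node i) (D.node j) ∨
    D.cutSeg i ∩ D.cutSeg j ⊆ frontier D.region

/-- `D'` comes from `D` by sliding the nodes along their eigenlines. -/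
def Slide (D D' : Diagram) : Prop :=
  D'.region = D.region ∧ ∀ j, (D'.node j).cut = (D.node j).cut ∧
    ∃ s : ℝ, (D'.node j).pos = (D.node j).pos + s • toPt (D.node j).cut

/-- `D'` comes from `D` by turning the cut of the node `i` by a half-turn anticlockwise:
with `D₁`, `D₂` the parts of the region clockwise and anticlockwise of the cut, the new region
is `D₁ ∪ φ⁻¹(D₂)`; the cut of the node `i` is reversed, and every other node, whose cut must lie
on one side of the eigenline, is fixed or moved by `φ⁻¹` accordingly. -/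
def AcwMutation (i : Fin 4) (D D' : Diagram) : Prop :=
  D'.region = (D.region ∩ cwSide (D.node i)) ∪
      phi (D.node i) ⁻¹' (D.region ∩ acwSide (D.node i)) ∧
    D'.node i = ⟨(D.node i).pos, -(D.node i).cut⟩ ∧
    ∀ j, j ≠ i →
      (D.cutSeg j ⊆ cwSide (D.node i) ∧ D'.node j = D.node j) ∨
      (D.cutSeg j ⊆ acwSide (D.node i) ∧ phiNode (D.node i) (D'.node j) = D.node j)

/-- `D'` comes from `D` by turning the cut of the node `i` by a half-turn clockwise:
the new region is `φ(D₁) ∪ D₂`. -/
def CwMutation (i : Fin 4) (D D' : Diagram) : Prop :=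
  D'.region = phi (D.node i) '' (D.region ∩ cwSide (D.node i)) ∪
      (D.region ∩ acwSide (D.node i)) ∧
    D'.node i = ⟨(D.node i).pos, -(D.node i).cut⟩ ∧
    ∀ j, j ≠ i →
      (D.cutSeg j ⊆ cwSide (D.node i) ∧ D'.node j = phiNode (D.node i) (D.node j)) ∨
      (D.cutSeg j ⊆ acwSide (D.node i) ∧ D'.node j = D.node j)

/-- One step: a nodal slide or a mutation, between almost toric base diagrams. -/
def Step (D D' : Diagram) : Prop :=
  D.Valid ∧ D'.Valid ∧
    (Slide D D' ∨ ∃ i, AcwMutation i D D' ∨ CwMutation i D D')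

/-- The corners of the rectangle `[0,a] × [0,b]`. -/
def corner (a b : ℝ) : Fin 4 → Pt := ![(0, 0), (a, 0), (a, b), (0, b)]

/-- The directions of the rays of the nodal trades at the corners. -/
def diag : Fin 4 → ℤ × ℤ := ![(1, 1), (-1, 1), (-1, -1), (1, -1)]

/-- The rectangle `[0,a] × [0,b]` with nodal trades at all four corners. -/
def IsStart (a b : ℝ) (D : Diagram) : Prop :=
  D.Valid ∧ D.region = Icc 0 a ×ˢ Icc 0 b ∧
    ∀ i, ∃ t : ℝ, 0 < t ∧
      D.node i = ⟨corner a b i + t • toPt (diag i), -diag i⟩

/-- The set `Q` arises from the rectangle `[0,a] × [0,b]`: finitely many mutations (and slides)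
lead from the rectangle with four nodal trades to a diagram with underlying region `Q`. -/
def Arises (a b : ℝ) (Q : Set Pt) : Prop :=
  ∃ D₀ D : Diagram, IsStart a b D₀ ∧ Relation.ReflTransGen Step D₀ D ∧ D.region = Q

/-- The integral affine map `v ↦ v A + c`. -/
def affMap (A : Matrix (Fin 2) (Fin 2) ℤ) (c : Pt) (v : Pt) : Pt :=
  (v.1 * A 0 0 + v.2 * A 1 0 + c.1, v.1 * A 0 1 + v.2 * A 1 1 + c.2)

/-- Integral affine equivalence of subsets of the plane. -/
def AffEquiv (Q Q' : Set Pt) : Prop :=
  ∃ (A : Matrix (Fin 2) (Fin 2) ℤ) (c : Pt), IsUnit A.det ∧ Q' = affMap A c '' Q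

/-- The explicit description: `Q` is the quadrilateral with vertices `P₀,…,P₃`
(anticlockwise), whose edges are `ℓᵢ uᵢ` with primitive integer vectors `uᵢ` and `ℓᵢ > 0`,
such that at each corner `uᵢ₊₁ - uᵢ = dᵢ₊₁ eᵢ₊₁` with `eᵢ₊₁` primitive, `dᵢ₊₁ > 0` and
`det(uᵢ, eᵢ₊₁) = dᵢ₊₁`; the vectors `eᵢ` are all congruent modulo 2;
the Markov type equation holds; the affine perimeter is `2(a+b)` and the area is `ab`. -/
def IsMarkovQuad (a b : ℝ) (Q : Set Pt) : Prop :=
  ∃ (P : Fin 4 → Pt) (l : Fin 4 → ℝ) (u e : Fin 4 → ℤ × ℤ) (d : Fin 4 → ℤ),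
    Q = convexHull ℝ (range P) ∧
    (∀ i, 0 < l i ∧ P (i + 1) = P i + l i • toPt (u i) ∧ IsCoprime (u i).1 (u i).2) ∧
    (∀ i, 0 < d i ∧ IsCoprime (e i).1 (e i).2 ∧ u (i + 1) - u i = d (i + 1) • e (i + 1) ∧
      idet (u i) (e (i + 1)) = d (i + 1)) ∧
    (∀ i j, (2 : ℤ) ∣ (e i).1 - (e j).1 ∧ (2 : ℤ) ∣ (e i).2 - (e j).2) ∧
    ∑ i, idet (e i) (e (i + 1)) * d (i + 2) * d (i + 3) = 8 * d 0 * d 1 * d 2 * d 3 ∧
    ∑ i, l i = 2 * (a + b) ∧
    ∑ i, det (P i) (P (i + 1)) = 2 * (a * b)

end Pool.Agent.NH80.Quad
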