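import Mathlib

/-!
# The descent lemma (arithmetic part)
-/

namespace Pool.Agent.NH80.Quad

/-- The inequality `W ≥ 0` with equality only at ones. -/
theorem W_nonneg {D0 D1 D2 D3 : ℤ} (h0 : 1 ≤ D0) (h1 : 1 ≤ D1) (h2 : 1 ≤ D2) (h3 : 1 ≤ D3)
    (hW : 8 * (D0 * D1 * D2 * D3) -
      2 * (D0 * D1 * D2 + D0 * D1 * D3 + D0 * D2 * D3 + D1 * D2 * D3) ≤ 0) :
    D0 = 1 ∧ D1 = 1 ∧ D2 = 1 ∧ D3 = 1 := by
  have p01 : 1 ≤ D0 * D1 := by nlinarith
  have p02 : 1 ≤ D0 * D2 := by nlinarith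
  have p03 : 1 ≤ D0 * D3 := by nlinarith
  have p12 : 1 ≤ D1 * D2 := by nlinarith
  have p13 : 1 ≤ D1 * D3 := by nlinarith
  have p23 : 1 ≤ D2 * D3 := by nlinarith
  have a0 : D0 - 1 ≤ (D0 - 1) * (D1 * D2 * D3) := by
    have : 1 ≤ D1 * D2 * D3 := by nlinarith
    nlinarith
  have a1 : D1 - 1 ≤ (D1 - 1) * (D0 * D2 * D3) := by
    have : 1 ≤ D0 * D2 * D3 := by nlinarith
    nlinarith
  have a2 : D2 - 1 ≤ (D2 - 1) * (D0 * D1 * D3) := by
    have : 1 ≤ D0 * D1 * D3 := by nlinarith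
    nlinarith
  have a3 : D3 - 1 ≤ (D3 - 1) * (D0 * D1 * D2) := by
    have : 1 ≤ D0 * D1 * D2 := by nlinarith
    nlinarith
  have key : (D0 - 1) * (D1 * D2 * D3) + (D1 - 1) * (D0 * D2 * D3) + (D2 - 1) * (D0 * D1 * D3) +
      (D3 - 1) * (D0 * D1 * D2) ≤ 0 := by nlinarith
  refine ⟨?_, ?_, ?_, ?_⟩ <;> linarith

/-- The main case. -/
theorem lemR_main {D0 D1 D2 D3 y z : ℤ} (h0 : 1 ≤ D0) (h1 : 1 ≤ D1) (h2 : 1 ≤ D2) (h3 : 1 ≤ D3)
    (hC : y * z = D0 * D2 - D1 * D3)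
    (hW : y * (D2 * D3 - D0 * D1) + z * (D3 * D0 - D1 * D2) =
      8 * (D0 * D1 * D2 * D3) - 2 * (D0 * D1 * D2 + D0 * D1 * D3 + D0 * D2 * D3 + D1 * D2 * D3))
    (hy : 0 ≤ y) (hz : 0 ≤ z) (hy2 : y ≤ D2 - D3) (h4 : D0 - D1 ≤ y) (h5 : D2 - D1 ≤ z) :
    D0 = 1 ∧ D1 = 1 ∧ D2 = 1 ∧ D3 = 1 := by
  -- the bound `yA + zB ≤ (2D₃ - D₁) C + D₁ y (D₃ - D₀)`
  have t1 : 0 ≤ D3 * y * (z - (D2 - D1)) :=
    mul_nonneg (mul_nonneg (by linarith) hy) (by linarith)
  have t2 : 0 ≤ z * (D3 * (y - D0) + D1 * (D2 - y)) := by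
    refine mul_nonneg hz ?_
    have : 0 ≤ D3 * (y - (D0 - D1)) := mul_nonneg (by linarith) (by linarith)
    have : 0 ≤ D1 * (D2 - D3 - y) := mul_nonneg (by linarith) (by linarith)
    nlinarith
  have bd : y * (D2 * D3 - D0 * D1) + z * (D3 * D0 - D1 * D2) ≤
      (2 * D3 - D1) * (D0 * D2 - D1 * D3) + D1 * y * (D3 - D0) := by
    have e : (2 * D3 - D1) * (D0 * D2 - D1 * D3) + D1 * y * (D3 - D0) -
        (y * (D2 * D3 - D0 * D1) + z * (D3 * D0 - D1 * D2)) =
        D3 * y * (z - (D2 - D1)) + z * (D3 * (y - D0) + D1 * (D2 - y)) := by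
      linear_combination (-(2 * D3 - D1)) * hC
    linarith
  have hC0 : D1 * D3 ≤ D0 * D2 := by
    have : 0 ≤ y * z := mul_nonneg hy hz
    linarith
  have p13 : D1 ≤ D1 * D3 := by nlinarith
  apply W_nonneg h0 h1 h2 h3
  rcases le_or_gt D0 D3 with hc | hc
  · -- `D₀ ≤ D₃`
    have b2 : D1 * y * (D3 - D0) ≤ D1 * (D2 - D3) * (D3 - D0) :=
      mul_le_mul_of_nonneg_right (mul_le_mul_of_nonneg_left hy2 (by linarith)) (by linarith)
    have i1 : 0 ≤ D1 * (D0 * D2 - D1) := mul_nonneg (by linarith) (by linarith)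
    have i2 : 0 ≤ D1 * D2 * (D0 - 1) :=
      mul_nonneg (mul_nonneg (by linarith) (by linarith)) (by linarith)
    have i3 : 0 ≤ D0 * D2 * (D1 - 1) :=
      mul_nonneg (mul_nonneg (by linarith) (by linarith)) (by linarith)
    have i4 : 0 ≤ D1 * (D3 - D0) := mul_nonneg (by linarith) (by linarith)
    have e : 8 * (D0 * D1 * D2 * D3) -
        2 * (D0 * D1 * D2 + D0 * D1 * D3 + D0 * D2 * D3 + D1 * D2 * D3) -
        ((2 * D3 - D1) * (D0 * D2 - D1 * D3) + D1 * (D2 - D3) * (D3 - D0)) =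
        D3 * (D1 * (D0 * D2 - D1) + 3 * (D1 * D2 * (D0 - 1)) + 4 * (D0 * D2 * (D1 - 1)) +
          3 * (D1 * (D3 - D0))) := by ring
    have k0 : D1 * (D0 * D2 - D1) + 3 * (D1 * D2 * (D0 - 1)) + 4 * (D0 * D2 * (D1 - 1)) +
          3 * (D1 * (D3 - D0)) ≤ 0 := by
      by_contra hcon
      push Not at hcon
      have := mul_pos (show 0 < D3 by linarith) hcon
      linarith
    have j2 : D1 * D2 * (D0 - 1) = 0 := by linarith
    have j3 : D0 * D2 * (D1 - 1) = 0 := by linarith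
    have j4 : D1 * (D3 - D0) = 0 := by linarith
    have j1 : D1 * (D0 * D2 - D1) = 0 := by linarith
    have q0 : D0 = 1 := by
      rcases mul_eq_zero.mp j2 with h | h
      · exfalso; have := mul_pos (show 0 < D1 by linarith) (show 0 < D2 by linarith); linarith
      · linarith
    have q1 : D1 = 1 := by
      rcases mul_eq_zero.mp j3 with h | h
      · exfalso; have := mul_pos (show 0 < D0 by linarith) (show 0 < D2 by linarith); linarith
      · linarith
    have q3 : D3 = 1 := by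
      rcases mul_eq_zero.mp j4 with h | h
      · linarith
      · linarith
    have q2 : D2 = 1 := by
      subst q0 q1
      linarith
    subst q0 q1 q2 q3
    norm_num
  · -- `D₃ < D₀`: impossible
    exfalso
    have b2 : D1 * y * (D3 - D0) ≤ 0 :=
      mul_nonpos_of_nonneg_of_nonpos (mul_nonneg (by linarith) hy) (by linarith)
    have e : 8 * (D0 * D1 * D2 * D3) -
        2 * (D0 * D1 * D2 + D0 * D1 * D3 + D0 * D2 * D3 + D1 * D2 * D3) -
        (2 * D3 - D1) * (D0 * D2 - D1 * D3) =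
        4 * (D0 * D2 * D3 * (D1 - 1)) + 2 * D1 * ((D2 * D3 - 1) * (D0 - 1) +
          D0 * (D2 - 1) * (D3 - 1) + (D3 * D3 - 1)) + D1 * (D0 * D2 - D1 * D3) := by ring
    have p23 : 1 ≤ D2 * D3 := by nlinarith
    have i1 : 0 ≤ D0 * D2 * D3 * (D1 - 1) :=
      mul_nonneg (mul_nonneg (mul_nonneg (by linarith) (by linarith)) (by linarith)) (by linarith)
    have i2 : 0 ≤ (D2 * D3 - 1) * (D0 - 1) := mul_nonneg (by linarith) (by linarith)
    have i3 : 0 ≤ D0 * (D2 - 1) * (D3 - 1) :=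
      mul_nonneg (mul_nonneg (by linarith) (by linarith)) (by linarith)
    have i4 : 0 ≤ D3 * D3 - 1 := by nlinarith
    have i5 : 0 ≤ D1 * (D0 * D2 - D1 * D3) := mul_nonneg (by linarith) (by linarith)
    have k0 : (D2 * D3 - 1) * (D0 - 1) + D0 * (D2 - 1) * (D3 - 1) + (D3 * D3 - 1) ≤ 0 := by
      by_contra hcon
      push Not at hcon
      have := mul_pos (show 0 < 2 * D1 by linarith) hcon
      linarith
    have k5 : D1 * (D0 * D2 - D1 * D3) ≤ 0 := by
      have := mul_nonneg (show 0 ≤ 2 * D1 by linarith) (show 0 ≤ (D2 * D3 - 1) * (D0 - 1) +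
          D0 * (D2 - 1) * (D3 - 1) + (D3 * D3 - 1) by linarith)
      linarith
    have q3 : D3 = 1 := by nlinarith
    have j2 : (D2 * D3 - 1) * (D0 - 1) = 0 := by linarith
    have q2 : D2 = 1 := by
      rcases mul_eq_zero.mp j2 with h | h
      · subst q3; linarith
      · linarith
    have k1 : D0 * D2 * D3 * (D1 - 1) ≤ 0 := by
      have := mul_nonneg (show 0 ≤ 2 * D1 by linarith) (show 0 ≤ (D2 * D3 - 1) * (D0 - 1) +
          D0 * (D2 - 1) * (D3 - 1) + (D3 * D3 - 1) by linarith)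
      linarith
    have q1 : D1 = 1 := by
      subst q2 q3
      nlinarith
    subst q1 q2 q3
    linarith

/-- All four corners irreducible, with `y, z ≥ 0` and `y ≤ D₂ - D₃`. -/
theorem lemR_half {D0 D1 D2 D3 y z : ℤ} (h0 : 1 ≤ D0) (h1 : 1 ≤ D1) (h2 : 1 ≤ D2) (h3 : 1 ≤ D3)
    (hC : y * z = D0 * D2 - D1 * D3)
    (hW : y * (D2 * D3 - D0 * D1) + z * (D3 * D0 - D1 * D2) =
      8 * (D0 * D1 * D2 * D3) - 2 * (D0 * D1 * D2 + D0 * D1 * D3 + D0 * D2 * D3 + D1 * D2 * D3))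
    (hy : 0 ≤ y) (hz : 0 ≤ z) (hy2 : y ≤ D2 - D3) (n0 : D0 - D1 ≤ y ∨ z ≤ D3 - D0)
    (n2 : y ≤ D3 - D2 ∨ D2 - D1 ≤ z) :
    D0 = 1 ∧ D1 = 1 ∧ D2 = 1 ∧ D3 = 1 := by
  have caseI : D2 = D3 → D0 = 1 ∧ D1 = 1 ∧ D2 = 1 ∧ D3 = 1 := by
    intro h
    have y0 : y = 0 := by linarith
    subst y0 h
    have h01 : D0 = D1 := by
      have : (D0 - D1) * D2 = 0 := by linear_combination -hC
      rcases mul_eq_zero.mp this with h | h
      · linarith
      · linarith
    subst h01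
    apply W_nonneg h0 h1 h2 h3
    linarith
  rcases n2 with n2 | n2
  · exact caseI (by linarith)
  rcases n0 with n0 | n0
  · exact lemR_main h0 h1 h2 h3 hC hW hy hz hy2 n0 n2
  · -- `z ≤ D₃ - D₀`
    have hC0 : D1 * D3 ≤ D0 * D2 := by
      have : 0 ≤ y * z := mul_nonneg hy hz
      linarith
    have a1 : 0 ≤ (D1 - (D2 - D3 + D0)) * D3 := mul_nonneg (by linarith) (by linarith)
    have a2 : 0 ≤ (D3 - D0) * (D2 - D3) := mul_nonneg (by linarith) (by linarith)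
    have a3 : (D3 - D0) * (D2 - D3) = 0 := by nlinarith
    have a4 : D0 * D2 = D1 * D3 := by nlinarith
    rcases mul_eq_zero.mp a3 with h | h
    · have h03 : D3 = D0 := by linarith
      have z0 : z = 0 := by linarith
      subst h03 z0
      have h12 : D2 = D1 := by
        have : (D2 - D1) * D3 = 0 := by linear_combination a4
        rcases mul_eq_zero.mp this with h | h
        · linarith
        · linarith
      subst h12
      apply W_nonneg h0 h1 h2 h3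
      linarith
    · exact caseI (by linarith)

/-- All four corners irreducible, with `y, z ≥ 0`. -/
theorem lemR_quad {D0 D1 D2 D3 y z : ℤ} (h0 : 1 ≤ D0) (h1 : 1 ≤ D1) (h2 : 1 ≤ D2) (h3 : 1 ≤ D3)
    (hC : y * z = D0 * D2 - D1 * D3)
    (hW : y * (D2 * D3 - D0 * D1) + z * (D3 * D0 - D1 * D2) =
      8 * (D0 * D1 * D2 * D3) - 2 * (D0 * D1 * D2 + D0 * D1 * D3 + D0 * D2 * D3 + D1 * D2 * D3))
    (hy : 0 ≤ y) (hz : 0 ≤ z) (n0 : D0 - D1 ≤ y ∨ z ≤ D3 - D0)
    (n2 : y ≤ D3 - D2 ∨ D2 - D1 ≤ z) (n3 : z ≤ D0 - D3 ∨ y ≤ D2 - D3) :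
    D0 = 1 ∧ D1 = 1 ∧ D2 = 1 ∧ D3 = 1 := by
  rcases n3 with n3 | n3
  · obtain ⟨a, b, c, d⟩ := lemR_half (D0 := D2) (D1 := D1) (D2 := D0) (D3 := D3) (y := z) (z := y)
      h2 h1 h0 h3 (by linear_combination hC) (by linear_combination hW) hz hy n3
      (n2.symm) (n0.symm)
    exact ⟨c, b, a, d⟩
  · exact lemR_half h0 h1 h2 h3 hC hW hy hz n3 n0 n2

/-- **The descent lemma.** If no corner is reducible then all `Dᵢ` are `1`. -/
theorem lemR {D0 D1 D2 D3 y z : ℤ} (h0 : 1 ≤ D0) (h1 : 1 ≤ D1) (h2 : 1 ≤ D2) (h3 : 1 ≤ D3)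
    (hC : y * z = D0 * D2 - D1 * D3)
    (hW : y * (D2 * D3 - D0 * D1) + z * (D3 * D0 - D1 * D2) =
      8 * (D0 * D1 * D2 * D3) - 2 * (D0 * D1 * D2 + D0 * D1 * D3 + D0 * D2 * D3 + D1 * D2 * D3))
    (n0 : D0 - D1 ≤ y ∨ z ≤ D3 - D0)
    (n1 : D1 - D2 ≤ z ∨ D1 - D0 ≤ y)
    (n2 : y ≤ D3 - D2 ∨ D2 - D1 ≤ z) (n3 : z ≤ D0 - D3 ∨ y ≤ D2 - D3) :
    D0 = 1 ∧ D1 = 1 ∧ D2 = 1 ∧ D3 = 1 := by
  rcases le_total 0 y with hy | hy <;> rcases le_total 0 z with hz | hz
  · exact lemR_quad h0 h1 h2 h3 hC hW hy hz n0 n2 n3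
  · -- y ≥ 0, z ≤ 0 : rotate three times, (y,z) ↦ (-z, y)
    obtain ⟨a, b, c, d⟩ := lemR_quad (D0 := D3) (D1 := D0) (D2 := D1) (D3 := D2) (y := -z) (z := y)
      h3 h0 h1 h2 (by linear_combination -hC) (by linear_combination hW) (by linarith) hy
      (by rcases n3 with h | h
          · left; linarith
          · right; linarith)
      (by rcases n1 with h | h
          · left; linarith
          · right; linarith)
      (by rcases n2 with h | h
          · left; linarith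
          · right; linarith)
    exact ⟨b, c, d, a⟩
  · -- y ≤ 0, z ≥ 0 : rotate once, (y,z) ↦ (z,-y)
    obtain ⟨a, b, c, d⟩ := lemR_quad (D0 := D1) (D1 := D2) (D2 := D3) (D3 := D0) (y := z) (z := -y)
      h1 h2 h3 h0 (by linear_combination -hC) (by linear_combination hW) hz (by linarith)
      (by rcases n1 with h | h
          · left; linarith
          · right; linarith)
      (by rcases n3 with h | h
          · left; linarith
          · right; linarith)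
      (by rcases n0 with h | h
          · left; linarith
          · right; linarith)
    exact ⟨d, a, b, c⟩
  · -- y, z ≤ 0 : rotate twice
    obtain ⟨a, b, c, d⟩ := lemR_quad (D0 := D2) (D1 := D3) (D2 := D0) (D3 := D1) (y := -y)
      (z := -z)
      h2 h3 h0 h1 (by linear_combination hC) (by linear_combination hW) (by linarith) (by linarith)
      (by rcases n2 with h | h
          · left; linarith
          · right; linarith)
      (by rcases n0 with h | h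
          · left; linarith
          · right; linarith)
      (by rcases n1 with h | h
          · left; linarith
          · right; linarith)
    exact ⟨c, d, a, b⟩

end Pool.Agent.NH80.Quad
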