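import Pool.Agent.NH80.Quad.Key
import Pool.Agent.NH80.Quad.LemR

/-!
# The descent
-/

open Set Filter Topology

namespace Pool.Agent.NH80.Quad

/-- A diagram which is reachable from the rectangle. -/
def Reach (a b : ℝ) (D : Diagram) : Prop :=
  ∃ D₀, IsStart a b D₀ ∧ Relation.ReflTransGen Step D₀ D

theorem Reach.valid {a b : ℝ} {D : Diagram} (h : Reach a b D) : D.Valid := by
  obtain ⟨D₀, h0, h1⟩ := h
  induction h1 with
  | refl => exact h0.1
  | tail _ hs _ => exact hs.2.1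

theorem Reach.step {a b : ℝ} {D D' : Diagram} (h : Reach a b D) (hs : Step D D') :
    Reach a b D' := by
  obtain ⟨D₀, h0, h1⟩ := h
  exact ⟨D₀, h0, h1.tail hs⟩

/-- Nodes of the diagrams of the data may be slid. -/
theorem Reach.slide {a b : ℝ} {V : Dat} {τ : Equiv.Perm (Fin 4)} {t t' : Fin 4 → ℝ}
    (h : Reach a b (V.dg τ t)) (h' : (V.dg τ t').Valid) : Reach a b (V.dg τ t') := by
  refine h.step ⟨h.valid, h', Or.inl ⟨rfl, fun j => ⟨rfl, t (τ j) - t' (τ j), ?_⟩⟩⟩
  simp only [Dat.dg, Dat.nd, toPt_neg]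
  module

/-- Some orientation preserving image of the data is reachable. -/
def Claim (a b : ℝ) (V : Dat) : Prop :=
  ∃ (M : Matrix (Fin 2) (Fin 2) ℤ) (c : Pt) (τ : Equiv.Perm (Fin 4)) (t : Fin 4 → ℝ),
    M.det = 1 ∧ Reach a b ((V.map M c).dg τ t)

theorem claim_rot {a b : ℝ} {V : Dat} (k : Fin 4) (h : Claim a b (V.rot k)) : Claim a b V := by
  obtain ⟨M, c, τ, t, hM, hr⟩ := h
  refine ⟨M, c, τ.trans (Equiv.addRight k), fun i => t (i - k), hM, ?_⟩
  have e : (V.map M c).dg (τ.trans (Equiv.addRight k)) (fun i => t (i - k)) =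
      ((V.rot k).map M c).dg τ t := by
    have e1 : (V.rot k).map M c = (V.map M c).rot k := rfl
    rw [e1, Dat.dg, Dat.dg, Dat.reg_rot]
    congr 1
    funext j
    simp [Dat.nd, Dat.rot]
  rw [e]
  exact hr

/-! ### Commutation of mutations and integral affine maps -/

theorem iact_nn {M : Matrix (Fin 2) (Fin 2) ℤ} (hM : M.det = 1) (e v : ℤ × ℤ) :
    iact M (nn e v) = nn (iact M e) (iact M v) := by
  rw [nn, nn, idet_iact, hM, one_mul, iact_sub, iact_smul]

theorem psi_map {V : Dat} {M : Matrix (Fin 2) (Fin 2) ℤ} (hM : M.det = 1) (c x : Pt) :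
    (V.map M c).psi (affMap M c x) = affMap M c (V.psi x) := by
  have e : (V.map M c).s (affMap M c x) = V.s x := by
    change det (toPt (iact M (V.e 0))) (affMap M c x - affMap M c (V.P 0)) = _
    rw [toPt_iact, affMap_sub, det_ract, hM, Int.cast_one, one_mul]
    rfl
  rw [Dat.psi, Dat.psi, e, affMap_add_smul]
  congr 2
  exact toPt_iact M (V.e 0)

theorem dp_map {V : Dat} {M : Matrix (Fin 2) (Fin 2) ℤ} (hM : M.det = 1) (c : Pt) :
    (V.map M c).dp = V.dp := by
  change idet (iact M (V.e 0)) (iact M (V.u 1)) = _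
  rw [idet_iact, hM, one_mul]; rfl

theorem dm_map {V : Dat} {M : Matrix (Fin 2) (Fin 2) ℤ} (hM : M.det = 1) (c : Pt) :
    (V.map M c).dm = V.dm := by
  change idet (iact M (V.e 0)) (iact M (V.u 2)) = _
  rw [idet_iact, hM, one_mul]; rfl

theorem mutL_map (V : Dat) {M : Matrix (Fin 2) (Fin 2) ℤ} (hM : M.det = 1) (c : Pt) :
    V.mutL.map M c = (V.map M c).mutL := by
  have tl : (V.map M c).tL = V.tL := by
    rw [Dat.tL, Dat.tL, dp_map hM]; rfl
  apply Dat.ext' <;> funext i <;> revert i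
  · refine forall4 ?_ ?_ ?_ ?_
    · exact (psi_map hM c _).symm
    · change affMap M c (V.P 1 + V.tL • toPt (V.u 1)) =
        affMap M c (V.P 1) + (V.map M c).tL • toPt (iact M (V.u 1))
      rw [tl, affMap_add_smul, toPt_iact]
    · rfl
    · rfl
  · refine forall4 ?_ ?_ ?_ ?_
    · exact tl.symm
    · change V.l 1 - V.tL = V.l 1 - (V.map M c).tL
      rw [tl]
    · rfl
    · rfl
  · exact forall4 (iact_nn hM _ _) rfl rfl rfl
  · exact forall4 (iact_nn hM _ _) (iact_neg _ _) rfl rfl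
  · exact forall4 rfl (dp_map hM c).symm rfl rfl

theorem mutR_map (V : Dat) {M : Matrix (Fin 2) (Fin 2) ℤ} (hM : M.det = 1) (c : Pt) :
    V.mutR.map M c = (V.map M c).mutR := by
  have tl : (V.map M c).tR = V.tR := by
    rw [Dat.tR, Dat.tR, dm_map hM]; rfl
  apply Dat.ext' <;> funext i <;> revert i
  · refine forall4 ?_ ?_ ?_ ?_
    · exact (psi_map hM c _).symm
    · exact (psi_map hM c _).symm
    · change affMap M c (V.P 3 - V.tR • toPt (V.u 2)) =
        affMap M c (V.P 3) - (V.map M c).tR • toPt (iact M (V.u 2))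
      rw [tl, sub_eq_add_neg, ← neg_smul, affMap_add_smul, toPt_iact, neg_smul, sub_eq_add_neg]
    · rfl
  · refine forall4 rfl ?_ ?_ rfl
    · change V.l 2 - V.tR = V.l 2 - (V.map M c).tR
      rw [tl]
    · exact tl.symm
  · exact forall4 (iact_nn hM _ _) (iact_nn hM _ _) rfl rfl
  · exact forall4 (iact_nn hM _ _) (iact_nn hM _ _) (iact_neg _ _) rfl
  · exact forall4 rfl rfl (dm_map hM c).symm rfl

theorem S_map (V : Dat) {M : Matrix (Fin 2) (Fin 2) ℤ} (hM : M.det = 1) (c : Pt) :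
    (V.map M c).S = V.S := by
  change det (toPt (iact M (V.e 0))) (affMap M c (V.P 2) - affMap M c (V.P 0)) = _
  rw [toPt_iact, affMap_sub, det_ract, hM, Int.cast_one, one_mul]
  rfl

theorem e02_map (V : Dat) {M : Matrix (Fin 2) (Fin 2) ℤ} (hM : M.det = 1) (c : Pt) :
    idet ((V.map M c).e 0) ((V.map M c).e 2) = idet (V.e 0) (V.e 2) := by
  change idet (iact M (V.e 0)) (iact M (V.e 2)) = _
  rw [idet_iact, hM, one_mul]

theorem claim_mutL {a b A B : ℝ} {V : Dat} (h : V.Ok A B)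
    (hS : 0 < V.S ∨ V.S = 0 ∧ 0 ≤ idet (V.e 0) (V.e 2)) (hc : Claim a b V.mutL) :
    Claim a b V := by
  obtain ⟨M, c, τ', t', hM, hr⟩ := hc
  rw [mutL_map V hM] at hr
  set W := V.map M c with hW
  have hWok : W.Ok A B := h.map hM c
  have hWS : 0 < W.S ∨ W.S = 0 ∧ 0 ≤ idet (W.e 0) (W.e 2) := by
    rw [hW, S_map V hM, e02_map V hM]
    exact hS
  obtain ⟨t, t'', h1, h2, h3⟩ := hWok.key_left hWS (τ'.trans (Equiv.swap 0 1))
  have e : (τ'.trans (Equiv.swap 0 1)).trans (Equiv.swap 0 1) = τ' := by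
    ext j; simp
  rw [e] at h2 h3
  have hr2 : Reach a b (W.mutL.dg τ' t'') := hr.slide h2
  exact ⟨M, c, τ'.trans (Equiv.swap 0 1), t, hM,
    hr2.step ⟨h2, h1, Or.inr ⟨_, Or.inr h3⟩⟩⟩

theorem claim_mutR {a b A B : ℝ} {V : Dat} (h : V.Ok A B)
    (hS : V.S < 0 ∨ V.S = 0 ∧ idet (V.e 0) (V.e 2) ≤ 0) (hc : Claim a b V.mutR) :
    Claim a b V := by
  obtain ⟨M, c, τ', t', hM, hr⟩ := hc
  rw [mutR_map V hM] at hr
  set W := V.map M c with hW
  have hWok : W.Ok A B := h.map hM c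
  have hWS : W.S < 0 ∨ W.S = 0 ∧ idet (W.e 0) (W.e 2) ≤ 0 := by
    rw [hW, S_map V hM, e02_map V hM]
    exact hS
  obtain ⟨t, t'', h1, h2, h3⟩ := hWok.key_right hWS (τ'.trans cyc.symm)
  have e : (τ'.trans cyc.symm).trans cyc = τ' := by
    ext j; simp
  rw [e] at h2 h3
  have hr2 : Reach a b (W.mutR.dg τ' t'') := hr.slide h2
  exact ⟨M, c, τ'.trans cyc.symm, t, hM,
    hr2.step ⟨h2, h1, Or.inr ⟨_, Or.inr h3⟩⟩⟩

/-! ### The base -/

theorem reach_rect {a b : ℝ} (ha : 0 < a) (hb : 0 < b) :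
    ∃ t, Reach a b ((rect a b).dg (Equiv.refl _) t) := by
  obtain ⟨ε, h1, h2⟩ := ((rect_ok ha hb).near.and self_mem_nhdsWithin).exists
  have h2' : 0 < ε := h2
  refine ⟨fun k => cf k * ε, _, ⟨h1 (Equiv.refl _), ?_, ?_⟩, Relation.ReflTransGen.refl⟩
  · exact rect_reg a b
  · intro i
    exact ⟨cf i * ε, mul_pos (cf_pos i) h2', rfl⟩

/-- Cramer for integer vectors. -/
theorem icramer {u v : ℤ × ℤ} (h : idet u v = 1) (w : ℤ × ℤ) :
    w = idet w v • u + idet u w • v := by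
  have h' : u.1 * v.2 - u.2 * v.1 = 1 := by
    have := h
    simp only [idet] at this
    linarith
  ext
  · simp only [idet, Prod.fst_add, Prod.smul_fst, smul_eq_mul]
    linear_combination -w.1 * h'
  · simp only [idet, Prod.snd_add, Prod.smul_snd, smul_eq_mul]
    linear_combination -w.2 * h'

/-- A unimodular parallelogram with sides `a`, `b`. -/
theorem claim_para {a b A B : ℝ} (ha : 0 < a) (hb : 0 < b) {V : Dat} (h : V.Ok A B)
    (hd : ∀ i, V.d i = 1) (hy : idet (V.u 1) (V.u 3) = 0) (hz : idet (V.u 2) (V.u 0) = 0)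
    (hl0 : V.l 0 = a) (hl1 : V.l 1 = b) : Claim a b V := by
  have h01 : idet (V.u 0) (V.u 1) = 1 := by
    have := h.det_u 0
    change idet (V.u 0) (V.u 1) = V.d 1 ^ 2 at this
    rw [this, hd]; norm_num
  have h12 : idet (V.u 1) (V.u 2) = 1 := by
    have := h.det_u 1
    change idet (V.u 1) (V.u 2) = V.d 2 ^ 2 at this
    rw [this, hd]; norm_num
  have h30 : idet (V.u 3) (V.u 0) = 1 := by
    have := h.det_u 3
    change idet (V.u 3) (V.u 0) = V.d 0 ^ 2 at this
    rw [this, hd]; norm_num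
  have hu2 : V.u 2 = -V.u 0 := by
    have := icramer h01 (V.u 2)
    rw [idet_comm (V.u 2), h12, idet_comm (V.u 0), hz] at this
    simpa using this
  have hu3 : V.u 3 = -V.u 1 := by
    have := icramer h01 (V.u 3)
    rw [idet_comm (V.u 3), hy, idet_comm (V.u 0), h30] at this
    simpa using this
  have he : ∀ i, V.e (i + 1) = V.u (i + 1) - V.u i := by
    intro i
    rw [h.diff i, hd, one_smul]
  have he1 : V.e 1 = V.u 1 - V.u 0 := he 0
  have he2 : V.e 2 = V.u 2 - V.u 1 := he 1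
  have he3 : V.e 3 = V.u 3 - V.u 2 := he 2
  have he0 : V.e 0 = V.u 0 - V.u 3 := he 3
  have hc := h.closing
  rw [hu2, hu3, toPt_neg, toPt_neg] at hc
  have e0 : det (toPt (V.u 0)) (toPt (V.u 1)) = 1 := by
    rw [det_toPt, h01]; norm_num
  have hl2 : V.l 2 = a := by
    have := congrArg (fun w => det w (toPt (V.u 1))) hc
    simp only [det_add_left, det_smul_left, det_neg_left, det_self, e0] at this
    have z : det 0 (toPt (V.u 1)) = 0 := by simp [det]
    rw [z] at this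
    linarith
  have hl3 : V.l 3 = b := by
    have := congrArg (fun w => det (toPt (V.u 0)) w) hc
    simp only [det_add_right, det_smul_right, det_neg_right, det_self, e0] at this
    have z : det (toPt (V.u 0)) 0 = 0 := by simp [det]
    rw [z] at this
    linarith
  -- the map
  set M : Matrix (Fin 2) (Fin 2) ℤ := !![(V.u 1).2, -(V.u 0).2; -(V.u 1).1, (V.u 0).1] with hM
  have hdet : M.det = 1 := by
    rw [Matrix.det_fin_two, hM]
    simp only [idet] at h01
    simp only [Matrix.of_apply, Matrix.cons_val', Matrix.cons_val_zero, Matrix.cons_val_fin_one,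
      Matrix.cons_val_one]
    linarith
  have i0 : iact M (V.u 0) = (1, 0) := by
    simp only [idet] at h01
    ext
    · simp only [iact, hM, Matrix.of_apply, Matrix.cons_val', Matrix.cons_val_zero,
        Matrix.cons_val_fin_one, Matrix.cons_val_one]
      linarith
    · simp only [iact, hM, Matrix.of_apply, Matrix.cons_val', Matrix.cons_val_zero,
        Matrix.cons_val_fin_one, Matrix.cons_val_one]
      ring
  have i1 : iact M (V.u 1) = (0, 1) := by
    simp only [idet] at h01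
    ext
    · simp only [iact, hM, Matrix.of_apply, Matrix.cons_val', Matrix.cons_val_zero,
        Matrix.cons_val_fin_one, Matrix.cons_val_one]
      ring
    · simp only [iact, hM, Matrix.of_apply, Matrix.cons_val', Matrix.cons_val_zero,
        Matrix.cons_val_fin_one, Matrix.cons_val_one]
      linarith
  obtain ⟨t, ht⟩ := reach_rect ha hb
  refine ⟨M, -ract M (V.P 0), Equiv.refl _, t, hdet, ?_⟩
  have hmap : V.map M (-ract M (V.P 0)) = rect a b := by
    have p0 : affMap M (-ract M (V.P 0)) (V.P 0) = (0, 0) := by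
      rw [affMap_eq, add_neg_cancel]; rfl
    have r0 : ract M (toPt (V.u 0)) = (1, 0) := by
      rw [← toPt_iact, i0]; simp [toPt]
    have r1 : ract M (toPt (V.u 1)) = (0, 1) := by
      rw [← toPt_iact, i1]; simp [toPt]
    have p1 : affMap M (-ract M (V.P 0)) (V.P 1) = (a, 0) := by
      rw [h.P1_eq, affMap_add_smul, p0, r0, hl0]; simp
    have p2 : affMap M (-ract M (V.P 0)) (V.P 2) = (a, b) := by
      rw [h.P2_eq, affMap_add_smul, p1, r1, hl1]; simp
    have p3 : affMap M (-ract M (V.P 0)) (V.P 3) = (0, b) := by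
      rw [h.P3_eq, affMap_add_smul, p2, hu2, toPt_neg, ract_neg, r0, hl2]; simp
    apply Dat.ext' <;> funext i <;> revert i
    · exact forall4 p0 p1 p2 p3
    · exact forall4 hl0 hl1 hl2 hl3
    · refine forall4 i0 i1 ?_ ?_
      · change iact M (V.u 2) = (-1, 0)
        rw [hu2, iact_neg, i0]; rfl
      · change iact M (V.u 3) = (0, -1)
        rw [hu3, iact_neg, i1]; rfl
    · refine forall4 ?_ ?_ ?_ ?_
      · change iact M (V.e 0) = (1, 1)
        rw [he0, hu3, iact_sub, iact_neg, i0, i1]; rfl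
      · change iact M (V.e 1) = (-1, 1)
        rw [he1, iact_sub, i0, i1]; rfl
      · change iact M (V.e 2) = (-1, -1)
        rw [he2, hu2, iact_sub, iact_neg, i0, i1]; rfl
      · change iact M (V.e 3) = (1, -1)
        rw [he3, hu2, hu3, iact_sub, iact_neg, iact_neg, i0, i1]; rfl
    · exact forall4 (hd 0) (hd 1) (hd 2) (hd 3)
  rw [hmap]
  exact ht

/-- All indices one, `y = z = 0`. -/
theorem claim_para' {a b : ℝ} (ha : 0 < a) (hb : 0 < b) {V : Dat}
    (h : V.Ok (2 * (a * b)) (2 * (a + b)))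
    (hd : ∀ i, V.d i = 1) (hy : idet (V.u 1) (V.u 3) = 0) (hz : idet (V.u 2) (V.u 0) = 0) :
    Claim a b V := by
  have h01 : idet (V.u 0) (V.u 1) = 1 := by
    have := h.det_u 0
    change idet (V.u 0) (V.u 1) = V.d 1 ^ 2 at this
    rw [this, hd]; norm_num
  have h12 : idet (V.u 1) (V.u 2) = 1 := by
    have := h.det_u 1
    change idet (V.u 1) (V.u 2) = V.d 2 ^ 2 at this
    rw [this, hd]; norm_num
  have h30 : idet (V.u 3) (V.u 0) = 1 := by
    have := h.det_u 3
    change idet (V.u 3) (V.u 0) = V.d 0 ^ 2 at this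
    rw [this, hd]; norm_num
  have hu2 : V.u 2 = -V.u 0 := by
    have := icramer h01 (V.u 2)
    rw [idet_comm (V.u 2), h12, idet_comm (V.u 0), hz] at this
    simpa using this
  have hu3 : V.u 3 = -V.u 1 := by
    have := icramer h01 (V.u 3)
    rw [idet_comm (V.u 3), hy, idet_comm (V.u 0), h30] at this
    simpa using this
  have hc := h.closing
  rw [hu2, hu3, toPt_neg, toPt_neg] at hc
  have e0 : det (toPt (V.u 0)) (toPt (V.u 1)) = 1 := by
    rw [det_toPt, h01]; norm_num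
  have hl2 : V.l 2 = V.l 0 := by
    have := congrArg (fun w => det w (toPt (V.u 1))) hc
    simp only [det_add_left, det_smul_left, det_neg_left, det_self, e0] at this
    have z : det 0 (toPt (V.u 1)) = 0 := by simp [det]
    rw [z] at this
    linarith
  have hl3 : V.l 3 = V.l 1 := by
    have := congrArg (fun w => det (toPt (V.u 0)) w) hc
    simp only [det_add_right, det_smul_right, det_neg_right, det_self, e0] at this
    have z : det (toPt (V.u 0)) 0 = 0 := by simp [det]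
    rw [z] at this
    linarith
  have har := h.area
  have hpe := h.perim
  rw [hl2, hl3] at har hpe
  rw [hd 1, hd 3] at har
  have hl1 : V.l 1 = a + b - V.l 0 := by linarith
  have hq : (V.l 0 - a) * (V.l 0 - b) = 0 := by
    rw [hl1] at har
    push_cast at har
    linear_combination (-1 / 2 : ℝ) * har
  rcases mul_eq_zero.mp hq with h1 | h1
  · exact claim_para ha hb h hd hy hz (by linarith) (by linarith)
  · apply claim_rot 1
    apply claim_para ha hb (h.rot 1) (fun i => hd (i + 1))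
    · exact hz
    · change idet (V.u 3) (V.u 1) = 0
      rw [idet_comm, hy]; rfl
    · change V.l 1 = a
      linarith
    · change V.l 2 = b
      linarith

/-- `d₀ δ⁺ = D₁ + y`. -/
theorem Dat.Ok.d0_dp {V : Dat} {A B : ℝ} (h : V.Ok A B) :
    V.d 0 * V.dp = V.d 1 ^ 2 + idet (V.u 1) (V.u 3) := by
  have h1 : V.d 0 * V.dp = idet (V.d 0 • V.e 0) (V.u 1) := by rw [idet_smul_left]; rfl
  have h2 : V.u 0 - V.u 3 = V.d 0 • V.e 0 := h.diff 3
  have h3 : idet (V.u 0) (V.u 1) = V.d 1 ^ 2 := h.det_u 0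
  rw [h1, ← h2, idet_sub_left, h3, idet_comm (V.u 3)]
  ring

/-- `d₀ δ⁻ = D₃ - z`. -/
theorem Dat.Ok.d0_dm {V : Dat} {A B : ℝ} (h : V.Ok A B) :
    V.d 0 * V.dm = V.d 3 ^ 2 - idet (V.u 2) (V.u 0) := by
  have h1 : V.d 0 * V.dm = idet (V.d 0 • V.e 0) (V.u 2) := by rw [idet_smul_left]; rfl
  have h2 : V.u 0 - V.u 3 = V.d 0 • V.e 0 := h.diff 3
  have h3 : idet (V.u 2) (V.u 3) = V.d 3 ^ 2 := h.det_u 2
  rw [h1, ← h2, idet_sub_left, idet_comm (V.u 3), h3, idet_comm (V.u 0)]
  ring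

/-- All indices one, `y = 0 ≤ z`: induction on `z`. -/
theorem claim_hirz {a b : ℝ} (ha : 0 < a) (hb : 0 < b) (n : ℕ) : ∀ (V : Dat),
    V.Ok (2 * (a * b)) (2 * (a + b)) → (∀ i, V.d i = 1) → idet (V.u 1) (V.u 3) = 0 →
    idet (V.u 2) (V.u 0) = 2 * n → Claim a b V := by
  induction n with
  | zero =>
    intro V h hd hy hz
    exact claim_para' ha hb h hd hy (by simpa using hz)
  | succ n ih =>
    intro V h hd hy hz
    have h1 := h.d0_dp
    have h2 := h.d0_dm
    rw [hd 0, hd 1, hy] at h1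
    rw [hd 0, hd 3, hz] at h2
    have hS : 0 < V.S := by
      by_contra hcon
      push Not at hcon
      have := h.dm_pos hcon
      push_cast at h2
      linarith
    apply claim_mutL h (Or.inl hS)
    apply ih _ (h.mutL (Or.inl hS))
    · refine forall4 (hd 1) ?_ (hd 2) (hd 3)
      change V.dp = 1
      linarith
    · exact hy
    · change idet (V.u 2) (nn (V.e 0) (V.u 1)) = 2 * n
      have k1 : idet (V.u 1) (V.e 0) = -V.dp := h.u1_e0
      have k2 : idet (V.u 2) (V.e 0) = -V.dm := h.u2_e0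
      have k3 : idet (V.u 1) (V.u 2) = V.d 2 ^ 2 := h.det_u 1
      rw [nn, idet_sub_right, idet_smul_right, k1, k2, idet_comm (V.u 2), k3, hd 2]
      have e1 : V.dp = 1 := by linarith
      rw [e1]
      push_cast at h2
      linarith

/-- All indices one. -/
theorem claim_ones {a b : ℝ} (ha : 0 < a) (hb : 0 < b) {V : Dat}
    (h : V.Ok (2 * (a * b)) (2 * (a + b))) (hd : ∀ i, V.d i = 1) : Claim a b V := by
  -- case `y = 0`
  have main : ∀ V : Dat, V.Ok (2 * (a * b)) (2 * (a + b)) → (∀ i, V.d i = 1) →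
      idet (V.u 1) (V.u 3) = 0 → Claim a b V := by
    intro V h hd hy
    -- `z` is even
    have hev : (2 : ℤ) ∣ idet (V.u 2) (V.u 0) := by
      obtain ⟨m, hm⟩ := h.even_det 1 2
      have e2 : V.u 2 = V.u 1 + V.e 2 := by rw [h.u2_eq, hd]; simp
      have e0 : V.u 0 = V.u 1 - V.e 1 := by rw [h.u1_eq, hd]; simp
      have k1 : idet (V.u 1) (V.e 1) = 1 := by
        have : idet (V.u 1) (V.e 1) = V.d 1 := h.det_e' 0
        rw [this, hd]
      have k2 : idet (V.u 1) (V.e 2) = 1 := by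
        have : idet (V.u 1) (V.e 2) = V.d 2 := h.det_e 1
        rw [this, hd]
      refine ⟨m - 1, ?_⟩
      rw [e2, e0, idet_sub_right, idet_add_left, idet_add_left, idet_self, k1,
        idet_comm (V.e 2) (V.u 1), k2, idet_comm (V.e 2) (V.e 1), hm]
      ring
    obtain ⟨m, hm⟩ := hev
    rcases le_total 0 m with h0 | h0
    · obtain ⟨n, rfl⟩ := Int.eq_ofNat_of_zero_le h0
      exact claim_hirz ha hb n V h hd hy hm
    · obtain ⟨n, hn⟩ := Int.eq_ofNat_of_zero_le (a := -m) (by linarith)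
      apply claim_rot 2
      apply claim_hirz ha hb n (V.rot 2) (h.rot 2) (fun i => hd (i + 2))
      · change idet (V.u 3) (V.u 1) = 0
        rw [idet_comm, hy]; rfl
      · change idet (V.u 0) (V.u 2) = 2 * n
        rw [idet_comm, hm, ← hn]
        ring
  -- `y z = 0`
  have hp := idet_plucker (V.u 0) (V.u 1) (V.u 2) (V.u 3)
  have k1 : idet (V.u 0) (V.u 1) = V.d 1 ^ 2 := h.det_u 0
  have k2 : idet (V.u 1) (V.u 2) = V.d 2 ^ 2 := h.det_u 1
  have k3 : idet (V.u 2) (V.u 3) = V.d 3 ^ 2 := h.det_u 2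
  have k0 : idet (V.u 3) (V.u 0) = V.d 0 ^ 2 := h.det_u 3
  rw [k1, k2, k3, idet_comm (V.u 0) (V.u 3), k0, hd, hd, hd, hd] at hp
  have hyz : idet (V.u 0) (V.u 2) * idet (V.u 1) (V.u 3) = 0 := by linarith
  rcases mul_eq_zero.mp hyz with h0 | h0
  · apply claim_rot 1
    apply main _ (h.rot 1) (fun i => hd (i + 1))
    change idet (V.u 2) (V.u 0) = 0
    rw [idet_comm, h0]; rfl
  · exact main V h hd h0

/-! ### Descent on the sum of the indices -/

/-- The sum of the indices. -/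
def Dat.dsum (V : Dat) : ℕ := (V.d 0 + V.d 1 + V.d 2 + V.d 3).toNat

/-- A reducible corner. -/
theorem Dat.Ok.reducible {V : Dat} {A B : ℝ} (h : V.Ok A B) :
    (∀ i, V.d i = 1) ∨ ∃ k, (V.rot k).dp < (V.rot k).d 0 ∧ (V.rot k).dm < (V.rot k).d 0 := by
  by_contra hcon
  rw [not_or] at hcon
  obtain ⟨hne, hred⟩ := hcon
  push Not at hred
  apply hne
  set y := idet (V.u 1) (V.u 3) with hy
  set z := idet (V.u 2) (V.u 0) with hz
  have p : ∀ i, 1 ≤ V.d i ^ 2 := by
    intro i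
    have := h.d_pos i
    nlinarith
  -- the relations
  have k1 : idet (V.u 0) (V.u 1) = V.d 1 ^ 2 := h.det_u 0
  have k2 : idet (V.u 1) (V.u 2) = V.d 2 ^ 2 := h.det_u 1
  have k3 : idet (V.u 2) (V.u 3) = V.d 3 ^ 2 := h.det_u 2
  have k0 : idet (V.u 3) (V.u 0) = V.d 0 ^ 2 := h.det_u 3
  have hC : y * z = V.d 0 ^ 2 * V.d 2 ^ 2 - V.d 1 ^ 2 * V.d 3 ^ 2 := by
    have hp := idet_plucker (V.u 0) (V.u 1) (V.u 2) (V.u 3)
    rw [k1, k2, k3, idet_comm (V.u 0) (V.u 3), k0, idet_comm (V.u 0) (V.u 2), ← hy, ← hz] at hp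
    linarith
  -- the `x i`
  have m0 : V.m 0 * (V.d 0 * V.d 1) = V.d 0 ^ 2 + V.d 1 ^ 2 + y := by
    have h1 := h.d0_dp
    have h2 : V.dp = V.m 0 * V.d 1 - V.d 0 := h.delta_plus
    rw [h2] at h1
    linarith
  have m1 : V.m 1 * (V.d 1 * V.d 2) = V.d 1 ^ 2 + V.d 2 ^ 2 + z := by
    have h1 := (h.rot 1).d0_dp
    have h2 : (V.rot 1).dp = V.m 1 * V.d 2 - V.d 1 := (h.rot 1).delta_plus
    rw [h2] at h1
    change V.d 1 * (V.m 1 * V.d 2 - V.d 1) = V.d 2 ^ 2 + idet (V.u 2) (V.u 0) at h1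
    linarith
  have m2 : V.m 2 * (V.d 2 * V.d 3) = V.d 2 ^ 2 + V.d 3 ^ 2 - y := by
    have h1 := (h.rot 2).d0_dp
    have h2 : (V.rot 2).dp = V.m 2 * V.d 3 - V.d 2 := (h.rot 2).delta_plus
    rw [h2] at h1
    change V.d 2 * (V.m 2 * V.d 3 - V.d 2) = V.d 3 ^ 2 + idet (V.u 3) (V.u 1) at h1
    rw [idet_comm] at h1
    linarith
  have m3 : V.m 3 * (V.d 3 * V.d 0) = V.d 3 ^ 2 + V.d 0 ^ 2 - z := by
    have h1 := (h.rot 3).d0_dp
    have h2 : (V.rot 3).dp = V.m 3 * V.d 0 - V.d 3 := (h.rot 3).delta_plus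
    rw [h2] at h1
    change V.d 3 * (V.m 3 * V.d 0 - V.d 3) = V.d 0 ^ 2 + idet (V.u 0) (V.u 2) at h1
    rw [idet_comm] at h1
    linarith
  have hW : y * (V.d 2 ^ 2 * V.d 3 ^ 2 - V.d 0 ^ 2 * V.d 1 ^ 2) +
      z * (V.d 3 ^ 2 * V.d 0 ^ 2 - V.d 1 ^ 2 * V.d 2 ^ 2) =
      8 * (V.d 0 ^ 2 * V.d 1 ^ 2 * V.d 2 ^ 2 * V.d 3 ^ 2) -
      2 * (V.d 0 ^ 2 * V.d 1 ^ 2 * V.d 2 ^ 2 + V.d 0 ^ 2 * V.d 1 ^ 2 * V.d 3 ^ 2 +
        V.d 0 ^ 2 * V.d 2 ^ 2 * V.d 3 ^ 2 + V.d 1 ^ 2 * V.d 2 ^ 2 * V.d 3 ^ 2) := by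
    have g := h.markov
    linear_combination (V.d 0 * V.d 1 * V.d 2 * V.d 3) * g -
      (V.d 2 ^ 2 * V.d 3 ^ 2) * m0 - (V.d 3 ^ 2 * V.d 0 ^ 2) * m1 -
      (V.d 0 ^ 2 * V.d 1 ^ 2) * m2 - (V.d 1 ^ 2 * V.d 2 ^ 2) * m3
  -- irreducibility
  have irr : ∀ k, (V.rot k).d 0 ^ 2 ≤ (V.rot k).d 1 ^ 2 +
        idet ((V.rot k).u 1) ((V.rot k).u 3) ∨
      (V.rot k).d 0 ^ 2 ≤ (V.rot k).d 3 ^ 2 - idet ((V.rot k).u 2) ((V.rot k).u 0) := by
    intro k
    have h1 := (h.rot k).d0_dp
    have h2 := (h.rot k).d0_dm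
    have h3 := (h.rot k).d_pos 0
    by_cases h4 : (V.rot k).dp < (V.rot k).d 0
    · right
      have := hred k h4
      rw [← h2]
      nlinarith
    · left
      push Not at h4
      rw [← h1]
      nlinarith
  have n0 : V.d 0 ^ 2 ≤ V.d 1 ^ 2 + y ∨ V.d 0 ^ 2 ≤ V.d 3 ^ 2 - z := by
    have := irr 0
    rwa [Dat.rot_zero] at this
  have n1 : V.d 1 ^ 2 ≤ V.d 2 ^ 2 + z ∨ V.d 1 ^ 2 ≤ V.d 0 ^ 2 + y := by
    have : V.d 1 ^ 2 ≤ V.d 2 ^ 2 + idet (V.u 2) (V.u 0) ∨
      V.d 1 ^ 2 ≤ V.d 0 ^ 2 - idet (V.u 3) (V.u 1) := irr 1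
    rw [idet_comm (V.u 3)] at this
    rcases this with h | h
    · left; exact h
    · right; linarith
  have n2 : V.d 2 ^ 2 ≤ V.d 3 ^ 2 - y ∨ V.d 2 ^ 2 ≤ V.d 1 ^ 2 + z := by
    have : V.d 2 ^ 2 ≤ V.d 3 ^ 2 + idet (V.u 3) (V.u 1) ∨
      V.d 2 ^ 2 ≤ V.d 1 ^ 2 - idet (V.u 0) (V.u 2) := irr 2
    rw [idet_comm (V.u 3), idet_comm (V.u 0)] at this
    rcases this with h | h
    · left; linarith
    · right; linarith
  have n3 : V.d 3 ^ 2 ≤ V.d 0 ^ 2 - z ∨ V.d 3 ^ 2 ≤ V.d 2 ^ 2 - y := by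
    have : V.d 3 ^ 2 ≤ V.d 0 ^ 2 + idet (V.u 0) (V.u 2) ∨
      V.d 3 ^ 2 ≤ V.d 2 ^ 2 - idet (V.u 1) (V.u 3) := irr 3
    rw [idet_comm (V.u 0)] at this
    rcases this with h | h
    · left; linarith
    · right; linarith
  have key := lemR (p 0) (p 1) (p 2) (p 3) hC hW
    (n0.imp (fun h => by linarith) (fun h => by linarith))
    (n1.imp (fun h => by linarith) (fun h => by linarith))
    (n2.imp (fun h => by linarith) (fun h => by linarith))
    (n3.imp (fun h => by linarith) (fun h => by linarith))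
  obtain ⟨q0, q1, q2, q3⟩ := key
  have sq : ∀ i, V.d i ^ 2 = 1 → V.d i = 1 := by
    intro i hi
    have := h.d_pos i
    nlinarith
  exact forall4 (sq 0 q0) (sq 1 q1) (sq 2 q2) (sq 3 q3)

theorem claim_all {a b : ℝ} (ha : 0 < a) (hb : 0 < b) (N : ℕ) : ∀ (V : Dat),
    V.Ok (2 * (a * b)) (2 * (a + b)) → V.dsum ≤ N → Claim a b V := by
  induction N with
  | zero =>
    intro V h hN
    exfalso
    have h0 := h.d_pos 0
    have h1 := h.d_pos 1
    have h2 := h.d_pos 2
    have h3 := h.d_pos 3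
    unfold Dat.dsum at hN
    omega
  | succ N ih =>
    intro V h hN
    rcases h.reducible with h1 | ⟨k, h1, h2⟩
    · exact claim_ones ha hb h h1
    · apply claim_rot k
      have hk := h.rot k
      have hs : (V.rot k).dsum = V.dsum := by
        unfold Dat.dsum
        congr 1
        revert k
        refine forall4 ?_ ?_ ?_ ?_
        · intro _ _ _; rfl
        · intro _ _ _
          change V.d 1 + V.d 2 + V.d 3 + V.d 0 = _
          ring
        · intro _ _ _
          change V.d 2 + V.d 3 + V.d 0 + V.d 1 = _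
          ring
        · intro _ _ _
          change V.d 3 + V.d 0 + V.d 1 + V.d 2 = _
          ring
      rw [← hs] at hN
      set W := V.rot k
      have d0 := hk.d_pos 0
      have d1 := hk.d_pos 1
      have d2 := hk.d_pos 2
      have d3 := hk.d_pos 3
      by_cases hS : 0 < W.S ∨ W.S = 0 ∧ 0 ≤ idet (W.e 0) (W.e 2)
      · have hS0 : 0 ≤ W.S := by
          rcases hS with h | h
          · exact h.le
          · exact h.1.ge
        apply claim_mutL hk hS
        apply ih _ (hk.mutL hS)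
        have hdp := hk.dp_pos hS0
        change (W.d 1 + W.dp + W.d 2 + W.d 3).toNat ≤ N
        unfold Dat.dsum at hN
        omega
      · have hS' : W.S < 0 ∨ W.S = 0 ∧ idet (W.e 0) (W.e 2) ≤ 0 := by
          rw [not_or, not_and_or] at hS
          obtain ⟨h3, h4⟩ := hS
          rcases (not_lt.mp h3).lt_or_eq with h5 | h5
          · left; exact h5
          · right
            refine ⟨h5, ?_⟩
            rcases h4 with h4 | h4
            · exact absurd h5 h4
            · exact (not_le.mp h4).le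
        have hS0 : W.S ≤ 0 := by
          rcases hS' with h | h
          · exact h.le
          · exact h.1.le
        apply claim_mutR hk hS'
        apply ih _ (hk.mutR hS')
        have hdp := hk.dm_pos hS0
        change (W.d 1 + W.d 2 + W.dm + W.d 3).toNat ≤ N
        unfold Dat.dsum at hN
        omega

/-- **Every admissible region arises up to an integral affine map.** -/
theorem arises_of_ok {a b : ℝ} (ha : 0 < a) (hb : 0 < b) {V : Dat}
    (h : V.Ok (2 * (a * b)) (2 * (a + b))) : ∃ Q, Arises a b Q ∧ AffEquiv Q V.reg := by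
  obtain ⟨M, c, τ, t, hM, D₀, h0, h1⟩ := claim_all ha hb V.dsum V h le_rfl
  refine ⟨(V.map M c).reg, ⟨D₀, _, h0, h1, rfl⟩, ?_⟩
  apply AffEquiv.symm
  refine ⟨M, c, ?_, ?_⟩
  · rw [hM]; exact isUnit_one
  · exact V.reg_map hM c

end Pool.Agent.NH80.Quad
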