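import Pool.Agent.NH80.Quad.Desc

/-!
# The characterisation
-/

open Set

namespace Pool.Agent.NH80.Quad

theorem shoe (P : Fin 4 → Pt) :
    ∑ i, det (P i) (P (i + 1)) = det (P 1 - P 0) (P 2 - P 1) + det (P 3 - P 2) (P 0 - P 3) := by
  rw [Fin.sum_univ_four]
  change det (P 0) (P 1) + det (P 1) (P 2) + det (P 2) (P 3) + det (P 3) (P 0) = _
  simp [det]
  ring

namespace Dat.Ok

variable {V : Dat} {A B : ℝ}

theorem extreme_subset (h : V.Ok A B) : V.reg.extremePoints ℝ ⊆ range V.P := by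
  rw [h.reg_eq_hull]
  exact extremePoints_convexHull_subset

theorem F_pos_of_l (h : V.Ok A B) (hl : ∀ i, 0 < V.l i) {i j : Fin 4} (h1 : j ≠ i)
    (h2 : j ≠ i + 1) : 0 < V.F i (V.P j) := by
  have hi : i = j ∨ j = i + 1 ∨ j = i + 2 ∨ i = j + 1 := by
    revert i j; decide
  rcases hi with h3 | h3 | h3 | h3
  · exact absurd h3.symm h1
  · exact absurd h3 h2
  · rw [h3, h.F_next2]
    have := hl (i + 1)
    have := h.Dsq_pos (i + 1)
    positivity
  · rw [h3, h.F_prev]
    have := hl j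
    have := h.Dsq_pos (j + 1)
    positivity

theorem P_injective (h : V.Ok A B) (hl : ∀ i, 0 < V.l i) : Function.Injective V.P := by
  intro i j hij
  by_contra hne
  -- one of the functionals of the edges at `i` separates `i` from `j`
  by_cases h1 : j = i + 1
  · -- use the edge ending at `i`
    have h2 : j ≠ (i - 1) := by
      rw [h1]
      exact (by decide : ∀ i : Fin 4, i + 1 ≠ i - 1) i
    have h3 : j ≠ (i - 1) + 1 := by
      rw [sub_add_cancel]; exact fun h => hne h.symm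
    have h4 := h.F_pos_of_l hl h2 h3
    have h5 := h.F_next (i - 1)
    rw [sub_add_cancel] at h5
    rw [← hij, h5] at h4
    exact lt_irrefl _ h4
  · have h4 := h.F_pos_of_l hl (fun h => hne h.symm) h1
    rw [← hij, F_self] at h4
    exact lt_irrefl _ h4

theorem P_extreme (h : V.Ok A B) (i : Fin 4) : V.P i ∈ V.reg.extremePoints ℝ := by
  rw [mem_extremePoints]
  refine ⟨h.P_mem i, ?_⟩
  intro x hx y hy hxy
  obtain ⟨a, b, ha, hb, hab, hz⟩ := hxy
  -- the two functionals of the edges at `i` vanish at `x` and `y`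
  have lin : ∀ k, V.F k (a • x + b • y) = a * V.F k x + b * V.F k y := by
    intro k
    have e : a • x + b • y - V.P k = a • (x - V.P k) + b • (y - V.P k) := by
      have : V.P k = (a + b) • V.P k := by rw [hab, one_smul]
      conv_lhs => rw [this]
      module
    rw [Dat.F, e, det_add_right, det_smul_right, det_smul_right]
    rfl
  have van : ∀ k, V.F k (V.P i) = 0 → V.F k x = 0 ∧ V.F k y = 0 := by
    intro k hk
    rw [← hz, lin] at hk
    have h1 := hx k
    have h2 := hy k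
    have h3 : 0 ≤ a * V.F k x := mul_nonneg ha.le h1
    have h4 : 0 ≤ b * V.F k y := mul_nonneg hb.le h2
    constructor
    · have : a * V.F k x = 0 := by linarith
      exact (mul_eq_zero.mp this).resolve_left ha.ne'
    · have : b * V.F k y = 0 := by linarith
      exact (mul_eq_zero.mp this).resolve_left hb.ne'
  have k1 := van i (F_self V i)
  have k2 := van (i - 1) (by
    have := h.F_next (i - 1)
    rwa [sub_add_cancel] at this)
  have hdet := h.detR (i - 1)
  rw [sub_add_cancel] at hdet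
  have hD := h.Dsq_pos i
  -- a point at which both vanish is `P i`
  have uniq : ∀ w, V.F i w = 0 → V.F (i - 1) w = 0 → w = V.P i := by
    intro w w1 w2
    have w3 : det (toPt (V.u (i - 1))) (w - V.P i) = 0 := by
      have e := F_sub (i - 1) w (V.P i) (V := V)
      have f := h.F_next (i - 1)
      rw [sub_add_cancel] at f
      rw [w2, f] at e
      linarith
    have w4 : det (toPt (V.u i)) (w - V.P i) = 0 := w1
    have c := det_cramer (toPt (V.u (i - 1))) (toPt (V.u i)) (w - V.P i)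
    rw [hdet, w4, det_comm (w - V.P i), w3] at c
    simp only [zero_smul, neg_zero, add_zero] at c
    have c' := (smul_eq_zero.mp c).resolve_left hD.ne'
    exact sub_eq_zero.mp c'
  exact ⟨uniq x k1.1 k2.1, uniq y k1.2 k2.2⟩

theorem ncard_extreme (h : V.Ok A B) (hl : ∀ i, 0 < V.l i) :
    (V.reg.extremePoints ℝ).ncard = 4 := by
  have e : V.reg.extremePoints ℝ = range V.P := by
    apply Subset.antisymm h.extreme_subset
    rintro _ ⟨i, rfl⟩
    exact h.P_extreme i
  rw [e, ← image_univ, ncard_image_of_injective _ (h.P_injective hl), ncard_univ]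
  simp

theorem l_pos_of_ncard (h : V.Ok A B) (hn : (V.reg.extremePoints ℝ).ncard = 4) :
    ∀ i, 0 < V.l i := by
  intro i
  rcases (h.l_nonneg i).lt_or_eq with h0 | h0
  · exact h0
  exfalso
  have hP : V.P (i + 1) = V.P i := by rw [h.step, ← h0, zero_smul, add_zero]
  have hr : range V.P ⊆ V.P '' {j | j ≠ i} := by
    rintro _ ⟨j, rfl⟩
    by_cases hj : j = i
    · exact ⟨i + 1, (by decide : ∀ i : Fin 4, i + 1 ≠ i) i, by rw [hP, hj]⟩
    · exact ⟨j, hj, rfl⟩
  have h1 : (V.reg.extremePoints ℝ).ncard ≤ (V.P '' {j | j ≠ i}).ncard :=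
    ncard_le_ncard (h.extreme_subset.trans hr) (toFinite _)
  have h2 : (V.P '' {j | j ≠ i}).ncard ≤ ({j | j ≠ i} : Set (Fin 4)).ncard :=
    ncard_image_le (toFinite _)
  have h3 : ({j | j ≠ i} : Set (Fin 4)).ncard = 3 := by
    have : ({j | j ≠ i} : Set (Fin 4)) = {i}ᶜ := by ext j; simp
    rw [this, ncard_compl, ncard_singleton]
    simp
  omega

/-- The description of the region. -/
theorem isMarkovQuad {a b : ℝ} (h : V.Ok (2 * (a * b)) (2 * (a + b))) (hl : ∀ i, 0 < V.l i) :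
    IsMarkovQuad a b V.reg := by
  refine ⟨V.P, V.l, V.u, V.e, V.d, h.reg_eq_hull, fun i => ⟨hl i, h.step i, h.prim_u i⟩,
    fun i => ⟨h.d_pos i, h.prim_e i, h.diff i, h.det_e i⟩, h.par, ?_, ?_, ?_⟩
  · rw [Fin.sum_univ_four]
    exact h.markov
  · rw [Fin.sum_univ_four]
    exact h.perim
  · rw [shoe, ← h.area]
    have e1 : V.P 1 - V.P 0 = V.l 0 • toPt (V.u 0) := by rw [h.P1_eq]; abel
    have e2 : V.P 2 - V.P 1 = V.l 1 • toPt (V.u 1) := by rw [h.P2_eq]; abel
    have e3 : V.P 3 - V.P 2 = V.l 2 • toPt (V.u 2) := by rw [h.P3_eq]; abel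
    have e4 : V.P 0 - V.P 3 = V.l 3 • toPt (V.u 3) := by
      conv_lhs => rw [h.P0_eq]
      abel
    have d1 : det (toPt (V.u 0)) (toPt (V.u 1)) = (V.d 1 : ℝ) ^ 2 := h.detR 0
    have d3 : det (toPt (V.u 2)) (toPt (V.u 3)) = (V.d 3 : ℝ) ^ 2 := h.detR 2
    rw [e1, e2, e3, e4, det_smul_left, det_smul_right, det_smul_left, det_smul_right, d1, d3]
    ring

end Dat.Ok

theorem IsMarkovQuad.exists_dat {a b : ℝ} (ha : 0 < a) (hb : 0 < b) {Q : Set Pt}
    (h : IsMarkovQuad a b Q) : ∃ V : Dat, V.Ok (2 * (a * b)) (2 * (a + b)) ∧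
      (∀ i, 0 < V.l i) ∧ Q = V.reg := by
  obtain ⟨P, l, u, e, d, hQ, h1, h2, h3, h4, h5, h6⟩ := h
  have hu : ∀ i, idet (u i) (u (i + 1)) = d (i + 1) ^ 2 := by
    intro i
    have := (h2 i).2.2.1
    have e1 : u (i + 1) = u i + d (i + 1) • e (i + 1) := by rw [← this]; abel
    rw [e1, idet_add_right, idet_smul_right, idet_self, (h2 i).2.2.2]
    ring
  have e1 : P 1 - P 0 = l 0 • toPt (u 0) := by
    have : P 1 = _ := (h1 0).2.1
    rw [this]; abel
  have e2 : P 2 - P 1 = l 1 • toPt (u 1) := by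
    have : P 2 = _ := (h1 1).2.1
    rw [this]; abel
  have e3 : P 3 - P 2 = l 2 • toPt (u 2) := by
    have : P 3 = _ := (h1 2).2.1
    rw [this]; abel
  have e4 : P 0 - P 3 = l 3 • toPt (u 3) := by
    have : P 0 = _ := (h1 3).2.1
    rw [this]; abel
  have d1 : det (toPt (u 0)) (toPt (u 1)) = (d 1 : ℝ) ^ 2 := by
    have : idet (u 0) (u 1) = d 1 ^ 2 := hu 0
    rw [det_toPt, this]; push_cast; rfl
  have d3 : det (toPt (u 2)) (toPt (u 3)) = (d 3 : ℝ) ^ 2 := by
    have : idet (u 2) (u 3) = d 3 ^ 2 := hu 2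
    rw [det_toPt, this]; push_cast; rfl
  have hok : (⟨P, l, u, e, d⟩ : Dat).Ok (2 * (a * b)) (2 * (a + b)) := by
    refine ⟨fun i => (h1 i).1.le, fun i => (h1 i).2.1, fun i => (h1 i).2.2, fun i => (h2 i).2.1,
      fun i => (h2 i).1, fun i => (h2 i).2.2.1, fun i => (h2 i).2.2.2,
      fun i hi => absurd hi (h1 i).1.ne', fun i => h3 (i + 1) i, ?_, ?_, ?_, by positivity⟩
    · rw [Fin.sum_univ_four] at h4
      exact h4
    · rw [shoe, e1, e2, e3, e4, det_smul_left, det_smul_right, det_smul_left, det_smul_right,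
        d1, d3] at h6
      simp only
      linarith
    · rw [Fin.sum_univ_four] at h5
      exact h5
  exact ⟨_, hok, fun i => (h1 i).1, by rw [hQ, hok.reg_eq_hull]⟩

/-- **The quadrilaterals arising from a rectangle.** -/
theorem main {a b : ℝ} (ha : 0 < a) (hb : 0 < b) (Q : Set Pt) :
    ((∃ Q', Arises a b Q' ∧ AffEquiv Q' Q) ∧ (Q.extremePoints ℝ).ncard = 4) ↔
      IsMarkovQuad a b Q := by
  constructor
  · rintro ⟨⟨Q', ⟨D₀, D, h0, h1, rfl⟩, M, c, hM, rfl⟩, hn⟩
    obtain ⟨V, t, τ, hV, ht, hr, -⟩ := inv_reach ha hb h0 h1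
    rw [hr] at hn ⊢
    rcases Int.isUnit_iff.mp hM with hM | hM
    · rw [← V.reg_map hM] at hn ⊢
      exact (hV.map hM c).isMarkovQuad ((hV.map hM c).l_pos_of_ncard hn)
    · rw [← hV.reg_ref hM] at hn ⊢
      exact (hV.ref hM c).isMarkovQuad ((hV.ref hM c).l_pos_of_ncard hn)
  · intro h
    obtain ⟨V, hV, hl, rfl⟩ := h.exists_dat ha hb
    exact ⟨arises_of_ok ha hb hV, hV.ncard_extreme hl⟩

end Pool.Agent.NH80.Quad
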