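import Pool.Agent.NH80.Quad.Map

/-!
# Every reachable diagram comes from admissible data
-/

open Set

namespace Pool.Agent.NH80.Quad

/-! ### The map `φ` of a node -/

/-- The inverse of `φ`. -/
noncomputable def phiInv (n : Node) (x : Pt) : Pt :=
  n.pos + ((x - n.pos) - ((x - n.pos).1 * n.cut.2 - (x - n.pos).2 * n.cut.1) • toPt n.cut)

/-- The inverse of `φ` on nodes. -/
noncomputable def phiNodeInv (n m : Node) : Node := ⟨phiInv n m.pos, nn n.cut m.cut⟩

theorem phi_phiInv (n : Node) (x : Pt) : phi n (phiInv n x) = x := by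
  ext <;> simp [phi, phiInv, mono, toPt] <;> ring

theorem phiInv_phi (n : Node) (x : Pt) : phiInv n (phi n x) = x := by
  ext <;> simp [phi, phiInv, mono, toPt] <;> ring

theorem imono_nn (e v : ℤ × ℤ) : imono e (nn e v) = v := by
  ext <;> simp [imono, nn, idet] <;> ring

theorem nn_imono (e v : ℤ × ℤ) : nn e (imono e v) = v := by
  ext <;> simp [imono, nn, idet] <;> ring

theorem Node.ext' {n m : Node} (h1 : n.pos = m.pos) (h2 : n.cut = m.cut) : n = m := by
  cases n; cases m; simp_all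

theorem phiNode_inv (n m : Node) : phiNode n (phiNodeInv n m) = m := by
  apply Node.ext'
  · exact phi_phiInv n m.pos
  · exact imono_nn n.cut m.cut

theorem phiNodeInv_phi (n m : Node) : phiNodeInv n (phiNode n m) = m := by
  apply Node.ext'
  · exact phiInv_phi n m.pos
  · exact nn_imono n.cut m.cut

/-- The matrix of the monodromy. -/
def mmat (c : ℤ × ℤ) : Matrix (Fin 2) (Fin 2) ℤ :=
  !![1 + c.2 * c.1, c.2 * c.2; -(c.1 * c.1), 1 - c.1 * c.2]

theorem mmat_det (c : ℤ × ℤ) : (mmat c).det = 1 := by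
  rw [Matrix.det_fin_two]
  simp [mmat]
  ring

theorem iact_mmat (c v : ℤ × ℤ) : iact (mmat c) v = imono c v := by
  ext <;> simp [iact, mmat, imono] <;> ring

theorem phi_eq_affMap (n : Node) (x : Pt) :
    phi n x = affMap (mmat n.cut) (n.pos - ract (mmat n.cut) n.pos) x := by
  ext <;> simp [phi, affMap, mono, mmat, ract, toPt] <;> ring

/-! ### Nodes of the data -/

/-- The node at the corner `i` at distance `t i`. -/
noncomputable def Dat.nd (V : Dat) (t : Fin 4 → ℝ) (i : Fin 4) : Node :=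
  ⟨V.P i + t i • toPt (V.e i), -V.e i⟩

/-- The invariant. -/
def Inv (A B : ℝ) (D : Diagram) : Prop :=
  ∃ (V : Dat) (t : Fin 4 → ℝ) (τ : Equiv.Perm (Fin 4)), V.Ok A B ∧ (∀ i, 0 < t i) ∧
    D.region = V.reg ∧ ∀ j, D.node j = V.nd t (τ j)

theorem Inv.rot {A B : ℝ} {D : Diagram} (h : Inv A B D) (i : Fin 4) :
    ∃ (V : Dat) (t : Fin 4 → ℝ) (τ : Equiv.Perm (Fin 4)), V.Ok A B ∧ (∀ i, 0 < t i) ∧
    D.region = V.reg ∧ (∀ j, D.node j = V.nd t (τ j)) ∧ τ i = 0 := by
  obtain ⟨V, t, τ, hV, ht, hr, hn⟩ := h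
  refine ⟨V.rot (τ i), fun k => t (k + τ i), τ.trans (Equiv.subRight (τ i)), hV.rot _,
    fun k => ht _, by rw [hr, V.reg_rot], ?_, by simp⟩
  intro j
  rw [hn j]
  simp [Dat.nd, Dat.rot]

theorem Inv.slide {A B : ℝ} {D D' : Diagram} (h : Inv A B D) (hD' : D'.Valid)
    (hs : Slide D D') : Inv A B D' := by
  obtain ⟨V, t, τ, hV, ht, hr, hn⟩ := h
  obtain ⟨hreg, hnode⟩ := hs
  choose hcut s hs using hnode
  have hk : ∀ k, D'.node (τ.symm k) = V.nd (fun k => t k - s (τ.symm k)) k := by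
    intro k
    apply Node.ext'
    · rw [hs, hn]
      simp only [Dat.nd, Equiv.apply_symm_apply, toPt_neg]
      module
    · rw [hcut, hn]
      simp only [Dat.nd, Equiv.apply_symm_apply]
  refine ⟨V, fun k => t k - s (τ.symm k), τ, hV, ?_, by rw [hreg, hr], ?_⟩
  · intro k
    have h1 := hD'.inside (τ.symm k)
    rw [hreg, hr, hk] at h1
    have h2 := hV.F_pos_of_mem_interior h1 k
    have h3 : V.F k (V.nd (fun k => t k - s (τ.symm k)) k).pos =
        (t k - s (τ.symm k)) * V.d k := by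
      simp only [Dat.nd, Dat.F, add_sub_cancel_left]
      rw [det_smul_right, det_toPt]
      have h4 := hV.det_e' (k - 1)
      rw [sub_add_cancel] at h4
      rw [h4]
    rw [h3] at h2
    have h5 : (0 : ℝ) < V.d k := by exact_mod_cast hV.d_pos k
    by_contra hcon
    push Not at hcon
    have := mul_nonpos_of_nonpos_of_nonneg hcon h5.le
    linarith
  · intro j
    have := hk (τ j)
    rwa [Equiv.symm_apply_apply] at this

namespace Dat

variable (V : Dat)

theorem phi_nd (t : Fin 4 → ℝ) (x : Pt) : phi (V.nd t 0) x = V.ph x := by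
  ext <;> simp [phi, Dat.nd, mono, Dat.ph, Dat.s, det, toPt] <;> ring

theorem psi_ph (x : Pt) : V.psi (V.ph x) = x := by
  rw [Dat.psi, V.s_ph, Dat.ph]
  module

theorem mem_cwSide (t : Fin 4 → ℝ) (x : Pt) : x ∈ cwSide (V.nd t 0) ↔ 0 ≤ V.s x := by
  have : det (toPt (V.nd t 0).cut) (x - (V.nd t 0).pos) = -V.s x := by
    simp [Dat.nd, Dat.s, det, toPt]; ring
  simp only [cwSide, mem_ofPred_eq, this]
  constructor <;> intro h <;> linarith

theorem mem_acwSide (t : Fin 4 → ℝ) (x : Pt) : x ∈ acwSide (V.nd t 0) ↔ V.s x ≤ 0 := by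
  have : det (toPt (V.nd t 0).cut) (x - (V.nd t 0).pos) = -V.s x := by
    simp [Dat.nd, Dat.s, det, toPt]; ring
  simp only [acwSide, mem_ofPred_eq, this]
  constructor <;> intro h <;> linarith

/-- The moved node. -/
noncomputable def mv (m : Node) : Node := ⟨V.psi m.pos, nn (V.e 0) m.cut⟩

theorem nn_neg_left (e v : ℤ × ℤ) : nn (-e) v = nn e v := by
  ext <;> simp [nn, idet] <;> ring

theorem nn_neg_right (e v : ℤ × ℤ) : nn e (-v) = -nn e v := by
  ext <;> simp [nn, idet] <;> ring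

theorem eq_mv {t : Fin 4 → ℝ} {m m' : Node} (h : phiNode (V.nd t 0) m' = m) : m' = V.mv m := by
  rw [← h]
  apply Node.ext'
  · change m'.pos = V.psi (phi (V.nd t 0) m'.pos)
    rw [V.phi_nd, V.psi_ph]
  · change m'.cut = nn (V.e 0) (imono (-V.e 0) m'.cut)
    rw [← nn_neg_left, nn_imono]

theorem psi_add_smul (x : Pt) (k : ℝ) (v : ℤ × ℤ) :
    V.psi (x + k • toPt v) = V.psi x + k • toPt (nn (V.e 0) v) := by
  ext <;> simp [Dat.psi, Dat.s, det, toPt, nn, idet] <;> ring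

theorem mv_nd (t : Fin 4 → ℝ) (k : Fin 4) :
    V.mv (V.nd t k) =
      ⟨V.psi (V.P k) + t k • toPt (nn (V.e 0) (V.e k)), -nn (V.e 0) (V.e k)⟩ := by
  apply Node.ext'
  · exact V.psi_add_smul _ _ _
  · exact nn_neg_right _ _

theorem s_nd (t : Fin 4 → ℝ) (k : Fin 4) :
    V.s (V.nd t k).pos = V.s (V.P k) + t k * idet (V.e 0) (V.e k) := by
  simp [Dat.nd, Dat.s, det, toPt, idet]; ring

theorem s_line (k : Fin 4) (r : ℝ) :
    V.s (V.P k + r • toPt (V.e k)) = V.s (V.P k) + r * idet (V.e 0) (V.e k) := by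
  simp [Dat.s, det, toPt, idet]; ring

/-- If the determinant vanishes and the node lies on the eigenline then it is not moved. -/
theorem mv_fixed {t : Fin 4 → ℝ} {k : Fin 4} (h0 : idet (V.e 0) (V.e k) = 0)
    (h1 : V.s (V.P k) = 0) : V.mv (V.nd t k) = V.nd t k := by
  have h2 : idet (V.e k) (V.e 0) = 0 := by rw [idet_comm, h0]; rfl
  have e : nn (V.e 0) (V.e k) = V.e k := by rw [nn, h2]; simp
  rw [V.mv_nd, e]
  apply Node.ext'
  · simp [Dat.nd, Dat.psi, h1]
  · rfl

end Dat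

namespace Dat.Ok

variable {V : Dat} {A B : ℝ}

/-- The distance from `P₀` to the far end of the eigenline in the left case. -/
theorem H_left (h : V.Ok A B) (hS : 0 ≤ V.S) :
    V.P 1 + V.tL • toPt (V.u 1) =
      V.P 0 + (V.l 0 * (V.d 1 : ℝ) ^ 2 / V.dp) • toPt (V.e 0) := by
  have hdp : (0 : ℝ) < V.dp := by exact_mod_cast h.dp_pos hS
  have ht := h.tL_mul hS
  have c := det_cramer (toPt (V.e 0)) (toPt (V.u 0)) (toPt (V.u 1))
  have d1 : det (toPt (V.u 0)) (toPt (V.u 1)) = (V.d 1 : ℝ) ^ 2 := h.detR 0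
  have e0 : det (toPt (V.e 0)) (toPt (V.u 0)) = -(V.d 0 : ℝ) := by
    rw [det_toPt, h.e0_u0]; push_cast; ring
  have e1 : det (toPt (V.u 1)) (toPt (V.e 0)) = -(V.dp : ℝ) := by
    rw [det_toPt, h.u1_e0]; push_cast; ring
  rw [d1, e0, e1] at c
  rw [h.P1_eq]
  have c1 := congrArg Prod.fst c
  have c2 := congrArg Prod.snd c
  simp only [Prod.fst_add, Prod.snd_add, Prod.smul_fst, Prod.smul_snd, smul_eq_mul,
    Prod.fst_zero, Prod.snd_zero] at c1 c2
  ext
  · simp only [Prod.fst_add, Prod.smul_fst, smul_eq_mul]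
    field_simp
    linear_combination (toPt (V.u 1)).1 * ht - V.l 0 * c1
  · simp only [Prod.snd_add, Prod.smul_snd, smul_eq_mul]
    field_simp
    linear_combination (toPt (V.u 1)).2 * ht - V.l 0 * c2

theorem H_right (h : V.Ok A B) (hS : V.S ≤ 0) :
    V.P 3 - V.tR • toPt (V.u 2) =
      V.P 0 + (V.l 3 * (V.d 3 : ℝ) ^ 2 / V.dm) • toPt (V.e 0) := by
  have hdm : (0 : ℝ) < V.dm := by exact_mod_cast h.dm_pos hS
  have ht := h.tR_mul hS
  have c := det_cramer (toPt (V.e 0)) (toPt (V.u 2)) (toPt (V.u 3))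
  have d3 : det (toPt (V.u 2)) (toPt (V.u 3)) = (V.d 3 : ℝ) ^ 2 := h.detR 2
  have e0 : det (toPt (V.u 3)) (toPt (V.e 0)) = (V.d 0 : ℝ) := by
    rw [det_toPt, h.u3_e0]
  have e1 : det (toPt (V.e 0)) (toPt (V.u 2)) = (V.dm : ℝ) := by
    rw [det_toPt]; rfl
  rw [d3, e0, e1] at c
  have c1 := congrArg Prod.fst c
  have c2 := congrArg Prod.snd c
  simp only [Prod.fst_add, Prod.snd_add, Prod.smul_fst, Prod.smul_snd, smul_eq_mul,
    Prod.fst_zero, Prod.snd_zero] at c1 c2
  rw [h.P0_eq]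
  ext
  · simp only [Prod.fst_add, Prod.fst_sub, Prod.smul_fst, smul_eq_mul]
    field_simp
    linear_combination -(toPt (V.u 2)).1 * ht - V.l 3 * c1
  · simp only [Prod.snd_add, Prod.snd_sub, Prod.smul_snd, smul_eq_mul]
    field_simp
    linear_combination -(toPt (V.u 2)).2 * ht - V.l 3 * c2

/-- The functional `F₁` on the eigenline. -/
theorem F1_line (h : V.Ok A B) (hS : 0 ≤ V.S) (r : ℝ) :
    V.F 1 (V.P 0 + r • toPt (V.e 0)) = (V.l 0 * (V.d 1 : ℝ) ^ 2 / V.dp - r) * V.dp := by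
  have hdp : (0 : ℝ) < V.dp := by exact_mod_cast h.dp_pos hS
  have e1 : det (toPt (V.u 1)) (toPt (V.e 0)) = -(V.dp : ℝ) := by
    rw [det_toPt, h.u1_e0]; push_cast; ring
  rw [h.F1_eq, add_sub_cancel_left, det_smul_right, e1]
  field_simp
  ring

theorem F2_line (h : V.Ok A B) (hS : V.S ≤ 0) (r : ℝ) :
    V.F 2 (V.P 0 + r • toPt (V.e 0)) = (V.l 3 * (V.d 3 : ℝ) ^ 2 / V.dm - r) * V.dm := by
  have hdm : (0 : ℝ) < V.dm := by exact_mod_cast h.dm_pos hS
  have e1 : det (toPt (V.u 2)) (toPt (V.e 0)) = -(V.dm : ℝ) := by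
    rw [det_toPt, h.u2_e0]; push_cast; ring
  rw [h.F2_eq, add_sub_cancel_left, det_smul_right, e1]
  field_simp
  ring

end Dat.Ok

/-- The relabelling of the corners in the right case. -/
def cyc : Equiv.Perm (Fin 4) where
  toFun := ![2, 0, 1, 3]
  invFun := ![1, 2, 0, 3]
  left_inv := by decide
  right_inv := by decide

/-- The distances of the nodes after a left mutation. -/
noncomputable def Dat.tLeft (V : Dat) (t : Fin 4 → ℝ) : Fin 4 → ℝ :=
  ![t 1, V.l 0 * (V.d 1 : ℝ) ^ 2 / V.dp - t 0, t 2, t 3]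

/-- The distances of the nodes after a right mutation. -/
noncomputable def Dat.tRight (V : Dat) (t : Fin 4 → ℝ) : Fin 4 → ℝ :=
  ![t 1, t 2, V.l 3 * (V.d 3 : ℝ) ^ 2 / V.dm - t 0, t 3]

theorem Dat.nd_left0 (V : Dat) (t : Fin 4 → ℝ) :
    V.mutL.nd (V.tLeft t) 0 = V.mv (V.nd t 1) := by
  rw [V.mv_nd]; rfl

theorem Dat.Ok.nd_left1 {V : Dat} {A B : ℝ} (h : V.Ok A B) (hS : 0 ≤ V.S) (t : Fin 4 → ℝ) :
    V.mutL.nd (V.tLeft t) 1 = ⟨(V.nd t 0).pos, -(V.nd t 0).cut⟩ := by
  apply Node.ext'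
  · change V.P 1 + V.tL • toPt (V.u 1) +
      (V.l 0 * (V.d 1 : ℝ) ^ 2 / V.dp - t 0) • toPt (-V.e 0) = V.P 0 + t 0 • toPt (V.e 0)
    rw [h.H_left hS, toPt_neg]
    module
  · rfl

theorem Dat.nd_left2 (V : Dat) (t : Fin 4 → ℝ) :
    V.mutL.nd (V.tLeft t) 2 = V.nd t 2 := rfl

theorem Dat.nd_left3 (V : Dat) (t : Fin 4 → ℝ) :
    V.mutL.nd (V.tLeft t) 3 = V.nd t 3 := rfl

theorem Dat.nd_right0 (V : Dat) (t : Fin 4 → ℝ) :
    V.mutR.nd (V.tRight t) 0 = V.mv (V.nd t 1) := by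
  rw [V.mv_nd]; rfl

theorem Dat.nd_right1 (V : Dat) (t : Fin 4 → ℝ) :
    V.mutR.nd (V.tRight t) 1 = V.mv (V.nd t 2) := by
  rw [V.mv_nd]; rfl

theorem Dat.Ok.nd_right2 {V : Dat} {A B : ℝ} (h : V.Ok A B) (hS : V.S ≤ 0) (t : Fin 4 → ℝ) :
    V.mutR.nd (V.tRight t) 2 = ⟨(V.nd t 0).pos, -(V.nd t 0).cut⟩ := by
  apply Node.ext'
  · change V.P 3 - V.tR • toPt (V.u 2) +
      (V.l 3 * (V.d 3 : ℝ) ^ 2 / V.dm - t 0) • toPt (-V.e 0) = V.P 0 + t 0 • toPt (V.e 0)
    rw [h.H_right hS, toPt_neg]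
    module
  · rfl

theorem Dat.nd_right3 (V : Dat) (t : Fin 4 → ℝ) :
    V.mutR.nd (V.tRight t) 3 = V.nd t 3 := rfl

theorem Inv.acw {A B : ℝ} {D D' : Diagram} (hI : Inv A B D)
    (hin : ∀ j, (D.node j).pos ∈ interior D.region) (i : Fin 4)
    (hM : AcwMutation i D D') : Inv A B D' := by
  obtain ⟨V, t, τ, h, ht, hr, hn, hi⟩ := hI.rot i
  obtain ⟨hreg, hnode, hother⟩ := hM
  have hni : D.node i = V.nd t 0 := by rw [hn, hi]
  rw [hni] at hreg hnode hother
  have hsymm0 : τ.symm 0 = i := by rw [← hi, Equiv.symm_apply_apply]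
  -- the cut of the corner `k` contains the corner and the node
  have hcutP : ∀ k, V.P k ∈ D.cutSeg (τ.symm k) := by
    intro k
    refine ⟨by rw [hr]; exact h.P_mem k, t k, (ht k).le, ?_⟩
    rw [hn, Equiv.apply_symm_apply]
    simp only [Dat.nd, toPt_neg]
    module
  have hcutN : ∀ k, (V.nd t k).pos ∈ D.cutSeg (τ.symm k) := by
    intro k
    refine ⟨?_, 0, le_rfl, ?_⟩
    · have := interior_subset (hin (τ.symm k))
      rwa [hn, Equiv.apply_symm_apply] at this
    · rw [hn, Equiv.apply_symm_apply]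
      simp
  have hcase : ∀ k, k ≠ 0 →
      ((0 ≤ V.s (V.P k) ∧ 0 ≤ V.s (V.nd t k).pos) ∧ D'.node (τ.symm k) = V.nd t k) ∨
      ((V.s (V.P k) ≤ 0 ∧ V.s (V.nd t k).pos ≤ 0) ∧ D'.node (τ.symm k) = V.mv (V.nd t k)) := by
    intro k hk
    have hne : τ.symm k ≠ i := by
      intro h0
      rw [← hsymm0] at h0
      exact hk (τ.symm.injective h0)
    rcases hother (τ.symm k) hne with ⟨h1, h2⟩ | ⟨h1, h2⟩
    · left
      refine ⟨⟨?_, ?_⟩, ?_⟩
      · exact (V.mem_cwSide t _).mp (h1 (hcutP k))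
      · exact (V.mem_cwSide t _).mp (h1 (hcutN k))
      · rw [h2, hn, Equiv.apply_symm_apply]
    · right
      refine ⟨⟨?_, ?_⟩, ?_⟩
      · exact (V.mem_acwSide t _).mp (h1 (hcutP k))
      · exact (V.mem_acwSide t _).mp (h1 (hcutN k))
      · have := V.eq_mv h2
        rw [this, hn, Equiv.apply_symm_apply]
  have hd0 : (0 : ℝ) < V.d 0 := by exact_mod_cast h.d_pos 0
  -- corner 1 is moved
  have c1 : D'.node (τ.symm 1) = V.mv (V.nd t 1) := by
    rcases hcase 1 (by decide) with ⟨⟨h1, h2⟩, h3⟩ | ⟨_, h3⟩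
    · rw [V.s_nd] at h2
      rw [h.s_P1] at h1 h2
      have hl : V.l 0 = 0 := by
        have : V.l 0 * V.d 0 ≤ 0 := by linarith
        by_contra hne
        have h4 : 0 < V.l 0 := lt_of_le_of_ne (h.l_nonneg 0) (Ne.symm hne)
        have := mul_pos h4 hd0
        linarith
      have hm : idet (V.e 0) (V.e 1) ≤ 0 := h.zero 0 hl
      have hm2 : idet (V.e 0) (V.e 1) = 0 := by
        by_contra hne
        have h4 : idet (V.e 0) (V.e 1) < 0 := lt_of_le_of_ne hm hne
        have h5 : (idet (V.e 0) (V.e 1) : ℝ) < 0 := by exact_mod_cast h4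
        have := mul_neg_of_pos_of_neg (ht 1) h5
        rw [hl] at h2
        linarith
      rw [h3, V.mv_fixed hm2 (by rw [h.s_P1, hl]; ring)]
    · exact h3
  -- corner 3 is fixed
  have c3 : D'.node (τ.symm 3) = V.nd t 3 := by
    rcases hcase 3 (by decide) with ⟨_, h3⟩ | ⟨⟨h1, h2⟩, h3⟩
    · exact h3
    · rw [V.s_nd] at h2
      rw [h.s_P3] at h1 h2
      have hl : V.l 3 = 0 := by
        by_contra hne
        have h4 : 0 < V.l 3 := lt_of_le_of_ne (h.l_nonneg 3) (Ne.symm hne)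
        have := mul_pos h4 hd0
        linarith
      have hm : idet (V.e 3) (V.e 0) ≤ 0 := h.zero 3 hl
      have hm2 : idet (V.e 0) (V.e 3) = 0 := by
        by_contra hne
        have h4 : 0 < idet (V.e 0) (V.e 3) := by
          rw [idet_comm] at hm
          exact lt_of_le_of_ne (by linarith) (Ne.symm hne)
        have h5 : (0 : ℝ) < (idet (V.e 0) (V.e 3) : ℝ) := by exact_mod_cast h4
        have := mul_pos (ht 3) h5
        rw [hl] at h2
        linarith
      rw [h3, V.mv_fixed hm2 (by rw [h.s_P3, hl]; ring)]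
  have hF0 := h.F_pos_of_mem_interior (x := (V.nd t 0).pos) (by
    have := hin i
    rwa [hr, hni] at this)
  have h2 := hcase 2 (by decide)
  have hex : ∀ j, ∃ k, j = τ.symm k := fun j => ⟨τ j, by simp⟩
  rcases h2 with ⟨⟨h1, h2⟩, h3⟩ | ⟨⟨h1, h2⟩, h3⟩
  · -- left case
    have hS : 0 < V.S ∨ V.S = 0 ∧ 0 ≤ idet (V.e 0) (V.e 2) := by
      rcases h1.lt_or_eq with h4 | h4
      · left; exact h4
      · right
        refine ⟨h4.symm, ?_⟩
        rw [V.s_nd, ← h4, zero_add] at h2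
        by_contra hcon
        push Not at hcon
        have h5 : (idet (V.e 0) (V.e 2) : ℝ) < 0 := by exact_mod_cast hcon
        have := mul_neg_of_pos_of_neg (ht 2) h5
        linarith
    have hS0 : 0 ≤ V.S := h1
    have hdp : (0 : ℝ) < V.dp := by exact_mod_cast h.dp_pos hS0
    have ht0 : 0 < V.l 0 * (V.d 1 : ℝ) ^ 2 / V.dp - t 0 := by
      have := hF0 1
      simp only [Dat.nd] at this
      rw [h.F1_line hS0] at this
      by_contra hcon
      push Not at hcon
      have := mul_nonpos_of_nonpos_of_nonneg hcon hdp.le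
      linarith
    refine ⟨V.mutL, V.tLeft t, τ.trans (Equiv.swap 0 1), h.mutL hS, ?_, ?_, ?_⟩
    · exact forall4 (ht 1) ht0 (ht 2) (ht 3)
    · rw [hreg, hr]
      ext y
      rw [h.reg_mutL hS0]
      simp only [mem_union, mem_inter_iff, mem_preimage, V.mem_cwSide, V.mem_acwSide, V.phi_nd,
        V.s_ph]
      tauto
    · intro j
      obtain ⟨k, rfl⟩ := hex j
      have key : ∀ k, D'.node (τ.symm k) = V.mutL.nd (V.tLeft t) (Equiv.swap 0 1 k) := by
        refine forall4 ?_ ?_ ?_ ?_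
        · rw [hsymm0, hnode]
          exact (h.nd_left1 hS0 t).symm
        · rw [c1]
          exact (V.nd_left0 t).symm
        · rw [h3]
          exact (V.nd_left2 t).symm
        · rw [c3]
          exact (V.nd_left3 t).symm
      rw [key k]
      simp
  · -- right case
    have hS : V.S < 0 ∨ V.S = 0 ∧ idet (V.e 0) (V.e 2) ≤ 0 := by
      rcases h1.lt_or_eq with h4 | h4
      · left; exact h4
      · right
        refine ⟨h4, ?_⟩
        rw [V.s_nd, h4, zero_add] at h2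
        by_contra hcon
        push Not at hcon
        have h5 : (0 : ℝ) < (idet (V.e 0) (V.e 2) : ℝ) := by exact_mod_cast hcon
        have := mul_pos (ht 2) h5
        linarith
    have hS0 : V.S ≤ 0 := h1
    have hdm : (0 : ℝ) < V.dm := by exact_mod_cast h.dm_pos hS0
    have ht0 : 0 < V.l 3 * (V.d 3 : ℝ) ^ 2 / V.dm - t 0 := by
      have := hF0 2
      simp only [Dat.nd] at this
      rw [h.F2_line hS0] at this
      by_contra hcon
      push Not at hcon
      have := mul_nonpos_of_nonpos_of_nonneg hcon hdm.le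
      linarith
    refine ⟨V.mutR, V.tRight t, τ.trans cyc, h.mutR hS, ?_, ?_, ?_⟩
    · exact forall4 (ht 1) (ht 2) ht0 (ht 3)
    · rw [hreg, hr]
      ext y
      rw [h.reg_mutR hS0]
      simp only [mem_union, mem_inter_iff, mem_preimage, V.mem_cwSide, V.mem_acwSide, V.phi_nd,
        V.s_ph]
      tauto
    · intro j
      obtain ⟨k, rfl⟩ := hex j
      have key : ∀ k, D'.node (τ.symm k) = V.mutR.nd (V.tRight t) (cyc k) := by
        refine forall4 ?_ ?_ ?_ ?_
        · rw [hsymm0, hnode]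
          exact (h.nd_right2 hS0 t).symm
        · rw [c1]
          exact (V.nd_right0 t).symm
        · rw [h3]
          exact (V.nd_right1 t).symm
        · rw [c3]
          exact (V.nd_right3 t).symm
      rw [key k]
      simp

theorem Inv.map {A B : ℝ} {D D' : Diagram} (hI : Inv A B D) (M : Matrix (Fin 2) (Fin 2) ℤ)
    (hM : M.det = 1) (c : Pt) (hr' : D'.region = affMap M c '' D.region)
    (hn' : ∀ j, D'.node j = ⟨affMap M c (D.node j).pos, iact M (D.node j).cut⟩) :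
    Inv A B D' := by
  obtain ⟨V, t, τ, h, ht, hr, hn⟩ := hI
  refine ⟨V.map M c, t, τ, h.map hM c, ht, ?_, ?_⟩
  · rw [hr', hr, V.reg_map hM]
  · intro j
    rw [hn', hn]
    apply Node.ext'
    · simp only [Dat.nd, Dat.map, affMap_add_smul, toPt_iact]
    · simp only [Dat.nd, Dat.map, iact_neg]

theorem Inv.cw {A B : ℝ} {D D' : Diagram} (hI : Inv A B D)
    (hin : ∀ j, (D.node j).pos ∈ interior D.region) (i : Fin 4)
    (hM : CwMutation i D D') : Inv A B D' := by
  obtain ⟨hreg, hnode, hother⟩ := hM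
  set n := D.node i with hn
  let D'' : Diagram := ⟨phi n ⁻¹' D'.region, fun j => phiNodeInv n (D'.node j)⟩
  have hinj : Function.Injective (phi n) := fun x y hxy => by
    have := congrArg (phiInv n) hxy
    rwa [phiInv_phi, phiInv_phi] at this
  have hacw : AcwMutation i D D'' := by
    refine ⟨?_, ?_, ?_⟩
    · change phi n ⁻¹' D'.region = _
      rw [hreg, preimage_union, preimage_image_eq _ hinj]
    · change phiNodeInv n (D'.node i) = _
      rw [hnode]
      have : (⟨n.pos, -n.cut⟩ : Node) = phiNode n ⟨n.pos, -n.cut⟩ := by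
        apply Node.ext'
        · simp [phiNode, phi, mono]
        · simp only [phiNode, imono]
          have : (-n.cut).1 * n.cut.2 - (-n.cut).2 * n.cut.1 = 0 := by
            simp; ring
          rw [this]
          simp
      conv_lhs => rw [this]
      rw [phiNodeInv_phi]
    · intro j hj
      rcases hother j hj with ⟨h1, h2⟩ | ⟨h1, h2⟩
      · left
        refine ⟨h1, ?_⟩
        change phiNodeInv n (D'.node j) = _
        rw [h2, phiNodeInv_phi]
      · right
        refine ⟨h1, ?_⟩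
        change phiNode n (phiNodeInv n (D'.node j)) = _
        rw [phiNode_inv, h2]
  have h1 := hI.acw hin i hacw
  refine h1.map (mmat n.cut) (mmat_det _) (n.pos - ract (mmat n.cut) n.pos) ?_ ?_
  · have e : affMap (mmat n.cut) (n.pos - ract (mmat n.cut) n.pos) = phi n := by
      funext x
      rw [phi_eq_affMap]
    rw [e]
    change D'.region = phi n '' (phi n ⁻¹' D'.region)
    rw [image_preimage_eq]
    intro y
    exact ⟨phiInv n y, phi_phiInv n y⟩
  · intro j
    rw [← phi_eq_affMap, iact_mmat]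
    change D'.node j = phiNode n (phiNodeInv n (D'.node j))
    rw [phiNode_inv]

theorem Inv.step {A B : ℝ} {D D' : Diagram} (hI : Inv A B D) (hs : Step D D') :
    Inv A B D' := by
  obtain ⟨h1, h2, h3 | ⟨i, h3 | h3⟩⟩ := hs
  · exact hI.slide h2 h3
  · exact hI.acw h1.inside i h3
  · exact hI.cw h1.inside i h3

/-! ### The start -/

/-- The data of the rectangle. -/
noncomputable def rect (a b : ℝ) : Dat where
  P := corner a b
  l := ![a, b, a, b]
  u := ![(1, 0), (0, 1), (-1, 0), (0, -1)]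
  e := diag
  d := ![1, 1, 1, 1]

theorem rect_ok {a b : ℝ} (ha : 0 < a) (hb : 0 < b) :
    (rect a b).Ok (2 * (a * b)) (2 * (a + b)) := by
  refine ⟨?_, ?_, ?_, ?_, ?_, ?_, ?_, ?_, ?_, ?_, ?_, ?_, by positivity⟩
  · exact forall4 ha.le hb.le ha.le hb.le
  · refine forall4 ?_ ?_ ?_ ?_
    · change ((a, 0) : Pt) = (0, 0) + a • toPt (1, 0)
      simp [toPt]
    · change ((a, b) : Pt) = (a, 0) + b • toPt (0, 1)
      simp [toPt]
    · change ((0, b) : Pt) = (a, b) + a • toPt (-1, 0)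
      simp [toPt]
    · change ((0, 0) : Pt) = (0, b) + b • toPt (0, -1)
      simp [toPt]
  · exact forall4 ⟨1, 0, by rfl⟩ ⟨0, 1, by rfl⟩ ⟨-1, 0, by rfl⟩ ⟨0, -1, by rfl⟩
  · exact forall4 ⟨1, 0, by rfl⟩ ⟨-1, 0, by rfl⟩ ⟨-1, 0, by rfl⟩ ⟨1, 0, by rfl⟩
  · exact forall4 one_pos one_pos one_pos one_pos
  · refine forall4 ?_ ?_ ?_ ?_ <;> rfl
  · refine forall4 ?_ ?_ ?_ ?_ <;> rfl
  · refine forall4 ?_ ?_ ?_ ?_
    · intro h; exact absurd h ha.ne'
    · intro h; exact absurd h hb.ne'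
    · intro h; exact absurd h ha.ne'
    · intro h; exact absurd h hb.ne'
  · exact forall4 ⟨⟨-1, by rfl⟩, ⟨0, by rfl⟩⟩ ⟨⟨0, by rfl⟩, ⟨-1, by rfl⟩⟩
      ⟨⟨1, by rfl⟩, ⟨0, by rfl⟩⟩ ⟨⟨0, by rfl⟩, ⟨1, by rfl⟩⟩
  · rfl
  · simp [rect]; ring
  · simp [rect]; ring

theorem rect_reg (a b : ℝ) : (rect a b).reg = Icc 0 a ×ˢ Icc 0 b := by
  ext x
  rw [Dat.Ok.mem_reg]
  have f0 : (rect a b).F 0 x = x.2 := by
    change det (toPt (1, 0)) (x - (0, 0)) = _
    simp [det, toPt]
  have f1 : (rect a b).F 1 x = a - x.1 := by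
    change det (toPt (0, 1)) (x - (a, 0)) = _
    simp [det, toPt]
  have f2 : (rect a b).F 2 x = b - x.2 := by
    change det (toPt (-1, 0)) (x - (a, b)) = _
    simp [det, toPt]
  have f3 : (rect a b).F 3 x = x.1 := by
    change det (toPt (0, -1)) (x - (0, b)) = _
    simp [det, toPt]
  rw [f0, f1, f2, f3]
  simp only [mem_prod, mem_Icc]
  constructor
  · rintro ⟨h1, h2, h3, h4⟩
    exact ⟨⟨h4, by linarith⟩, ⟨h1, by linarith⟩⟩
  · rintro ⟨⟨h1, h2⟩, ⟨h3, h4⟩⟩
    exact ⟨h3, by linarith, by linarith, h1⟩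

theorem inv_start {a b : ℝ} (ha : 0 < a) (hb : 0 < b) {D : Diagram} (hD : IsStart a b D) :
    Inv (2 * (a * b)) (2 * (a + b)) D := by
  obtain ⟨_, h2, h3⟩ := hD
  choose t ht hn using h3
  refine ⟨rect a b, t, Equiv.refl _, rect_ok ha hb, ht, ?_, ?_⟩
  · rw [h2, rect_reg]
  · intro j
    rw [hn]
    rfl

theorem inv_reach {a b : ℝ} (ha : 0 < a) (hb : 0 < b) {D₀ D : Diagram} (h0 : IsStart a b D₀)
    (h : Relation.ReflTransGen Step D₀ D) : Inv (2 * (a * b)) (2 * (a + b)) D := by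
  induction h with
  | refl => exact inv_start ha hb h0
  | tail _ hs ih => exact ih.step hs

end Pool.Agent.NH80.Quad
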