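import Pool.Agent.NH80.Quad.Reg

/-!
# The region as a convex hull, its interior
-/

open Set Filter Topology

namespace Pool.Agent.NH80.Quad

theorem tri {S : Set Pt} (hS : Convex ℝ S) {p q r x : Pt} (hp : p ∈ S) (hq : q ∈ S) (hr : r ∈ S)
    (h1 : 0 ≤ det (r - q) (x - q)) (h2 : 0 ≤ det (p - r) (x - r)) (h3 : 0 ≤ det (q - p) (x - p))
    (h4 : 0 < det (q - p) (r - p)) : x ∈ S := by
  have hsum : det (r - q) (x - q) + det (p - r) (x - r) + det (q - p) (x - p) =
      det (q - p) (r - p) := by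
    simp [det]; ring
  have hx : x = (det (r - q) (x - q) / det (q - p) (r - p)) • p +
      (det (p - r) (x - r) / det (q - p) (r - p)) • q +
      (det (q - p) (x - p) / det (q - p) (r - p)) • r := by
    have hne := h4.ne'
    ext
    · simp only [Prod.fst_add, Prod.smul_fst, smul_eq_mul]
      field_simp
      simp [det]; ring
    · simp only [Prod.snd_add, Prod.smul_snd, smul_eq_mul]
      field_simp
      simp [det]; ring
  have hw : ∑ i : Fin 3, (![det (r - q) (x - q) / det (q - p) (r - p),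
      det (p - r) (x - r) / det (q - p) (r - p),
      det (q - p) (x - p) / det (q - p) (r - p)] : Fin 3 → ℝ) i = 1 := by
    rw [Fin.sum_univ_three]
    simp only [Matrix.cons_val_zero, Matrix.cons_val_one, Matrix.cons_val]
    rw [← add_div, ← add_div, hsum, div_self h4.ne']
  have key := hS.sum_mem (t := Finset.univ) (w := (![det (r - q) (x - q) / det (q - p) (r - p),
      det (p - r) (x - r) / det (q - p) (r - p),
      det (q - p) (x - p) / det (q - p) (r - p)] : Fin 3 → ℝ)) (z := ![p, q, r])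
      (by
        intro i _
        fin_cases i
        · exact div_nonneg h1 h4.le
        · exact div_nonneg h2 h4.le
        · exact div_nonneg h3 h4.le)
      hw
      (by
        intro i _
        fin_cases i
        · exact hp
        · exact hq
        · exact hr)
  rw [Fin.sum_univ_three] at key
  simp only [Matrix.cons_val_zero, Matrix.cons_val_one, Matrix.cons_val] at key
  rw [hx]
  exact key

theorem Dat.reg_rot (V : Dat) (k : Fin 4) : (V.rot k).reg = V.reg := by
  ext x
  constructor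
  · intro h i
    have := h (i - k)
    simpa [Dat.F, Dat.rot] using this
  · intro h i
    exact h (i + k)

theorem Dat.convex_reg (V : Dat) : Convex ℝ V.reg := by
  intro x hx y hy a b ha hb hab i
  have h1 := hx i
  have h2 := hy i
  have : V.F i (a • x + b • y) = a * V.F i x + b * V.F i y := by
    have e : a • x + b • y - V.P i = a • (x - V.P i) + b • (y - V.P i) := by
      have : V.P i = (a + b) • V.P i := by rw [hab, one_smul]
      conv_lhs => rw [this]
      module
    rw [Dat.F, e, det_add_right, det_smul_right, det_smul_right]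
    rfl
  rw [this]
  positivity

theorem Dat.continuous_F (V : Dat) (i : Fin 4) : Continuous (V.F i) := by
  unfold Dat.F det
  fun_prop

theorem Dat.isClosed_reg (V : Dat) : IsClosed V.reg := by
  have : V.reg = ⋂ i, V.F i ⁻¹' Ici 0 := by
    ext x; simp [Dat.reg]
  rw [this]
  exact isClosed_iInter fun i => isClosed_Ici.preimage (V.continuous_F i)

theorem Dat.mem_interior (V : Dat) {x : Pt} (h : ∀ i, 0 < V.F i x) : x ∈ interior V.reg := by
  have hsub : (⋂ i, V.F i ⁻¹' Ioi 0) ⊆ V.reg := by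
    intro y hy i
    have := mem_iInter.mp hy i
    exact le_of_lt this
  have hopen : IsOpen (⋂ i, V.F i ⁻¹' Ioi 0) :=
    isOpen_iInter_of_finite fun i => isOpen_Ioi.preimage (V.continuous_F i)
  exact interior_maximal hsub hopen (mem_iInter.mpr h)

namespace Dat.Ok

variable {V : Dat} {A B : ℝ}

theorem F_pos_of_mem_interior (h : V.Ok A B) {x : Pt} (hx : x ∈ interior V.reg) (i : Fin 4) :
    0 < V.F i x := by
  have hx0 := interior_subset hx i
  rcases hx0.lt_or_eq with h0 | h0
  · exact h0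
  exfalso
  -- move in a direction in which `F i` decreases
  set w : Pt := ((V.u i).2, -(V.u i).1) with hw
  have hdet : det (toPt (V.u i)) w = -(((V.u i).1 : ℝ) ^ 2 + ((V.u i).2 : ℝ) ^ 2) := by
    simp [det, toPt, hw]; ring
  have hneg : det (toPt (V.u i)) w < 0 := by
    rw [hdet]
    have h1 : toPt (V.u i) ≠ 0 := ne_zero_of_coprime (h.prim_u i)
    have h2 : ((V.u i).1 : ℝ) ≠ 0 ∨ ((V.u i).2 : ℝ) ≠ 0 := by
      by_contra hcon
      push Not at hcon
      exact h1 (Prod.ext hcon.1 hcon.2)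
    rcases h2 with h2 | h2
    · have := pow_pos (abs_pos.mpr h2) 2
      rw [sq_abs] at this
      have := sq_nonneg ((V.u i).2 : ℝ)
      linarith
    · have := pow_pos (abs_pos.mpr h2) 2
      rw [sq_abs] at this
      have := sq_nonneg ((V.u i).1 : ℝ)
      linarith
  have hcont : Tendsto (fun t : ℝ => x + t • w) (𝓝[>] 0) (𝓝 x) := by
    have : Tendsto (fun t : ℝ => x + t • w) (𝓝 0) (𝓝 (x + (0 : ℝ) • w)) := by
      apply Continuous.tendsto
      fun_prop
    simpa using this.mono_left nhdsWithin_le_nhds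
  have h1 : ∀ᶠ t in 𝓝[>] (0 : ℝ), x + t • w ∈ V.reg := by
    have := mem_interior_iff_mem_nhds.mp hx
    exact hcont this
  have h2 : ∀ᶠ t in 𝓝[>] (0 : ℝ), 0 < t := self_mem_nhdsWithin
  obtain ⟨t, ht1, ht2⟩ := (h1.and h2).exists
  have h3 := ht1 i
  have h4 : V.F i (x + t • w) = V.F i x + t * det (toPt (V.u i)) w := by
    rw [F_sub i (x + t • w) x, add_sub_cancel_left, det_smul_right]
  rw [h4, ← h0] at h3
  have := mul_neg_of_pos_of_neg ht2 hneg
  linarith

/-! ### Values at the vertices -/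

theorem F_self (V : Dat) (i : Fin 4) : V.F i (V.P i) = 0 := by
  simp [Dat.F, det]

theorem F_next (h : V.Ok A B) (i : Fin 4) : V.F i (V.P (i + 1)) = 0 := by
  rw [Dat.F, h.step i, add_sub_cancel_left, det_smul_right, det_self, mul_zero]

theorem F_next2 (h : V.Ok A B) (i : Fin 4) :
    V.F i (V.P (i + 2)) = V.l (i + 1) * (V.d (i + 1) : ℝ) ^ 2 := by
  have e : i + 2 = i + 1 + 1 := by rw [add_assoc]; rfl
  rw [F_sub i _ (V.P (i + 1)), h.F_next, e, h.step (i + 1), add_sub_cancel_left, det_smul_right,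
    h.detR]
  ring

theorem F_prev (h : V.Ok A B) (i : Fin 4) :
    V.F (i + 1) (V.P i) = V.l i * (V.d (i + 1) : ℝ) ^ 2 := by
  have e : V.P i - V.P (i + 1) = -(V.l i • toPt (V.u i)) := by
    rw [h.step i]; module
  rw [Dat.F, e, det_neg_right, det_smul_right, det_comm, h.detR]
  ring

theorem P_mem (h : V.Ok A B) (j : Fin 4) : V.P j ∈ V.reg := by
  intro i
  have hi : i = j ∨ j = i + 1 ∨ j = i + 2 ∨ i = j + 1 := by
    revert i j; decide
  rcases hi with rfl | rfl | rfl | rfl
  · rw [F_self]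
  · rw [h.F_next]
  · rw [h.F_next2]
    have := h.l_nonneg (i + 1)
    positivity
  · rw [h.F_prev]
    have := h.l_nonneg j
    positivity

/-- **The region is the convex hull of the vertices.** -/
theorem reg_eq_hull (h : V.Ok A B) : V.reg = convexHull ℝ (range V.P) := by
  apply Subset.antisymm
  · intro x hx
    have hc : Convex ℝ (convexHull ℝ (range V.P)) := convex_convexHull ℝ _
    have hv : ∀ i, V.P i ∈ convexHull ℝ (range V.P) := fun i =>
      subset_convexHull ℝ _ (mem_range_self i)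
    have f0 := hx 0
    have f1 := hx 1
    have f2 := hx 2
    have f3 := hx 3
    have l0 := h.l_nonneg 0
    have l1 := h.l_nonneg 1
    have l2 := h.l_nonneg 2
    have l3 := h.l_nonneg 3
    have g1 : det (V.P 1 - V.P 0) (x - V.P 0) = V.l 0 * V.F 0 x := by
      rw [h.P1_eq, add_sub_cancel_left, det_smul_left]; rfl
    have g2 : det (V.P 2 - V.P 1) (x - V.P 1) = V.l 1 * V.F 1 x := by
      rw [h.P2_eq, add_sub_cancel_left, det_smul_left]; rfl
    have g3 : det (V.P 3 - V.P 2) (x - V.P 2) = V.l 2 * V.F 2 x := by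
      rw [h.P3_eq, add_sub_cancel_left, det_smul_left]; rfl
    have g4 : det (V.P 0 - V.P 3) (x - V.P 3) = V.l 3 * V.F 3 x := by
      conv_lhs => rw [h.P0_eq, add_sub_cancel_left, det_smul_left]
      rfl
    have T1 : det (V.P 1 - V.P 0) (V.P 2 - V.P 0) = V.l 0 * V.l 1 * (V.d 1 : ℝ) ^ 2 := by
      have e : V.P 2 - V.P 0 = V.l 1 • toPt (V.u 1) + V.l 0 • toPt (V.u 0) := by
        rw [h.P2_eq, h.P1_eq]; module
      have d1 : det (toPt (V.u 0)) (toPt (V.u 1)) = (V.d 1 : ℝ) ^ 2 := h.detR 0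
      rw [e, h.P1_eq, add_sub_cancel_left, det_smul_left, det_add_right, det_smul_right,
        det_smul_right, det_self, d1]
      ring
    have T2 : det (V.P 3 - V.P 2) (V.P 0 - V.P 2) = V.l 2 * V.l 3 * (V.d 3 : ℝ) ^ 2 := by
      have e : V.P 0 - V.P 2 = V.l 3 • toPt (V.u 3) + V.l 2 • toPt (V.u 2) := by
        rw [h.P0_eq, h.P3_eq]; module
      have d1 : det (toPt (V.u 2)) (toPt (V.u 3)) = (V.d 3 : ℝ) ^ 2 := h.detR 2
      rw [e, h.P3_eq, add_sub_cancel_left, det_smul_left, det_add_right, det_smul_right,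
        det_smul_right, det_self, d1]
      ring
    have hA := h.area
    have hA0 := h.A_pos
    have hT1 : 0 ≤ V.l 0 * V.l 1 * (V.d 1 : ℝ) ^ 2 := by positivity
    have hT2 : 0 ≤ V.l 2 * V.l 3 * (V.d 3 : ℝ) ^ 2 := by positivity
    have sum1 : det (V.P 2 - V.P 1) (x - V.P 1) + det (V.P 0 - V.P 2) (x - V.P 2) +
        det (V.P 1 - V.P 0) (x - V.P 0) = det (V.P 1 - V.P 0) (V.P 2 - V.P 0) := by
      simp [det]; ring
    have sum2 : det (V.P 0 - V.P 3) (x - V.P 3) + det (V.P 2 - V.P 0) (x - V.P 0) +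
        det (V.P 3 - V.P 2) (x - V.P 2) = det (V.P 3 - V.P 2) (V.P 0 - V.P 2) := by
      simp [det]; ring
    have opp : det (V.P 2 - V.P 0) (x - V.P 0) = -det (V.P 0 - V.P 2) (x - V.P 2) := by
      simp [det]; ring
    have p1 : 0 ≤ V.l 0 * V.F 0 x := mul_nonneg l0 f0
    have p2 : 0 ≤ V.l 1 * V.F 1 x := mul_nonneg l1 f1
    have p3 : 0 ≤ V.l 2 * V.F 2 x := mul_nonneg l2 f2
    have p4 : 0 ≤ V.l 3 * V.F 3 x := mul_nonneg l3 f3
    by_cases hG : 0 ≤ det (V.P 0 - V.P 2) (x - V.P 2) ∧ 0 < V.l 0 * V.l 1 * (V.d 1 : ℝ) ^ 2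
    · exact tri hc (hv 0) (hv 1) (hv 2) (by rw [g2]; exact p2) hG.1 (by rw [g1]; exact p1)
        (by rw [T1]; exact hG.2)
    · have hG' : det (V.P 0 - V.P 2) (x - V.P 2) ≤ 0 ∧ 0 < V.l 2 * V.l 3 * (V.d 3 : ℝ) ^ 2 := by
        rw [not_and_or] at hG
        rcases hG with hG | hG
        · push Not at hG
          refine ⟨hG.le, ?_⟩
          linarith
        · have e : V.l 0 * V.l 1 * (V.d 1 : ℝ) ^ 2 = 0 := le_antisymm (not_lt.mp hG) hT1
          constructor
          · linarith
          · linarith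
      exact tri hc (hv 2) (hv 3) (hv 0) (by rw [g4]; exact p4) (by rw [opp]; linarith)
        (by rw [g3]; exact p3) (by rw [T2]; exact hG'.2)
  · apply convexHull_min _ V.convex_reg
    rintro _ ⟨i, rfl⟩
    exact h.P_mem i

end Dat.Ok

end Pool.Agent.NH80.Quad
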