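import Pool.Agent.NH80.Quad.Val

/-!
# The mutation of near diagrams
-/

open Set Filter Topology

namespace Pool.Agent.NH80.Quad

/-- Signed distance to the eigenline of a node. -/
noncomputable def gd (n : Node) (x : Pt) : ℝ := det (toPt n.cut) (x - n.pos)

theorem gd_phi (n : Node) (x : Pt) : gd n (phi n x) = gd n x := by
  simp [gd, phi, mono, det, toPt]; ring

theorem phi_fixed {n : Node} {x : Pt} (h : gd n x = 0) : phi n x = x := by
  have h1 : (x - n.pos).1 * n.cut.2 - (x - n.pos).2 * n.cut.1 = 0 := by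
    have : gd n x = -((x - n.pos).1 * n.cut.2 - (x - n.pos).2 * n.cut.1) := by
      simp [gd, det, toPt]; ring
    linarith
  rw [phi, mono, h1, zero_smul]
  abel

theorem phi_injective (n : Node) : Function.Injective (phi n) := fun x y hxy => by
  have := congrArg (phiInv n) hxy
  rwa [phiInv_phi, phiInv_phi] at this

theorem pos_mem_cutSeg {D : Diagram} (hD : D.Valid) (j : Fin 4) :
    (D.node j).pos ∈ D.cutSeg j :=
  ⟨interior_subset (hD.inside j), 0, le_rfl, by simp⟩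

theorem inj_acw {D D' : Diagram} {i : Fin 4} (hD : D.Valid) (hM : AcwMutation i D D') :
    Function.Injective fun j => (D'.node j).pos := by
  obtain ⟨_, hnode, hother⟩ := hM
  set n := D.node i with hn
  have key : ∀ j, (gd n (D.node j).pos ≤ 0 ∧ (D'.node j).pos = (D.node j).pos) ∨
      (0 ≤ gd n (D.node j).pos ∧ phi n (D'.node j).pos = (D.node j).pos) := by
    intro j
    by_cases hj : j = i
    · left
      rw [hj, hnode, ← hn]
      refine ⟨?_, rfl⟩
      simp [gd, det]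
    · rcases hother j hj with ⟨h1, h2⟩ | ⟨h1, h2⟩
      · left
        exact ⟨h1 (pos_mem_cutSeg hD j), by rw [h2]⟩
      · right
        refine ⟨h1 (pos_mem_cutSeg hD j), ?_⟩
        have := congrArg Node.pos h2
        exact this
  intro j k hjk
  have hjk' : (D'.node j).pos = (D'.node k).pos := hjk
  apply hD.distinct
  change (D.node j).pos = (D.node k).pos
  rcases key j with ⟨a1, a2⟩ | ⟨a1, a2⟩ <;> rcases key k with ⟨b1, b2⟩ | ⟨b1, b2⟩
  · rw [← a2, ← b2, hjk']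
  · have g0 : gd n (D'.node j).pos = 0 := by
      apply le_antisymm
      · rwa [← a2] at a1
      · rw [← b2, gd_phi, ← hjk'] at b1
        exact b1
    rw [← a2, ← b2, ← hjk', phi_fixed g0]
  · have g0 : gd n (D'.node k).pos = 0 := by
      apply le_antisymm
      · rwa [← b2] at b1
      · rw [← a2, gd_phi, hjk'] at a1
        exact a1
    rw [← a2, ← b2, hjk', phi_fixed g0]
  · rw [← a2, ← b2, hjk']

theorem cwSide_neg (n : Node) : cwSide ⟨n.pos, -n.cut⟩ = acwSide n := by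
  ext x
  simp only [cwSide, acwSide, mem_ofPred_eq, toPt_neg, det_neg_left]
  constructor <;> intro h <;> linarith

theorem acwSide_neg (n : Node) : acwSide ⟨n.pos, -n.cut⟩ = cwSide n := by
  ext x
  simp only [cwSide, acwSide, mem_ofPred_eq, toPt_neg, det_neg_left]
  constructor <;> intro h <;> linarith

theorem phi_neg (n : Node) : phi ⟨n.pos, -n.cut⟩ = phi n := by
  funext x
  ext <;> simp [phi, mono, toPt] <;> ring

theorem imono_neg (c v : ℤ × ℤ) : imono (-c) v = imono c v := by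
  ext <;> simp [imono] <;> ring

theorem phiNode_neg (n m : Node) : phiNode ⟨n.pos, -n.cut⟩ m = phiNode n m := by
  apply Node.ext'
  · change phi ⟨n.pos, -n.cut⟩ m.pos = phi n m.pos
    rw [phi_neg]
  · exact imono_neg _ _

/-- Turning the cut back. -/
theorem cw_of_acw {D D' : Diagram} {i : Fin 4} (hM : AcwMutation i D D')
    (hj : ∀ j, j ≠ i → (D'.cutSeg j ⊆ cwSide (D.node i) ∧ D'.node j = D.node j) ∨
      (D'.cutSeg j ⊆ acwSide (D.node i) ∧ phiNode (D.node i) (D'.node j) = D.node j)) :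
    CwMutation i D' D := by
  obtain ⟨hreg, hnode, _⟩ := hM
  set n := D.node i with hn
  refine ⟨?_, ?_, ?_⟩
  · rw [hnode, cwSide_neg, acwSide_neg, phi_neg]
    have hmem : ∀ x, x ∈ D'.region ↔ (x ∈ D.region ∧ gd n x ≤ 0) ∨
        (phi n x ∈ D.region ∧ 0 ≤ gd n x) := by
      intro x
      rw [hreg]
      constructor
      · rintro (⟨h1, h2⟩ | ⟨h1, h2⟩)
        · exact Or.inl ⟨h1, h2⟩
        · right
          refine ⟨h1, ?_⟩
          have : 0 ≤ gd n (phi n x) := h2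
          rwa [gd_phi] at this
      · rintro (⟨h1, h2⟩ | ⟨h1, h2⟩)
        · exact Or.inl ⟨h1, h2⟩
        · right
          refine ⟨h1, ?_⟩
          change 0 ≤ gd n (phi n x)
          rwa [gd_phi]
    ext y
    constructor
    · intro hy
      rcases le_total (gd n y) 0 with h | h
      · right
        exact ⟨(hmem y).mpr (Or.inl ⟨hy, h⟩), h⟩
      · left
        refine ⟨phiInv n y, ⟨(hmem _).mpr (Or.inr ⟨by rwa [phi_phiInv], ?_⟩), ?_⟩, phi_phiInv n y⟩
        · rwa [← gd_phi, phi_phiInv]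
        · change 0 ≤ gd n (phiInv n y)
          rwa [← gd_phi, phi_phiInv]
    · rintro (⟨x, ⟨h1, h2⟩, rfl⟩ | ⟨h1, h2⟩)
      · have h2' : 0 ≤ gd n x := h2
        rcases (hmem x).mp h1 with ⟨h3, h4⟩ | ⟨h3, _⟩
        · rw [phi_fixed (le_antisymm h4 h2')]
          exact h3
        · exact h3
      · have h2' : gd n y ≤ 0 := h2
        rcases (hmem y).mp h1 with ⟨h3, _⟩ | ⟨h3, h4⟩
        · exact h3
        · rw [phi_fixed (le_antisymm h2' h4)] at h3
          exact h3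
  · rw [hnode, neg_neg]
  · intro j hji
    rw [hnode, cwSide_neg, acwSide_neg, phiNode_neg]
    rcases hj j hji with ⟨h1, h2⟩ | ⟨h1, h2⟩
    · right
      exact ⟨h1, h2.symm⟩
    · left
      exact ⟨h1, h2.symm⟩

/-! ### The sides of the short cuts -/

theorem Dat.s_psi (V : Dat) (x : Pt) : V.s (V.psi x) = V.s x := by
  have : V.psi x - V.P 0 = (x - V.P 0) + V.s x • toPt (V.e 0) := by
    rw [Dat.psi]; abel
  rw [Dat.s, this, det_add_right, det_smul_right, det_self, Dat.s]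
  ring

theorem Dat.phiNode_mv (V : Dat) (t : Fin 4 → ℝ) (m : Node) :
    phiNode (V.nd t 0) (V.mv m) = m := by
  apply Node.ext'
  · change phi (V.nd t 0) (V.psi m.pos) = m.pos
    rw [V.phi_nd, Dat.ph, V.s_psi, Dat.psi]
    module
  · change imono (-V.e 0) (nn (V.e 0) m.cut) = m.cut
    rw [imono_neg, imono_nn]

namespace Dat.Ok

variable {V : Dat} {A B : ℝ}

theorem sgn1 (h : V.Ok A B) {t : ℝ} (hs : V.Short 0 1 t) {r : ℝ} (hr0 : 0 ≤ r) (hr : r ≤ t) :
    V.s (V.P 1 + r • toPt (V.e 1)) ≤ 0 := by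
  have hd0 : (0 : ℝ) < V.d 0 := by exact_mod_cast h.d_pos 0
  rcases (h.l_nonneg 0).lt_or_eq with h0 | h0
  · have : V.si 0 (V.P 1) < 0 := by
      change V.s (V.P 1) < 0
      rw [h.s_P1]
      have := mul_pos h0 hd0
      linarith
    exact (hs.neg hr0 hr this).le
  · have hm : idet (V.e 0) (V.e 1) ≤ 0 := h.zero 0 h0.symm
    have hm' : (idet (V.e 0) (V.e 1) : ℝ) ≤ 0 := by exact_mod_cast hm
    have e : V.s (V.P 1 + r • toPt (V.e 1)) = V.s (V.P 1) + r * idet (V.e 0) (V.e 1) :=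
      V.si_line 0 1 r
    rw [e, h.s_P1, ← h0]
    have := mul_nonpos_of_nonneg_of_nonpos hr0 hm'
    linarith

theorem sgn3 (h : V.Ok A B) {t : ℝ} (hs : V.Short 0 3 t) {r : ℝ} (hr0 : 0 ≤ r) (hr : r ≤ t) :
    0 ≤ V.s (V.P 3 + r • toPt (V.e 3)) := by
  have hd0 : (0 : ℝ) < V.d 0 := by exact_mod_cast h.d_pos 0
  rcases (h.l_nonneg 3).lt_or_eq with h0 | h0
  · have : 0 < V.si 0 (V.P 3) := by
      change 0 < V.s (V.P 3)
      rw [h.s_P3]
      exact mul_pos h0 hd0
    exact (hs.pos hr0 hr this).le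
  · have hm : idet (V.e 3) (V.e 0) ≤ 0 := h.zero 3 h0.symm
    have hm' : (0 : ℝ) ≤ (idet (V.e 0) (V.e 3) : ℝ) := by
      rw [idet_comm] at hm
      have : 0 ≤ idet (V.e 0) (V.e 3) := by linarith
      exact_mod_cast this
    have e : V.s (V.P 3 + r • toPt (V.e 3)) = V.s (V.P 3) + r * idet (V.e 0) (V.e 3) :=
      V.si_line 0 3 r
    rw [e, h.s_P3, ← h0]
    have := mul_nonneg hr0 hm'
    linarith

theorem sgn2L (_h : V.Ok A B) (hS : 0 < V.S ∨ V.S = 0 ∧ 0 ≤ idet (V.e 0) (V.e 2)) {t : ℝ}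
    (hs : V.Short 0 2 t) {r : ℝ} (hr0 : 0 ≤ r) (hr : r ≤ t) :
    0 ≤ V.s (V.P 2 + r • toPt (V.e 2)) := by
  rcases hS with h0 | ⟨h0, h1⟩
  · exact (hs.pos hr0 hr h0).le
  · have hm' : (0 : ℝ) ≤ (idet (V.e 0) (V.e 2) : ℝ) := by exact_mod_cast h1
    have e : V.s (V.P 2 + r • toPt (V.e 2)) = V.S + r * idet (V.e 0) (V.e 2) :=
      V.si_line 0 2 r
    rw [e, h0]
    have := mul_nonneg hr0 hm'
    linarith

theorem sgn2R (_h : V.Ok A B) (hS : V.S < 0 ∨ V.S = 0 ∧ idet (V.e 0) (V.e 2) ≤ 0) {t : ℝ}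
    (hs : V.Short 0 2 t) {r : ℝ} (hr0 : 0 ≤ r) (hr : r ≤ t) :
    V.s (V.P 2 + r • toPt (V.e 2)) ≤ 0 := by
  rcases hS with h0 | ⟨h0, h1⟩
  · exact (hs.neg hr0 hr h0).le
  · have hm' : (idet (V.e 0) (V.e 2) : ℝ) ≤ 0 := by exact_mod_cast h1
    have e : V.s (V.P 2 + r • toPt (V.e 2)) = V.S + r * idet (V.e 0) (V.e 2) :=
      V.si_line 0 2 r
    rw [e, h0]
    have := mul_nonpos_of_nonneg_of_nonpos hr0 hm'
    linarith

/-- **Left mutation of a near diagram.** -/
theorem key_left (h : V.Ok A B) (hS : 0 < V.S ∨ V.S = 0 ∧ 0 ≤ idet (V.e 0) (V.e 2))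
    (τ : Equiv.Perm (Fin 4)) : ∃ t t' : Fin 4 → ℝ, (V.dg τ t).Valid ∧
      (V.mutL.dg (τ.trans (Equiv.swap 0 1)) t').Valid ∧
      CwMutation (τ.symm 0) (V.mutL.dg (τ.trans (Equiv.swap 0 1)) t') (V.dg τ t) := by
  have hS0 : 0 ≤ V.S := by
    rcases hS with h | h
    · exact h.le
    · exact h.1.ge
  have h' := h.mutL hS
  have a1 : ∀ᶠ ε in 𝓝[>] (0 : ℝ), ∀ i k, V.Short i k (cf k * ε) :=
    eventually_all.mpr fun i => eventually_all.mpr fun k => ev_short V (cf k) i k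
  have a2 : ∀ᶠ ε in 𝓝[>] (0 : ℝ), ∀ i k, 0 < V.F i (V.P k + (cf k * ε) • toPt (V.e k)) :=
    eventually_all.mpr fun i => eventually_all.mpr fun k => h.ev_inside (cf_pos k) i k
  have a3 : ∀ᶠ ε in 𝓝[>] (0 : ℝ), ∀ k i, V.mutL.Short i k (cf (Equiv.swap 0 1 k) * ε) :=
    eventually_all.mpr fun k => eventually_all.mpr fun i => ev_short V.mutL _ i k
  have a4 : ∀ᶠ ε in 𝓝[>] (0 : ℝ), ∀ k i,
      0 < V.mutL.F i (V.mutL.P k + (cf (Equiv.swap 0 1 k) * ε) • toPt (V.mutL.e k)) :=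
    eventually_all.mpr fun k => eventually_all.mpr fun i => h'.ev_inside (cf_pos _) i k
  obtain ⟨ε, hnear, a1, a2, a3, a4⟩ := (h.near.and (a1.and (a2.and (a3.and a4)))).exists
  set t : Fin 4 → ℝ := fun k => cf k * ε with ht
  set t' := V.tLeft t with ht'
  have hD := hnear τ
  set D := V.dg τ t with hDdef
  set D' := V.mutL.dg (τ.trans (Equiv.swap 0 1)) t' with hD'def
  have hni : D.node (τ.symm 0) = V.nd t 0 := by simp [hDdef, Dat.dg]
  have hDn : ∀ k, D.node (τ.symm k) = V.nd t k := fun k => by simp [hDdef, Dat.dg]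
  have hDn' : ∀ k, D'.node (τ.symm k) = V.mutL.nd t' (Equiv.swap 0 1 k) := fun k => by
    simp [hD'def, Dat.dg]
  have n0 : D'.node (τ.symm 0) = ⟨(V.nd t 0).pos, -(V.nd t 0).cut⟩ := by
    rw [hDn' 0]
    exact h.nd_left1 hS0 t
  have n1 : phiNode (V.nd t 0) (D'.node (τ.symm 1)) = D.node (τ.symm 1) := by
    rw [hDn' 1, hDn 1]
    have : V.mutL.nd t' (Equiv.swap 0 1 1) = V.mv (V.nd t 1) := V.nd_left0 t
    rw [this, V.phiNode_mv]
  have n2 : D'.node (τ.symm 2) = D.node (τ.symm 2) := by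
    rw [hDn' 2, hDn 2]
    exact V.nd_left2 t
  have n3 : D'.node (τ.symm 3) = D.node (τ.symm 3) := by
    rw [hDn' 3, hDn 3]
    exact V.nd_left3 t
  -- the cuts of `D`
  have s1 : D.cutSeg (τ.symm 1) ⊆ acwSide (D.node (τ.symm 0)) := by
    intro x hx
    obtain ⟨r, hr0, hr1, hr⟩ := h.mem_cut hx
    rw [Equiv.apply_symm_apply] at hr1 hr
    rw [hni, V.mem_acwSide, hr]
    exact h.sgn1 (a1 0 1) hr0 hr1
  have s2 : D.cutSeg (τ.symm 2) ⊆ cwSide (D.node (τ.symm 0)) := by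
    intro x hx
    obtain ⟨r, hr0, hr1, hr⟩ := h.mem_cut hx
    rw [Equiv.apply_symm_apply] at hr1 hr
    rw [hni, V.mem_cwSide, hr]
    exact h.sgn2L hS (a1 0 2) hr0 hr1
  have s3 : D.cutSeg (τ.symm 3) ⊆ cwSide (D.node (τ.symm 0)) := by
    intro x hx
    obtain ⟨r, hr0, hr1, hr⟩ := h.mem_cut hx
    rw [Equiv.apply_symm_apply] at hr1 hr
    rw [hni, V.mem_cwSide, hr]
    exact h.sgn3 (a1 0 3) hr0 hr1
  have hreg : D'.region = (D.region ∩ cwSide (D.node (τ.symm 0))) ∪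
      phi (D.node (τ.symm 0)) ⁻¹' (D.region ∩ acwSide (D.node (τ.symm 0))) := by
    rw [hni]
    change V.mutL.reg = (V.reg ∩ _) ∪ _ ⁻¹' (V.reg ∩ _)
    ext y
    rw [h.reg_mutL hS0]
    simp only [mem_union, mem_inter_iff, mem_preimage, V.mem_cwSide, V.mem_acwSide, V.phi_nd,
      V.s_ph]
    tauto
  have hex : ∀ j, ∃ k, j = τ.symm k := fun j => ⟨τ j, by simp⟩
  have hacw : AcwMutation (τ.symm 0) D D' := by
    refine ⟨hreg, ?_, ?_⟩
    · rw [n0, hni]
    · intro j hj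
      obtain ⟨k, rfl⟩ := hex j
      have key : ∀ k, k ≠ 0 →
          (D.cutSeg (τ.symm k) ⊆ cwSide (D.node (τ.symm 0)) ∧
            D'.node (τ.symm k) = D.node (τ.symm k)) ∨
          (D.cutSeg (τ.symm k) ⊆ acwSide (D.node (τ.symm 0)) ∧
            phiNode (D.node (τ.symm 0)) (D'.node (τ.symm k)) = D.node (τ.symm k)) := by
        refine forall4 (fun h => absurd rfl h) (fun _ => Or.inr ⟨s1, ?_⟩)
          (fun _ => Or.inl ⟨s2, n2⟩) (fun _ => Or.inl ⟨s3, n3⟩)
        rw [hni]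
        exact n1
      exact key k (fun hk => hj (by rw [hk]))
  have hvalid' : D'.Valid := by
    have ts : ∀ k, k ≠ 1 → t' k = cf (Equiv.swap 0 1 k) * ε := by
      refine forall4 (fun _ => ?_) (fun h => absurd rfl h) (fun _ => ?_) (fun _ => ?_) <;> rfl
    have hlong : ∀ i, 0 < V.mutL.F i (V.mutL.nd t' 1).pos := by
      have e : (V.mutL.nd t' 1).pos = (V.nd t 0).pos := by
        have := h.nd_left1 hS0 t
        rw [ht', this]
      have s0 : V.s (V.nd t 0).pos = 0 := V.si_self 0 _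
      have F := fun i => a2 i 0
      rw [e]
      refine forall4 ?_ ?_ (F 2) (F 3)
      · rw [h.mutL_F0, s0, zero_mul, add_zero]
        exact F 1
      · rw [h.mutL_F1]
        exact F 1
    refine h'.valid _ ?_ (inj_acw hD hacw) ?_
    · intro k i
      by_cases hk : k = 1
      · rw [hk]
        exact hlong i
      · have := a4 k i
        rw [← ts k hk] at this
        exact this
    · intro i k hik
      by_cases hk : k = 1
      · right
        have hi : i ≠ 1 := fun hi => hik (by rw [hi, hk])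
        rw [ts i hi]
        exact a3 i k
      · left
        rw [ts k hk]
        exact a3 k i
  refine ⟨t, t', hD, hvalid', cw_of_acw hacw ?_⟩
  intro j hj
  obtain ⟨k, rfl⟩ := hex j
  have key : ∀ k, k ≠ 0 →
      (D'.cutSeg (τ.symm k) ⊆ cwSide (D.node (τ.symm 0)) ∧
        D'.node (τ.symm k) = D.node (τ.symm k)) ∨
      (D'.cutSeg (τ.symm k) ⊆ acwSide (D.node (τ.symm 0)) ∧
        phiNode (D.node (τ.symm 0)) (D'.node (τ.symm k)) = D.node (τ.symm k)) := by
    refine forall4 (fun h => absurd rfl h) (fun _ => Or.inr ⟨?_, ?_⟩)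
      (fun _ => Or.inl ⟨?_, n2⟩) (fun _ => Or.inl ⟨?_, n3⟩)
    · intro x hx
      obtain ⟨r, hr0, hr1, hr⟩ := h'.mem_cut hx
      have e : (τ.trans (Equiv.swap 0 1)) (τ.symm 1) = 0 := by simp
      rw [e] at hr1 hr
      have e2 : V.mutL.P 0 + r • toPt (V.mutL.e 0) = V.psi (V.P 1 + r • toPt (V.e 1)) := by
        rw [V.psi_add_smul]; rfl
      rw [hni, V.mem_acwSide, hr, e2, V.s_psi]
      exact h.sgn1 (a1 0 1) hr0 hr1
    · rw [hni]
      exact n1
    · intro x hx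
      obtain ⟨r, hr0, hr1, hr⟩ := h'.mem_cut hx
      have e : (τ.trans (Equiv.swap 0 1)) (τ.symm 2) = 2 := by
        rw [Equiv.trans_apply, Equiv.apply_symm_apply]; rfl
      rw [e] at hr1 hr
      rw [hni, V.mem_cwSide, hr]
      exact h.sgn2L hS (a1 0 2) hr0 hr1
    · intro x hx
      obtain ⟨r, hr0, hr1, hr⟩ := h'.mem_cut hx
      have e : (τ.trans (Equiv.swap 0 1)) (τ.symm 3) = 3 := by
        rw [Equiv.trans_apply, Equiv.apply_symm_apply]; rfl
      rw [e] at hr1 hr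
      rw [hni, V.mem_cwSide, hr]
      exact h.sgn3 (a1 0 3) hr0 hr1
  exact key k (fun hk => hj (by rw [hk]))

/-- **Right mutation of a near diagram.** -/
theorem key_right (h : V.Ok A B) (hS : V.S < 0 ∨ V.S = 0 ∧ idet (V.e 0) (V.e 2) ≤ 0)
    (τ : Equiv.Perm (Fin 4)) : ∃ t t' : Fin 4 → ℝ, (V.dg τ t).Valid ∧
      (V.mutR.dg (τ.trans cyc) t').Valid ∧
      CwMutation (τ.symm 0) (V.mutR.dg (τ.trans cyc) t') (V.dg τ t) := by
  have hS0 : V.S ≤ 0 := by
    rcases hS with h | h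
    · exact h.le
    · exact h.1.le
  have h' := h.mutR hS
  have a1 : ∀ᶠ ε in 𝓝[>] (0 : ℝ), ∀ i k, V.Short i k (cf k * ε) :=
    eventually_all.mpr fun i => eventually_all.mpr fun k => ev_short V (cf k) i k
  have a2 : ∀ᶠ ε in 𝓝[>] (0 : ℝ), ∀ i k, 0 < V.F i (V.P k + (cf k * ε) • toPt (V.e k)) :=
    eventually_all.mpr fun i => eventually_all.mpr fun k => h.ev_inside (cf_pos k) i k
  have a3 : ∀ᶠ ε in 𝓝[>] (0 : ℝ), ∀ k i, V.mutR.Short i k (cf (cyc.symm k) * ε) :=
    eventually_all.mpr fun k => eventually_all.mpr fun i => ev_short V.mutR _ i k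
  have a4 : ∀ᶠ ε in 𝓝[>] (0 : ℝ), ∀ k i,
      0 < V.mutR.F i (V.mutR.P k + (cf (cyc.symm k) * ε) • toPt (V.mutR.e k)) :=
    eventually_all.mpr fun k => eventually_all.mpr fun i => h'.ev_inside (cf_pos _) i k
  obtain ⟨ε, hnear, a1, a2, a3, a4⟩ := (h.near.and (a1.and (a2.and (a3.and a4)))).exists
  set t : Fin 4 → ℝ := fun k => cf k * ε with ht
  set t' := V.tRight t with ht'
  have hD := hnear τ
  set D := V.dg τ t with hDdef
  set D' := V.mutR.dg (τ.trans cyc) t' with hD'def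
  have hni : D.node (τ.symm 0) = V.nd t 0 := by simp [hDdef, Dat.dg]
  have hDn : ∀ k, D.node (τ.symm k) = V.nd t k := fun k => by simp [hDdef, Dat.dg]
  have hDn' : ∀ k, D'.node (τ.symm k) = V.mutR.nd t' (cyc k) := fun k => by
    simp [hD'def, Dat.dg]
  have n0 : D'.node (τ.symm 0) = ⟨(V.nd t 0).pos, -(V.nd t 0).cut⟩ := by
    rw [hDn' 0]
    exact h.nd_right2 hS0 t
  have n1 : phiNode (V.nd t 0) (D'.node (τ.symm 1)) = D.node (τ.symm 1) := by
    rw [hDn' 1, hDn 1]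
    have : V.mutR.nd t' (cyc 1) = V.mv (V.nd t 1) := V.nd_right0 t
    rw [this, V.phiNode_mv]
  have n2 : phiNode (V.nd t 0) (D'.node (τ.symm 2)) = D.node (τ.symm 2) := by
    rw [hDn' 2, hDn 2]
    have : V.mutR.nd t' (cyc 2) = V.mv (V.nd t 2) := V.nd_right1 t
    rw [this, V.phiNode_mv]
  have n3 : D'.node (τ.symm 3) = D.node (τ.symm 3) := by
    rw [hDn' 3, hDn 3]
    exact V.nd_right3 t
  -- the cuts of `D`
  have s1 : D.cutSeg (τ.symm 1) ⊆ acwSide (D.node (τ.symm 0)) := by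
    intro x hx
    obtain ⟨r, hr0, hr1, hr⟩ := h.mem_cut hx
    rw [Equiv.apply_symm_apply] at hr1 hr
    rw [hni, V.mem_acwSide, hr]
    exact h.sgn1 (a1 0 1) hr0 hr1
  have s2 : D.cutSeg (τ.symm 2) ⊆ acwSide (D.node (τ.symm 0)) := by
    intro x hx
    obtain ⟨r, hr0, hr1, hr⟩ := h.mem_cut hx
    rw [Equiv.apply_symm_apply] at hr1 hr
    rw [hni, V.mem_acwSide, hr]
    exact h.sgn2R hS (a1 0 2) hr0 hr1
  have s3 : D.cutSeg (τ.symm 3) ⊆ cwSide (D.node (τ.symm 0)) := by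
    intro x hx
    obtain ⟨r, hr0, hr1, hr⟩ := h.mem_cut hx
    rw [Equiv.apply_symm_apply] at hr1 hr
    rw [hni, V.mem_cwSide, hr]
    exact h.sgn3 (a1 0 3) hr0 hr1
  have hreg : D'.region = (D.region ∩ cwSide (D.node (τ.symm 0))) ∪
      phi (D.node (τ.symm 0)) ⁻¹' (D.region ∩ acwSide (D.node (τ.symm 0))) := by
    rw [hni]
    change V.mutR.reg = (V.reg ∩ _) ∪ _ ⁻¹' (V.reg ∩ _)
    ext y
    rw [h.reg_mutR hS0]
    simp only [mem_union, mem_inter_iff, mem_preimage, V.mem_cwSide, V.mem_acwSide, V.phi_nd,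
      V.s_ph]
    tauto
  have hex : ∀ j, ∃ k, j = τ.symm k := fun j => ⟨τ j, by simp⟩
  have hacw : AcwMutation (τ.symm 0) D D' := by
    refine ⟨hreg, ?_, ?_⟩
    · rw [n0, hni]
    · intro j hj
      obtain ⟨k, rfl⟩ := hex j
      have key : ∀ k, k ≠ 0 →
          (D.cutSeg (τ.symm k) ⊆ cwSide (D.node (τ.symm 0)) ∧
            D'.node (τ.symm k) = D.node (τ.symm k)) ∨
          (D.cutSeg (τ.symm k) ⊆ acwSide (D.node (τ.symm 0)) ∧
            phiNode (D.node (τ.symm 0)) (D'.node (τ.symm k)) = D.node (τ.symm k)) := by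
        refine forall4 (fun h => absurd rfl h) (fun _ => Or.inr ⟨s1, ?_⟩)
          (fun _ => Or.inr ⟨s2, ?_⟩) (fun _ => Or.inl ⟨s3, n3⟩)
        · rw [hni]
          exact n1
        · rw [hni]
          exact n2
      exact key k (fun hk => hj (by rw [hk]))
  have hvalid' : D'.Valid := by
    have ts : ∀ k, k ≠ 2 → t' k = cf (cyc.symm k) * ε := by
      refine forall4 (fun _ => ?_) (fun _ => ?_) (fun h => absurd rfl h) (fun _ => ?_) <;> rfl
    have hlong : ∀ i, 0 < V.mutR.F i (V.mutR.nd t' 2).pos := by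
      have e : (V.mutR.nd t' 2).pos = (V.nd t 0).pos := by
        have := h.nd_right2 hS0 t
        rw [ht', this]
      have s0 : V.s (V.nd t 0).pos = 0 := V.si_self 0 _
      have F := fun i => a2 i 0
      rw [e]
      refine forall4 ?_ ?_ ?_ (F 3)
      · rw [h.mutR_F0, s0, zero_mul, add_zero]
        exact F 1
      · rw [h.mutR_F1, s0, zero_mul, add_zero]
        exact F 2
      · rw [h.mutR_F2]
        exact F 2
    refine h'.valid _ ?_ (inj_acw hD hacw) ?_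
    · intro k i
      by_cases hk : k = 2
      · rw [hk]
        exact hlong i
      · have := a4 k i
        rw [← ts k hk] at this
        exact this
    · intro i k hik
      by_cases hk : k = 2
      · right
        have hi : i ≠ 2 := fun hi => hik (by rw [hi, hk])
        rw [ts i hi]
        exact a3 i k
      · left
        rw [ts k hk]
        exact a3 k i
  refine ⟨t, t', hD, hvalid', cw_of_acw hacw ?_⟩
  intro j hj
  obtain ⟨k, rfl⟩ := hex j
  have key : ∀ k, k ≠ 0 →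
      (D'.cutSeg (τ.symm k) ⊆ cwSide (D.node (τ.symm 0)) ∧
        D'.node (τ.symm k) = D.node (τ.symm k)) ∨
      (D'.cutSeg (τ.symm k) ⊆ acwSide (D.node (τ.symm 0)) ∧
        phiNode (D.node (τ.symm 0)) (D'.node (τ.symm k)) = D.node (τ.symm k)) := by
    refine forall4 (fun h => absurd rfl h) (fun _ => Or.inr ⟨?_, ?_⟩)
      (fun _ => Or.inr ⟨?_, ?_⟩) (fun _ => Or.inl ⟨?_, n3⟩)
    · intro x hx
      obtain ⟨r, hr0, hr1, hr⟩ := h'.mem_cut hx
      have e : (τ.trans cyc) (τ.symm 1) = 0 := by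
        rw [Equiv.trans_apply, Equiv.apply_symm_apply]; rfl
      rw [e] at hr1 hr
      have e2 : V.mutR.P 0 + r • toPt (V.mutR.e 0) = V.psi (V.P 1 + r • toPt (V.e 1)) := by
        rw [V.psi_add_smul]; rfl
      rw [hni, V.mem_acwSide, hr, e2, V.s_psi]
      exact h.sgn1 (a1 0 1) hr0 hr1
    · rw [hni]
      exact n1
    · intro x hx
      obtain ⟨r, hr0, hr1, hr⟩ := h'.mem_cut hx
      have e : (τ.trans cyc) (τ.symm 2) = 1 := by
        rw [Equiv.trans_apply, Equiv.apply_symm_apply]; rfl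
      rw [e] at hr1 hr
      have e2 : V.mutR.P 1 + r • toPt (V.mutR.e 1) = V.psi (V.P 2 + r • toPt (V.e 2)) := by
        rw [V.psi_add_smul]; rfl
      rw [hni, V.mem_acwSide, hr, e2, V.s_psi]
      exact h.sgn2R hS (a1 0 2) hr0 hr1
    · rw [hni]
      exact n2
    · intro x hx
      obtain ⟨r, hr0, hr1, hr⟩ := h'.mem_cut hx
      have e : (τ.trans cyc) (τ.symm 3) = 3 := by
        rw [Equiv.trans_apply, Equiv.apply_symm_apply]; rfl
      rw [e] at hr1 hr
      rw [hni, V.mem_cwSide, hr]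
      exact h.sgn3 (a1 0 3) hr0 hr1
  exact key k (fun hk => hj (by rw [hk]))

end Dat.Ok

end Pool.Agent.NH80.Quad
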