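import Pool.Agent.NH80.Quad.Hull

/-!
# Integral affine maps acting on the data
-/

open Set

namespace Pool.Agent.NH80.Quad

/-- Action of an integer matrix on integer row vectors. -/
def iact (M : Matrix (Fin 2) (Fin 2) ℤ) (v : ℤ × ℤ) : ℤ × ℤ :=
  (v.1 * M 0 0 + v.2 * M 1 0, v.1 * M 0 1 + v.2 * M 1 1)

/-- Action of an integer matrix on real row vectors. -/
def ract (M : Matrix (Fin 2) (Fin 2) ℤ) (v : Pt) : Pt :=
  (v.1 * M 0 0 + v.2 * M 1 0, v.1 * M 0 1 + v.2 * M 1 1)

theorem affMap_eq (M : Matrix (Fin 2) (Fin 2) ℤ) (c v : Pt) : affMap M c v = ract M v + c := by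
  ext <;> simp [affMap, ract]

theorem ract_add (M : Matrix (Fin 2) (Fin 2) ℤ) (v w : Pt) :
    ract M (v + w) = ract M v + ract M w := by
  ext <;> simp [ract] <;> ring
theorem ract_sub (M : Matrix (Fin 2) (Fin 2) ℤ) (v w : Pt) :
    ract M (v - w) = ract M v - ract M w := by
  ext <;> simp [ract] <;> ring
theorem ract_smul (M : Matrix (Fin 2) (Fin 2) ℤ) (k : ℝ) (v : Pt) :
    ract M (k • v) = k • ract M v := by
  ext <;> simp [ract] <;> ring
theorem ract_neg (M : Matrix (Fin 2) (Fin 2) ℤ) (v : Pt) :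
    ract M (-v) = -ract M v := by
  ext <;> simp [ract] <;> ring
theorem toPt_iact (M : Matrix (Fin 2) (Fin 2) ℤ) (v : ℤ × ℤ) :
    toPt (iact M v) = ract M (toPt v) := by
  simp [ract, iact, toPt]
theorem iact_sub (M : Matrix (Fin 2) (Fin 2) ℤ) (v w : ℤ × ℤ) :
    iact M (v - w) = iact M v - iact M w := by
  ext <;> simp [iact] <;> ring
theorem iact_smul (M : Matrix (Fin 2) (Fin 2) ℤ) (k : ℤ) (v : ℤ × ℤ) :
    iact M (k • v) = k • iact M v := by
  ext <;> simp [iact] <;> ring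
theorem iact_neg (M : Matrix (Fin 2) (Fin 2) ℤ) (v : ℤ × ℤ) :
    iact M (-v) = -iact M v := by
  ext <;> simp [iact] <;> ring

theorem idet_iact (M : Matrix (Fin 2) (Fin 2) ℤ) (v w : ℤ × ℤ) :
    idet (iact M v) (iact M w) = M.det * idet v w := by
  simp [iact, idet, Matrix.det_fin_two]; ring

theorem det_ract (M : Matrix (Fin 2) (Fin 2) ℤ) (v w : Pt) :
    det (ract M v) (ract M w) = M.det * det v w := by
  simp [ract, det, Matrix.det_fin_two]; ring

theorem coprime_iact {M : Matrix (Fin 2) (Fin 2) ℤ} (hM : M.det = 1 ∨ M.det = -1) {v : ℤ × ℤ}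
    (hv : IsCoprime v.1 v.2) : IsCoprime (iact M v).1 (iact M v).2 := by
  rw [Matrix.det_fin_two] at hM
  rcases hM with hM | hM
  · have := coprime_lin (p := M 0 0) (q := M 0 1) (r := M 1 0) (s := M 1 1) hM hv
    have e1 : (iact M v).1 = M 0 0 * v.1 + M 1 0 * v.2 := by simp [iact]; ring
    have e2 : (iact M v).2 = M 0 1 * v.1 + M 1 1 * v.2 := by simp [iact]; ring
    rw [e1, e2]
    exact this
  · have := coprime_lin (p := M 0 1) (q := M 0 0) (r := M 1 1) (s := M 1 0) (by linarith) hv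
    have e1 : (iact M v).1 = M 0 0 * v.1 + M 1 0 * v.2 := by simp [iact]; ring
    have e2 : (iact M v).2 = M 0 1 * v.1 + M 1 1 * v.2 := by simp [iact]; ring
    rw [e1, e2]
    exact this.symm

theorem affMap_sub (M : Matrix (Fin 2) (Fin 2) ℤ) (c x y : Pt) :
    affMap M c x - affMap M c y = ract M (x - y) := by
  rw [affMap_eq, affMap_eq, ract_sub]; abel

theorem affMap_add_smul (M : Matrix (Fin 2) (Fin 2) ℤ) (c x v : Pt) (k : ℝ) :
    affMap M c (x + k • v) = affMap M c x + k • ract M v := by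
  rw [affMap_eq, affMap_eq, ract_add, ract_smul]; abel

/-- The inverse matrix, for determinant `±1`. -/
def inv' (M : Matrix (Fin 2) (Fin 2) ℤ) : Matrix (Fin 2) (Fin 2) ℤ :=
  !![M.det * M 1 1, -(M.det * M 0 1); -(M.det * M 1 0), M.det * M 0 0]

theorem inv'_det {M : Matrix (Fin 2) (Fin 2) ℤ} (hM : M.det * M.det = 1) :
    (inv' M).det = M.det := by
  have e : (inv' M).det = (M.det * M.det) * (M 0 0 * M 1 1 - M 0 1 * M 1 0) := by
    rw [Matrix.det_fin_two (inv' M)]
    simp [inv']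
    ring
  rw [e, hM, one_mul, ← Matrix.det_fin_two]

theorem ract_inv' {M : Matrix (Fin 2) (Fin 2) ℤ} (hM : M.det * M.det = 1) (v : Pt) :
    ract (inv' M) (ract M v) = v := by
  have h : (M.det : ℝ) * ((M 0 0 : ℝ) * M 1 1 - M 0 1 * M 1 0) = 1 := by
    have h2 : M.det * (M 0 0 * M 1 1 - M 0 1 * M 1 0) = 1 := by
      rw [← Matrix.det_fin_two, hM]
    exact_mod_cast h2
  ext
  · simp only [ract, inv', Matrix.of_apply, Matrix.cons_val', Matrix.cons_val_zero,
      Matrix.cons_val_fin_one, Matrix.cons_val_one, Int.cast_mul, Int.cast_neg]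
    linear_combination v.1 * h
  · simp only [ract, inv', Matrix.of_apply, Matrix.cons_val', Matrix.cons_val_zero,
      Matrix.cons_val_fin_one, Matrix.cons_val_one, Int.cast_mul, Int.cast_neg]
    linear_combination v.2 * h

theorem ract_inv'' {M : Matrix (Fin 2) (Fin 2) ℤ} (hM : M.det * M.det = 1) (v : Pt) :
    ract M (ract (inv' M) v) = v := by
  have h : (M.det : ℝ) * ((M 0 0 : ℝ) * M 1 1 - M 0 1 * M 1 0) = 1 := by
    have h2 : M.det * (M 0 0 * M 1 1 - M 0 1 * M 1 0) = 1 := by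
      rw [← Matrix.det_fin_two, hM]
    exact_mod_cast h2
  ext
  · simp only [ract, inv', Matrix.of_apply, Matrix.cons_val', Matrix.cons_val_zero,
      Matrix.cons_val_fin_one, Matrix.cons_val_one, Int.cast_mul, Int.cast_neg]
    linear_combination v.1 * h
  · simp only [ract, inv', Matrix.of_apply, Matrix.cons_val', Matrix.cons_val_zero,
      Matrix.cons_val_fin_one, Matrix.cons_val_one, Int.cast_mul, Int.cast_neg]
    linear_combination v.2 * h

theorem affMap_surj {M : Matrix (Fin 2) (Fin 2) ℤ} (hM : M.det * M.det = 1) (c y : Pt) :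
    ∃ x, affMap M c x = y := by
  refine ⟨ract (inv' M) (y - c), ?_⟩
  rw [affMap_eq, ract_inv'' hM]
  abel

theorem AffEquiv.symm {Q Q' : Set Pt} (h : AffEquiv Q Q') : AffEquiv Q' Q := by
  obtain ⟨M, c, hM, rfl⟩ := h
  have hM2 : M.det * M.det = 1 := by
    rcases Int.isUnit_iff.mp hM with h | h <;> rw [h] <;> norm_num
  refine ⟨inv' M, -ract (inv' M) c, ?_, ?_⟩
  · rw [inv'_det hM2]; exact hM
  · rw [image_image]
    have : ∀ x, affMap (inv' M) (-ract (inv' M) c) (affMap M c x) = x := by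
      intro x
      rw [affMap_eq, affMap_eq, ract_add, ract_inv' hM2]
      abel
    simp only [this, image_id']

/-! ### Orientation preserving maps -/

/-- The image of the data under an integral affine map. -/
def Dat.map (V : Dat) (M : Matrix (Fin 2) (Fin 2) ℤ) (c : Pt) : Dat where
  P i := affMap M c (V.P i)
  l := V.l
  u i := iact M (V.u i)
  e i := iact M (V.e i)
  d := V.d

theorem par_iact (M : Matrix (Fin 2) (Fin 2) ℤ) {v w : ℤ × ℤ}
    (h : (2 : ℤ) ∣ v.1 - w.1 ∧ (2 : ℤ) ∣ v.2 - w.2) :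
    (2 : ℤ) ∣ (iact M v).1 - (iact M w).1 ∧ (2 : ℤ) ∣ (iact M v).2 - (iact M w).2 := by
  obtain ⟨⟨a, ha⟩, ⟨b, hb⟩⟩ := h
  refine ⟨⟨a * M 0 0 + b * M 1 0, ?_⟩, ⟨a * M 0 1 + b * M 1 1, ?_⟩⟩
  · simp only [iact]
    linear_combination M 0 0 * ha + M 1 0 * hb
  · simp only [iact]
    linear_combination M 0 1 * ha + M 1 1 * hb

theorem Dat.Ok.map {V : Dat} {A B : ℝ} (h : V.Ok A B) {M : Matrix (Fin 2) (Fin 2) ℤ}
    (hM : M.det = 1) (c : Pt) : (V.map M c).Ok A B where
  l_nonneg := h.l_nonneg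
  step i := by
    change affMap M c (V.P (i + 1)) = affMap M c (V.P i) + V.l i • toPt (iact M (V.u i))
    rw [h.step i, affMap_add_smul, toPt_iact]
  prim_u i := coprime_iact (Or.inl hM) (h.prim_u i)
  prim_e i := coprime_iact (Or.inl hM) (h.prim_e i)
  d_pos := h.d_pos
  diff i := by
    change iact M (V.u (i + 1)) - iact M (V.u i) = V.d (i + 1) • iact M (V.e (i + 1))
    rw [← iact_sub, h.diff, iact_smul]
  det_e i := by
    change idet (iact M (V.u i)) (iact M (V.e (i + 1))) = V.d (i + 1)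
    rw [idet_iact, hM, one_mul, h.det_e]
  zero i hi := by
    change idet (iact M (V.e i)) (iact M (V.e (i + 1))) ≤ 0
    rw [idet_iact, hM, one_mul]
    exact h.zero i hi
  parity i := par_iact M (h.parity i)
  markov := by
    have e : ∀ i, (V.map M c).m i = V.m i := by
      intro i
      change idet (iact M (V.e i)) (iact M (V.e (i + 1))) = _
      rw [idet_iact, hM, one_mul]
      rfl
    rw [e, e, e, e]
    exact h.markov
  area := h.area
  perim := h.perim
  A_pos := h.A_pos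

theorem Dat.F_map (V : Dat) {M : Matrix (Fin 2) (Fin 2) ℤ} (hM : M.det = 1) (c x : Pt)
    (i : Fin 4) : (V.map M c).F i (affMap M c x) = V.F i x := by
  change det (toPt (iact M (V.u i))) (affMap M c x - affMap M c (V.P i)) = _
  rw [toPt_iact, affMap_sub, det_ract, hM, Int.cast_one, one_mul]
  rfl

theorem Dat.reg_map (V : Dat) {M : Matrix (Fin 2) (Fin 2) ℤ} (hM : M.det = 1) (c : Pt) :
    (V.map M c).reg = affMap M c '' V.reg := by
  ext y
  constructor
  · intro hy
    obtain ⟨x, rfl⟩ := affMap_surj (M := M) (by rw [hM]; norm_num) c y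
    refine ⟨x, fun i => ?_, rfl⟩
    have := hy i
    rwa [V.F_map hM] at this
  · rintro ⟨x, hx, rfl⟩ i
    rw [V.F_map hM]
    exact hx i

/-! ### Orientation reversing maps -/

/-- The image of the data under an orientation reversing integral affine map. -/
def Dat.ref (V : Dat) (M : Matrix (Fin 2) (Fin 2) ℤ) (c : Pt) : Dat where
  P := ![affMap M c (V.P 0), affMap M c (V.P 3), affMap M c (V.P 2), affMap M c (V.P 1)]
  l := ![V.l 3, V.l 2, V.l 1, V.l 0]
  u := ![-iact M (V.u 3), -iact M (V.u 2), -iact M (V.u 1), -iact M (V.u 0)]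
  e := ![iact M (V.e 0), iact M (V.e 3), iact M (V.e 2), iact M (V.e 1)]
  d := ![V.d 0, V.d 3, V.d 2, V.d 1]

theorem Dat.Ok.ref {V : Dat} {A B : ℝ} (h : V.Ok A B) {M : Matrix (Fin 2) (Fin 2) ℤ}
    (hM : M.det = -1) (c : Pt) : (V.ref M c).Ok A B := by
  have st : ∀ (x y : Pt) (l : ℝ) (u : ℤ × ℤ), x = y + l • toPt u →
      affMap M c y = affMap M c x + l • toPt (-iact M u) := by
    intro x y l u hx
    rw [hx, affMap_add_smul, toPt_neg, toPt_iact]
    module
  have pr : ∀ u : ℤ × ℤ, IsCoprime u.1 u.2 → IsCoprime (-iact M u).1 (-iact M u).2 :=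
    fun u hu => coprime_neg (coprime_iact (Or.inr hM) hu)
  have pr' : ∀ u : ℤ × ℤ, IsCoprime u.1 u.2 → IsCoprime (iact M u).1 (iact M u).2 :=
    fun u hu => coprime_iact (Or.inr hM) hu
  have df : ∀ (x y e : ℤ × ℤ) (d : ℤ), x - y = d • e → -iact M y - -iact M x = d • iact M e := by
    intro x y e d hd
    rw [← iact_smul, ← hd, iact_sub]
    abel
  have dt : ∀ (u e : ℤ × ℤ) (d : ℤ), idet u e = d → idet (-iact M u) (iact M e) = d := by
    intro u e d hd
    rw [idet_neg_left, idet_iact, hM, hd]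
    ring
  have mm : ∀ e f : ℤ × ℤ, idet (iact M e) (iact M f) = idet f e := by
    intro e f
    rw [idet_iact, hM, idet_comm f e]
    ring
  refine ⟨?_, ?_, ?_, ?_, ?_, ?_, ?_, ?_, ?_, ?_, ?_, ?_, h.A_pos⟩
  · exact forall4 (h.l_nonneg 3) (h.l_nonneg 2) (h.l_nonneg 1) (h.l_nonneg 0)
  · exact forall4 (st _ _ _ _ h.P0_eq) (st _ _ _ _ h.P3_eq) (st _ _ _ _ h.P2_eq)
      (st _ _ _ _ h.P1_eq)
  · exact forall4 (pr _ (h.prim_u 3)) (pr _ (h.prim_u 2)) (pr _ (h.prim_u 1)) (pr _ (h.prim_u 0))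
  · exact forall4 (pr' _ (h.prim_e 0)) (pr' _ (h.prim_e 3)) (pr' _ (h.prim_e 2))
      (pr' _ (h.prim_e 1))
  · exact forall4 (h.d_pos 0) (h.d_pos 3) (h.d_pos 2) (h.d_pos 1)
  · exact forall4 (df _ _ _ _ (h.diff 2)) (df _ _ _ _ (h.diff 1)) (df _ _ _ _ (h.diff 0))
      (df _ _ _ _ (h.diff 3))
  · exact forall4 (dt _ _ _ (h.det_e' 2)) (dt _ _ _ (h.det_e' 1)) (dt _ _ _ (h.det_e' 0))
      (dt _ _ _ (h.det_e' 3))
  · refine forall4 ?_ ?_ ?_ ?_
    · intro h0
      change idet (iact M (V.e 0)) (iact M (V.e 3)) ≤ 0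
      rw [mm]
      exact h.zero 3 h0
    · intro h0
      change idet (iact M (V.e 3)) (iact M (V.e 2)) ≤ 0
      rw [mm]
      exact h.zero 2 h0
    · intro h0
      change idet (iact M (V.e 2)) (iact M (V.e 1)) ≤ 0
      rw [mm]
      exact h.zero 1 h0
    · intro h0
      change idet (iact M (V.e 1)) (iact M (V.e 0)) ≤ 0
      rw [mm]
      exact h.zero 0 h0
  · exact forall4 (par_iact M (h.par 3 0)) (par_iact M (h.par 2 3)) (par_iact M (h.par 1 2))
      (par_iact M (h.par 0 1))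
  · have g := h.markov
    have m0 : (V.ref M c).m 0 = V.m 3 := mm _ _
    have m1 : (V.ref M c).m 1 = V.m 2 := mm _ _
    have m2 : (V.ref M c).m 2 = V.m 1 := mm _ _
    have m3 : (V.ref M c).m 3 = V.m 0 := mm _ _
    rw [m0, m1, m2, m3]
    change V.m 3 * V.d 2 * V.d 1 + V.m 2 * V.d 1 * V.d 0 + V.m 1 * V.d 0 * V.d 3 +
      V.m 0 * V.d 3 * V.d 2 = 8 * V.d 0 * V.d 3 * V.d 2 * V.d 1
    linear_combination g
  · have g := h.area1
    change V.l 3 * V.l 2 * (V.d 3 : ℝ) ^ 2 + V.l 1 * V.l 0 * (V.d 1 : ℝ) ^ 2 = A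
    have g := h.area
    linarith
  · have g := h.perim
    change V.l 3 + V.l 2 + V.l 1 + V.l 0 = B
    linarith

theorem Dat.Ok.reg_ref {V : Dat} {A B : ℝ} (h : V.Ok A B) {M : Matrix (Fin 2) (Fin 2) ℤ}
    (hM : M.det = -1) (c : Pt) : (V.ref M c).reg = affMap M c '' V.reg := by
  have hM2 : M.det * M.det = 1 := by rw [hM]; norm_num
  have key : ∀ (x y : Pt) (l : ℝ) (u : ℤ × ℤ), x = y + l • toPt u → ∀ z : Pt,
      det (toPt (-iact M u)) (affMap M c z - affMap M c x) = det (toPt u) (z - y) := by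
    intro x y l u hx z
    rw [affMap_sub, toPt_neg, toPt_iact, det_neg_left, det_ract, hM]
    have e : z - x = (z - y) - l • toPt u := by rw [hx]; abel
    rw [e, det_sub_right, det_smul_right, det_self]
    push_cast
    ring
  have iff : ∀ x, affMap M c x ∈ (V.ref M c).reg ↔ x ∈ V.reg := by
    intro x
    rw [mem_reg, mem_reg]
    have k0 : (V.ref M c).F 0 (affMap M c x) = V.F 3 x := key _ _ _ _ h.P0_eq x
    have k1 : (V.ref M c).F 1 (affMap M c x) = V.F 2 x := key _ _ _ _ h.P3_eq x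
    have k2 : (V.ref M c).F 2 (affMap M c x) = V.F 1 x := key _ _ _ _ h.P2_eq x
    have k3 : (V.ref M c).F 3 (affMap M c x) = V.F 0 x := key _ _ _ _ h.P1_eq x
    rw [k0, k1, k2, k3]
    tauto
  ext y
  constructor
  · intro hy
    obtain ⟨x, rfl⟩ := affMap_surj hM2 c y
    exact ⟨x, (iff x).mp hy, rfl⟩
  · rintro ⟨x, hx, rfl⟩
    exact (iff x).mpr hx

end Pool.Agent.NH80.Quad
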