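import Pool.Agent.NH80.Quad.Virt

/-!
# Mutation of the data at the corner `0`
-/

open Set

namespace Pool.Agent.NH80.Quad

theorem forall4 {p : Fin 4 → Prop} (h0 : p 0) (h1 : p 1) (h2 : p 2) (h3 : p 3) : ∀ i, p i := by
  intro i
  fin_cases i
  · exact h0
  · exact h1
  · exact h2
  · exact h3

theorem toPt_nn (e v : ℤ × ℤ) : toPt (nn e v) = toPt v + (idet e v : ℝ) • toPt e := by
  have : (idet e v : ℝ) = -(idet v e : ℝ) := by rw [idet_comm]; push_cast; ring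
  rw [nn, toPt_sub, toPt_smul, this]
  module

/-- The affine map with linear part the inverse monodromy fixing `P₀`. -/
noncomputable def Dat.psi (V : Dat) (x : Pt) : Pt := x + V.s x • toPt (V.e 0)

/-- The length of the cut off part of edge `1`. -/
noncomputable def Dat.tL (V : Dat) : ℝ := V.l 0 * V.d 0 / V.dp

/-- The length of the cut off part of edge `2`. -/
noncomputable def Dat.tR (V : Dat) : ℝ := V.l 3 * V.d 0 / V.dm

/-- Left mutation (the eigenline leaves through edge `1`). -/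
noncomputable def Dat.mutL (V : Dat) : Dat where
  P := ![V.psi (V.P 1), V.P 1 + V.tL • toPt (V.u 1), V.P 2, V.P 3]
  l := ![V.tL, V.l 1 - V.tL, V.l 2, V.l 3 + V.l 0]
  u := ![nn (V.e 0) (V.u 1), V.u 1, V.u 2, V.u 3]
  e := ![nn (V.e 0) (V.e 1), -V.e 0, V.e 2, V.e 3]
  d := ![V.d 1, V.dp, V.d 2, V.d 3]

/-- Right mutation (the eigenline leaves through edge `2`). -/
noncomputable def Dat.mutR (V : Dat) : Dat where
  P := ![V.psi (V.P 1), V.psi (V.P 2), V.P 3 - V.tR • toPt (V.u 2), V.P 3]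
  l := ![V.l 1, V.l 2 - V.tR, V.tR, V.l 3 + V.l 0]
  u := ![nn (V.e 0) (V.u 1), nn (V.e 0) (V.u 2), V.u 2, V.u 3]
  e := ![nn (V.e 0) (V.e 1), nn (V.e 0) (V.e 2), -V.e 0, V.e 3]
  d := ![V.d 1, V.d 2, V.dm, V.d 3]

theorem even_nn {e v : ℤ × ℤ} (h : (2 : ℤ) ∣ v.1 - e.1 ∧ (2 : ℤ) ∣ v.2 - e.2) :
    (2 : ℤ) ∣ idet v e := by
  obtain ⟨⟨a, ha⟩, ⟨b, hb⟩⟩ := h
  refine ⟨a * e.2 - b * e.1, ?_⟩
  simp only [idet]
  have h1 : v.1 = e.1 + 2 * a := by linarith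
  have h2 : v.2 = e.2 + 2 * b := by linarith
  rw [h1, h2]; ring

namespace Dat.Ok

variable {V : Dat} {A B : ℝ}

theorem par (h : V.Ok A B) (i j : Fin 4) :
    (2 : ℤ) ∣ (V.e i).1 - (V.e j).1 ∧ (2 : ℤ) ∣ (V.e i).2 - (V.e j).2 := by
  have key : ∀ i, (2 : ℤ) ∣ (V.e i).1 - (V.e 0).1 ∧ (2 : ℤ) ∣ (V.e i).2 - (V.e 0).2 := by
    have h0 : (2 : ℤ) ∣ (V.e 1).1 - (V.e 0).1 ∧ (2 : ℤ) ∣ (V.e 1).2 - (V.e 0).2 := h.parity 0
    have h1 : (2 : ℤ) ∣ (V.e 2).1 - (V.e 1).1 ∧ (2 : ℤ) ∣ (V.e 2).2 - (V.e 1).2 := h.parity 1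
    have h2 : (2 : ℤ) ∣ (V.e 3).1 - (V.e 2).1 ∧ (2 : ℤ) ∣ (V.e 3).2 - (V.e 2).2 := h.parity 2
    refine forall4 (by simp) h0 ?_ ?_
    · constructor <;> omega
    · constructor <;> omega
  have hi := key i
  have hj := key j
  constructor <;> omega

theorem even_det (h : V.Ok A B) (i j : Fin 4) : (2 : ℤ) ∣ idet (V.e i) (V.e j) :=
  even_nn (h.par i j)

theorem tL_mul (h : V.Ok A B) (hS : 0 ≤ V.S) : V.tL * V.dp = V.l 0 * V.d 0 := by
  have : (0 : ℝ) < V.dp := by exact_mod_cast h.dp_pos hS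
  rw [Dat.tL]
  field_simp

theorem tL_pos (h : V.Ok A B) (hS : 0 ≤ V.S) : 0 < V.tL := by
  have h1 : (0 : ℝ) < V.dp := by exact_mod_cast h.dp_pos hS
  have h2 : (0 : ℝ) < V.d 0 := by exact_mod_cast h.d_pos 0
  exact div_pos (mul_pos (h.l0_pos hS) h2) h1

/-- `(l₁ - t) δ⁺ = S`. -/
theorem l1_sub (h : V.Ok A B) (hS : 0 ≤ V.S) : (V.l 1 - V.tL) * V.dp = V.S := by
  rw [sub_mul, h.tL_mul hS, h.S_eq]

theorem tL_le (h : V.Ok A B) (hS : 0 ≤ V.S) : V.tL ≤ V.l 1 := by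
  have h1 : (0 : ℝ) < V.dp := by exact_mod_cast h.dp_pos hS
  have := h.l1_sub hS
  by_contra hcon
  push Not at hcon
  have : (V.l 1 - V.tL) * V.dp < 0 := mul_neg_of_neg_of_pos (by linarith) h1
  linarith

theorem tR_mul (h : V.Ok A B) (hS : V.S ≤ 0) : V.tR * V.dm = V.l 3 * V.d 0 := by
  have : (0 : ℝ) < V.dm := by exact_mod_cast h.dm_pos hS
  rw [Dat.tR]
  field_simp

theorem tR_pos (h : V.Ok A B) (hS : V.S ≤ 0) : 0 < V.tR := by
  have h1 : (0 : ℝ) < V.dm := by exact_mod_cast h.dm_pos hS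
  have h2 : (0 : ℝ) < V.d 0 := by exact_mod_cast h.d_pos 0
  exact div_pos (mul_pos (h.l3_pos hS) h2) h1

/-- `(l₂ - t) δ⁻ = -S`. -/
theorem l2_sub (h : V.Ok A B) (hS : V.S ≤ 0) : (V.l 2 - V.tR) * V.dm = -V.S := by
  rw [sub_mul, h.tR_mul hS, h.S_eq']
  ring

theorem tR_le (h : V.Ok A B) (hS : V.S ≤ 0) : V.tR ≤ V.l 2 := by
  have h1 : (0 : ℝ) < V.dm := by exact_mod_cast h.dm_pos hS
  have := h.l2_sub hS
  by_contra hcon
  push Not at hcon
  have : (V.l 2 - V.tR) * V.dm < 0 := mul_neg_of_neg_of_pos (by linarith) h1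
  linarith

theorem psi_P1 (h : V.Ok A B) : V.psi (V.P 1) = V.P 1 - (V.l 0 * V.d 0) • toPt (V.e 0) := by
  rw [Dat.psi, h.s_P1]
  module

theorem toPt_u0 (h : V.Ok A B) : toPt (V.u 0) = toPt (V.u 3) + (V.d 0 : ℝ) • toPt (V.e 0) := by
  rw [h.u0_eq, toPt_add, toPt_smul]

theorem psi_P1' (h : V.Ok A B) : V.psi (V.P 1) = V.P 0 + V.l 0 • toPt (V.u 3) := by
  rw [h.psi_P1, h.P1_eq, h.toPt_u0]
  module

theorem area_id (h : V.Ok A B) :
    V.d 0 * V.S = V.l 1 * (V.d 1 : ℝ) ^ 2 - V.l 2 * (V.d 3 : ℝ) ^ 2 := by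
  have hc := h.closing
  have k := congrArg (fun x => det (toPt (V.u 3)) x) hc
  simp only [det_add_right, det_smul_right, det_toPt] at k
  have k0 : idet (V.u 3) (V.u 0) = V.d 0 ^ 2 := h.det_u 3
  have k1 : idet (V.u 3) (V.u 1) = V.d 1 ^ 2 - V.d 0 * V.dp := by
    have e : V.u 3 = V.u 0 - V.d 0 • V.e 0 := by rw [h.u0_eq]; abel
    have : idet (V.u 0) (V.u 1) = V.d 1 ^ 2 := h.det_u 0
    rw [e, idet_sub_left, this, idet_smul_left]
    rfl
  have k2 : idet (V.u 3) (V.u 2) = -V.d 3 ^ 2 := by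
    have : idet (V.u 2) (V.u 3) = V.d 3 ^ 2 := h.det_u 2
    rw [idet_comm, this]
  rw [k0, k1, k2, idet_self] at k
  rw [h.S_eq]
  simp only [det, Prod.fst_zero, Prod.snd_zero, mul_zero, sub_zero] at k
  push_cast at k
  linear_combination -k

theorem area_id2 (h : V.Ok A B) :
    V.l 0 * V.d 0 * V.dm = (V.l 3 + V.l 0) * (V.d 3 : ℝ) ^ 2 - V.l 1 * (V.d 2 : ℝ) ^ 2 := by
  have hc := h.closing
  have k := congrArg (fun x => det (toPt (V.u 2)) x) hc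
  simp only [det_add_right, det_smul_right, det_toPt] at k
  have k0 : idet (V.u 2) (V.u 0) = V.d 3 ^ 2 - V.d 0 * V.dm := by
    have e : V.u 0 = V.u 3 + V.d 0 • V.e 0 := h.u0_eq
    have : idet (V.u 2) (V.u 3) = V.d 3 ^ 2 := h.det_u 2
    rw [e, idet_add_right, this, idet_smul_right, idet_comm (V.u 2) (V.e 0)]
    simp only [Dat.dm]
    ring
  have k1 : idet (V.u 2) (V.u 1) = -V.d 2 ^ 2 := by
    have : idet (V.u 1) (V.u 2) = V.d 2 ^ 2 := h.det_u 1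
    rw [idet_comm, this]
  have k3 : idet (V.u 2) (V.u 3) = V.d 3 ^ 2 := h.det_u 2
  rw [k0, k1, k3, idet_self] at k
  simp only [det, Prod.fst_zero, Prod.snd_zero, mul_zero, sub_zero] at k
  push_cast at k
  linear_combination -k

/-- **Left mutation.** -/
theorem mutL (h : V.Ok A B) (hS : 0 < V.S ∨ V.S = 0 ∧ 0 ≤ idet (V.e 0) (V.e 2)) :
    V.mutL.Ok A B := by
  have hS0 : 0 ≤ V.S := by
    rcases hS with h | h
    · exact h.le
    · exact h.1.ge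
  have ht := h.tL_mul hS0
  have ht0 := h.tL_pos hS0
  have ht1 := h.tL_le hS0
  have hdp := h.dp_pos hS0
  have hdpR : (0 : ℝ) < V.dp := by exact_mod_cast hdp
  have hl0 := h.l0_pos hS0
  refine ⟨?_, ?_, ?_, ?_, ?_, ?_, ?_, ?_, ?_, ?_, ?_, ?_, h.A_pos⟩
  · refine forall4 ht0.le ?_ (h.l_nonneg 2) ?_
    · change 0 ≤ V.l 1 - V.tL
      linarith
    · change 0 ≤ V.l 3 + V.l 0
      have := h.l_nonneg 3
      linarith
  · refine forall4 ?_ ?_ ?_ ?_
    · change V.P 1 + V.tL • toPt (V.u 1) = V.psi (V.P 1) + V.tL • toPt (nn (V.e 0) (V.u 1))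
      rw [h.psi_P1, toPt_nn, ← ht]
      simp only [Dat.dp]
      module
    · change V.P 2 = V.P 1 + V.tL • toPt (V.u 1) + (V.l 1 - V.tL) • toPt (V.u 1)
      rw [h.P2_eq]
      module
    · exact h.P3_eq
    · change V.psi (V.P 1) = V.P 3 + (V.l 3 + V.l 0) • toPt (V.u 3)
      rw [h.psi_P1', h.P0_eq]
      module
  · exact forall4 (coprime_nn _ (h.prim_u 1)) (h.prim_u 1) (h.prim_u 2) (h.prim_u 3)
  · exact forall4 (coprime_nn _ (h.prim_e 1)) (coprime_neg (h.prim_e 0)) (h.prim_e 2) (h.prim_e 3)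
  · exact forall4 (h.d_pos 1) hdp (h.d_pos 2) (h.d_pos 3)
  · refine forall4 ?_ ?_ ?_ ?_
    · change V.u 1 - nn (V.e 0) (V.u 1) = V.dp • (-V.e 0)
      rw [nn, Dat.dp, idet_comm (V.e 0)]
      module
    · exact h.diff 1
    · exact h.diff 2
    · change nn (V.e 0) (V.u 1) - V.u 3 = V.d 1 • nn (V.e 0) (V.e 1)
      have h3 : V.u 3 = nn (V.e 0) (V.u 0) := by
        rw [nn]
        have : idet (V.u 0) (V.e 0) = V.d 0 := h.det_e' 3
        rw [this, h.u0_eq]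
        abel
      have h4 : V.u 1 - V.u 0 = V.d 1 • V.e 1 := h.diff 0
      rw [h3, ← nn_sub, h4, nn_smul]
  · refine forall4 ?_ ?_ ?_ ?_
    · change idet (nn (V.e 0) (V.u 1)) (-V.e 0) = V.dp
      rw [idet_neg_right, idet_nn_self, Dat.dp, idet_comm (V.e 0)]
    · exact h.det_e 1
    · exact h.det_e 2
    · change idet (V.u 3) (nn (V.e 0) (V.e 1)) = V.d 1
      have h3 : V.u 3 = nn (V.e 0) (V.u 0) := by
        rw [nn]
        have : idet (V.u 0) (V.e 0) = V.d 0 := h.det_e' 3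
        rw [this, h.u0_eq]
        abel
      rw [h3, idet_nn_nn]
      exact h.det_e 0
  · refine forall4 ?_ ?_ ?_ ?_
    · intro h0
      exact absurd h0 ht0.ne'
    · intro h0
      change V.l 1 - V.tL = 0 at h0
      change idet (-V.e 0) (V.e 2) ≤ 0
      have := h.l1_sub hS0
      rw [h0, zero_mul] at this
      rcases hS with h1 | h1
      · exact absurd this h1.ne
      · rw [idet_neg_left]
        linarith [h1.2]
    · exact h.zero 2
    · intro h0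
      change V.l 3 + V.l 0 = 0 at h0
      have := h.l_nonneg 3
      linarith
  · have k10 := h.par 1 0
    have k20 := h.par 2 0
    have k32 := h.par 3 2
    have ev : (2 : ℤ) ∣ idet (V.e 1) (V.e 0) := h.even_det 1 0
    have q : (2 : ℤ) ∣ (nn (V.e 0) (V.e 1)).1 - (V.e 0).1 ∧
        (2 : ℤ) ∣ (nn (V.e 0) (V.e 1)).2 - (V.e 0).2 := by
      obtain ⟨c, hc⟩ := ev
      rw [nn, hc]
      obtain ⟨⟨a, ha⟩, ⟨b, hb⟩⟩ := k10
      refine ⟨⟨a - c * (V.e 0).1, ?_⟩, ⟨b - c * (V.e 0).2, ?_⟩⟩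
      · simp only [Prod.fst_sub, Prod.smul_fst, smul_eq_mul]
        linear_combination ha
      · simp only [Prod.snd_sub, Prod.smul_snd, smul_eq_mul]
        linear_combination hb
    have k30 := h.par 3 0
    refine forall4 ?_ ?_ ?_ ?_
    · change (2 : ℤ) ∣ -(V.e 0).1 - (nn (V.e 0) (V.e 1)).1 ∧
        (2 : ℤ) ∣ -(V.e 0).2 - (nn (V.e 0) (V.e 1)).2
      constructor <;> omega
    · change (2 : ℤ) ∣ (V.e 2).1 - -(V.e 0).1 ∧ (2 : ℤ) ∣ (V.e 2).2 - -(V.e 0).2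
      constructor <;> omega
    · exact k32
    · change (2 : ℤ) ∣ (nn (V.e 0) (V.e 1)).1 - (V.e 3).1 ∧
        (2 : ℤ) ∣ (nn (V.e 0) (V.e 1)).2 - (V.e 3).2
      constructor <;> omega
  · -- the Markov type equation
    have g := h.markov
    have s0 := h.star0
    have s1 := h.star1
    have hd := h.delta_plus
    change idet (nn (V.e 0) (V.e 1)) (-V.e 0) * V.d 2 * V.d 3 +
      idet (-V.e 0) (V.e 2) * V.d 3 * V.d 1 + V.m 2 * V.d 1 * V.dp +
      idet (V.e 3) (nn (V.e 0) (V.e 1)) * V.dp * V.d 2 = 8 * V.d 1 * V.dp * V.d 2 * V.d 3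
    have e1 : idet (nn (V.e 0) (V.e 1)) (-V.e 0) = V.m 0 := by
      rw [idet_neg_right, idet_nn_self, ← idet_comm]
      rfl
    have e2 : idet (-V.e 0) (V.e 2) = idet (V.e 2) (V.e 0) := by
      rw [idet_neg_left, ← idet_comm]
    have e3 : idet (V.e 3) (nn (V.e 0) (V.e 1)) = -idet (V.e 1) (V.e 3) + V.m 0 * V.m 3 := by
      have q1 : idet (V.e 1) (V.e 0) = -V.m 0 := by rw [idet_comm]; rfl
      have q3 : idet (V.e 3) (V.e 0) = V.m 3 := rfl
      rw [nn, idet_sub_right, idet_smul_right, q1, q3, idet_comm (V.e 3) (V.e 1)]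
      ring
    rw [e1, e2, e3]
    have hdp' : V.dp = V.m 0 * V.d 1 - V.d 0 := hd
    have hd0 : V.d 0 ≠ 0 := (h.d_pos 0).ne'
    apply mul_left_cancel₀ hd0
    rw [hdp']
    linear_combination (V.m 0 * V.d 1 - V.d 0) * g - (V.m 0 * V.d 1 - V.d 0) * V.d 2 * s0 +
      V.d 0 * V.d 3 * s1
  · -- the area
    have ha := h.area
    have hi := h.area_id
    change V.tL * (V.l 1 - V.tL) * (V.dp : ℝ) ^ 2 + V.l 2 * (V.l 3 + V.l 0) * (V.d 3 : ℝ) ^ 2 = A
    have h1 := h.l1_sub hS0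
    have : V.tL * (V.l 1 - V.tL) * (V.dp : ℝ) ^ 2 = (V.l 0 * V.d 0) * V.S := by
      rw [← h1, ← ht]; ring
    rw [this]
    linear_combination ha + V.l 0 * hi
  · have hp := h.perim
    change V.tL + (V.l 1 - V.tL) + V.l 2 + (V.l 3 + V.l 0) = B
    linarith

/-- **Right mutation.** -/
theorem mutR (h : V.Ok A B) (hS : V.S < 0 ∨ V.S = 0 ∧ idet (V.e 0) (V.e 2) ≤ 0) :
    V.mutR.Ok A B := by
  have hS0 : V.S ≤ 0 := by
    rcases hS with h | h
    · exact h.le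
    · exact h.1.le
  have ht := h.tR_mul hS0
  have ht0 := h.tR_pos hS0
  have ht1 := h.tR_le hS0
  have hdm := h.dm_pos hS0
  have hdmR : (0 : ℝ) < V.dm := by exact_mod_cast hdm
  have hl3 := h.l3_pos hS0
  have hu3 : V.u 3 = nn (V.e 0) (V.u 0) := by
    rw [nn]
    have : idet (V.u 0) (V.e 0) = V.d 0 := h.det_e' 3
    rw [this, h.u0_eq]
    abel
  have hpsi2 : V.psi (V.P 2) = V.P 2 + V.S • toPt (V.e 0) := rfl
  refine ⟨?_, ?_, ?_, ?_, ?_, ?_, ?_, ?_, ?_, ?_, ?_, ?_, h.A_pos⟩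
  · refine forall4 (h.l_nonneg 1) ?_ ht0.le ?_
    · change 0 ≤ V.l 2 - V.tR
      linarith
    · change 0 ≤ V.l 3 + V.l 0
      have := h.l_nonneg 0
      linarith
  · refine forall4 ?_ ?_ ?_ ?_
    · change V.psi (V.P 2) = V.psi (V.P 1) + V.l 1 • toPt (nn (V.e 0) (V.u 1))
      rw [h.psi_P1, toPt_nn, hpsi2, h.S_eq, h.P2_eq]
      simp only [Dat.dp]
      module
    · change V.P 3 - V.tR • toPt (V.u 2) =
        V.psi (V.P 2) + (V.l 2 - V.tR) • toPt (nn (V.e 0) (V.u 2))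
      have := h.l2_sub hS0
      rw [hpsi2, toPt_nn, h.P3_eq, smul_add, smul_smul]
      have e : (V.l 2 - V.tR) * (idet (V.e 0) (V.u 2) : ℝ) = -V.S := this
      rw [e]
      module
    · change V.P 3 = V.P 3 - V.tR • toPt (V.u 2) + V.tR • toPt (V.u 2)
      module
    · change V.psi (V.P 1) = V.P 3 + (V.l 3 + V.l 0) • toPt (V.u 3)
      rw [h.psi_P1', h.P0_eq]
      module
  · exact forall4 (coprime_nn _ (h.prim_u 1)) (coprime_nn _ (h.prim_u 2)) (h.prim_u 2)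
      (h.prim_u 3)
  · exact forall4 (coprime_nn _ (h.prim_e 1)) (coprime_nn _ (h.prim_e 2))
      (coprime_neg (h.prim_e 0)) (h.prim_e 3)
  · exact forall4 (h.d_pos 1) (h.d_pos 2) hdm (h.d_pos 3)
  · refine forall4 ?_ ?_ ?_ ?_
    · change nn (V.e 0) (V.u 2) - nn (V.e 0) (V.u 1) = V.d 2 • nn (V.e 0) (V.e 2)
      have h4 : V.u 2 - V.u 1 = V.d 2 • V.e 2 := h.diff 1
      rw [← nn_sub, h4, nn_smul]
    · change V.u 2 - nn (V.e 0) (V.u 2) = V.dm • (-V.e 0)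
      rw [nn, Dat.dm, idet_comm (V.e 0)]
      module
    · exact h.diff 2
    · change nn (V.e 0) (V.u 1) - V.u 3 = V.d 1 • nn (V.e 0) (V.e 1)
      have h4 : V.u 1 - V.u 0 = V.d 1 • V.e 1 := h.diff 0
      rw [hu3, ← nn_sub, h4, nn_smul]
  · refine forall4 ?_ ?_ ?_ ?_
    · change idet (nn (V.e 0) (V.u 1)) (nn (V.e 0) (V.e 2)) = V.d 2
      rw [idet_nn_nn]
      exact h.det_e 1
    · change idet (nn (V.e 0) (V.u 2)) (-V.e 0) = V.dm
      rw [idet_neg_right, idet_nn_self, Dat.dm, idet_comm (V.e 0)]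
    · exact h.det_e 2
    · change idet (V.u 3) (nn (V.e 0) (V.e 1)) = V.d 1
      rw [hu3, idet_nn_nn]
      exact h.det_e 0
  · refine forall4 ?_ ?_ ?_ ?_
    · intro h0
      change idet (nn (V.e 0) (V.e 1)) (nn (V.e 0) (V.e 2)) ≤ 0
      rw [idet_nn_nn]
      exact h.zero 1 h0
    · intro h0
      change V.l 2 - V.tR = 0 at h0
      change idet (nn (V.e 0) (V.e 2)) (-V.e 0) ≤ 0
      have := h.l2_sub hS0
      rw [h0, zero_mul] at this
      rcases hS with h1 | h1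
      · exact absurd this (by linarith)
      · rw [idet_neg_right, idet_nn_self, ← idet_comm]
        exact h1.2
    · intro h0
      exact absurd h0 ht0.ne'
    · intro h0
      change V.l 3 + V.l 0 = 0 at h0
      have := h.l_nonneg 0
      linarith
  · have k10 := h.par 1 0
    have k20 := h.par 2 0
    have k30 := h.par 3 0
    have q : ∀ j, (2 : ℤ) ∣ (nn (V.e 0) (V.e j)).1 - (V.e 0).1 ∧
        (2 : ℤ) ∣ (nn (V.e 0) (V.e j)).2 - (V.e 0).2 := by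
      intro j
      obtain ⟨c, hc⟩ := h.even_det j 0
      rw [nn, hc]
      obtain ⟨⟨a, ha⟩, ⟨b, hb⟩⟩ := h.par j 0
      refine ⟨⟨a - c * (V.e 0).1, ?_⟩, ⟨b - c * (V.e 0).2, ?_⟩⟩
      · simp only [Prod.fst_sub, Prod.smul_fst, smul_eq_mul]
        linear_combination ha
      · simp only [Prod.snd_sub, Prod.smul_snd, smul_eq_mul]
        linear_combination hb
    have q1 := q 1
    have q2 := q 2
    refine forall4 ?_ ?_ ?_ ?_
    · change (2 : ℤ) ∣ (nn (V.e 0) (V.e 2)).1 - (nn (V.e 0) (V.e 1)).1 ∧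
        (2 : ℤ) ∣ (nn (V.e 0) (V.e 2)).2 - (nn (V.e 0) (V.e 1)).2
      constructor <;> omega
    · change (2 : ℤ) ∣ -(V.e 0).1 - (nn (V.e 0) (V.e 2)).1 ∧
        (2 : ℤ) ∣ -(V.e 0).2 - (nn (V.e 0) (V.e 2)).2
      constructor <;> omega
    · change (2 : ℤ) ∣ (V.e 3).1 - -(V.e 0).1 ∧ (2 : ℤ) ∣ (V.e 3).2 - -(V.e 0).2
      constructor <;> omega
    · change (2 : ℤ) ∣ (nn (V.e 0) (V.e 1)).1 - (V.e 3).1 ∧
        (2 : ℤ) ∣ (nn (V.e 0) (V.e 1)).2 - (V.e 3).2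
      constructor <;> omega
  · -- the Markov type equation
    have g := h.markov
    have s0 := h.star0
    have s3 := h.star3
    have hd := h.delta_minus
    change idet (nn (V.e 0) (V.e 1)) (nn (V.e 0) (V.e 2)) * V.dm * V.d 3 +
      idet (nn (V.e 0) (V.e 2)) (-V.e 0) * V.d 3 * V.d 1 +
      idet (-V.e 0) (V.e 3) * V.d 1 * V.d 2 +
      idet (V.e 3) (nn (V.e 0) (V.e 1)) * V.d 2 * V.dm = 8 * V.d 1 * V.d 2 * V.dm * V.d 3
    have e1 : idet (nn (V.e 0) (V.e 1)) (nn (V.e 0) (V.e 2)) = V.m 1 := by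
      rw [idet_nn_nn]; rfl
    have e2 : idet (nn (V.e 0) (V.e 2)) (-V.e 0) = idet (V.e 0) (V.e 2) := by
      rw [idet_neg_right, idet_nn_self, ← idet_comm]
    have e3 : idet (-V.e 0) (V.e 3) = V.m 3 := by
      rw [idet_neg_left, ← idet_comm]; rfl
    have e4 : idet (V.e 3) (nn (V.e 0) (V.e 1)) = -idet (V.e 1) (V.e 3) + V.m 0 * V.m 3 := by
      have q1 : idet (V.e 1) (V.e 0) = -V.m 0 := by rw [idet_comm]; rfl
      have q3 : idet (V.e 3) (V.e 0) = V.m 3 := rfl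
      rw [nn, idet_sub_right, idet_smul_right, q1, q3, idet_comm (V.e 3) (V.e 1)]
      ring
    rw [e1, e2, e3, e4]
    have hdm' : V.dm = V.m 3 * V.d 3 - V.d 0 := hd
    have hd0 : V.d 0 ≠ 0 := (h.d_pos 0).ne'
    apply mul_left_cancel₀ hd0
    rw [hdm']
    linear_combination (V.m 3 * V.d 3 - V.d 0) * g - (V.m 3 * V.d 3 - V.d 0) * V.d 2 * s0 +
      V.d 0 * V.d 1 * s3
  · -- the area
    have ha := h.area1
    have hi := h.area_id2
    change V.l 1 * (V.l 2 - V.tR) * (V.d 2 : ℝ) ^ 2 + V.tR * (V.l 3 + V.l 0) * (V.d 3 : ℝ) ^ 2 = A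
    linear_combination ha - V.tR * hi + V.l 0 * V.d 0 * ht
  · have hp := h.perim
    change V.l 1 + (V.l 2 - V.tR) + V.tR + (V.l 3 + V.l 0) = B
    linarith

end Dat.Ok

end Pool.Agent.NH80.Quad
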