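import Pool.Agent.NH80.Quad.Mut

/-!
# The region of the data and its mutation
-/

open Set

namespace Pool.Agent.NH80.Quad

/-- The affine functional of the edge `i`. -/
noncomputable def Dat.F (V : Dat) (i : Fin 4) (x : Pt) : ℝ := det (toPt (V.u i)) (x - V.P i)

/-- The region. -/
def Dat.reg (V : Dat) : Set Pt := {x | ∀ i, 0 ≤ V.F i x}

/-- The map `φ` of the corner `0`. -/
noncomputable def Dat.ph (V : Dat) (x : Pt) : Pt := x - V.s x • toPt (V.e 0)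

theorem Dat.s_ph (V : Dat) (x : Pt) : V.s (V.ph x) = V.s x := by
  rw [Dat.ph, Dat.s, sub_right_comm, det_sub_right, det_smul_right, det_self]
  rw [Dat.s]; ring

theorem Dat.F_ph (V : Dat) (i : Fin 4) (x : Pt) :
    V.F i (V.ph x) = V.F i x - V.s x * idet (V.u i) (V.e 0) := by
  rw [Dat.ph, Dat.F, sub_right_comm, det_sub_right, det_smul_right, det_toPt]
  rfl

namespace Dat.Ok

variable {V : Dat} {A B : ℝ}

theorem F_sub (i : Fin 4) (x y : Pt) : V.F i x = V.F i y + det (toPt (V.u i)) (x - y) := by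
  simp only [Dat.F, det]
  simp
  ring

theorem detR (h : V.Ok A B) (i : Fin 4) :
    det (toPt (V.u i)) (toPt (V.u (i + 1))) = (V.d (i + 1) : ℝ) ^ 2 := by
  rw [det_toPt, h.det_u]; push_cast; rfl

theorem F3_eq (h : V.Ok A B) (x : Pt) : V.F 3 x = det (toPt (V.u 3)) (x - V.P 0) := by
  have e : x - V.P 3 = (x - V.P 0) + V.l 3 • toPt (V.u 3) := by
    rw [h.P0_eq]; module
  rw [Dat.F, e, det_add_right, det_smul_right, det_self]
  ring

theorem F1_eq (h : V.Ok A B) (x : Pt) :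
    V.F 1 x = det (toPt (V.u 1)) (x - V.P 0) + V.l 0 * (V.d 1 : ℝ) ^ 2 := by
  have e : x - V.P 1 = (x - V.P 0) - V.l 0 • toPt (V.u 0) := by
    rw [h.P1_eq]; module
  have d1 : det (toPt (V.u 0)) (toPt (V.u 1)) = (V.d 1 : ℝ) ^ 2 := h.detR 0
  rw [Dat.F, e, det_sub_right, det_smul_right, det_comm (toPt (V.u 1)) (toPt (V.u 0)), d1]
  ring

theorem F2_eq (h : V.Ok A B) (x : Pt) :
    V.F 2 x = det (toPt (V.u 2)) (x - V.P 0) + V.l 3 * (V.d 3 : ℝ) ^ 2 := by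
  have e : x - V.P 2 = (x - V.P 0) + V.l 3 • toPt (V.u 3) + V.l 2 • toPt (V.u 2) := by
    rw [h.P0_eq, h.P3_eq]; module
  have d3 : det (toPt (V.u 2)) (toPt (V.u 3)) = (V.d 3 : ℝ) ^ 2 := h.detR 2
  rw [Dat.F, e, det_add_right, det_smul_right, det_self, det_add_right, det_smul_right, d3]
  ring

theorem F0_eq (h : V.Ok A B) (x : Pt) : V.F 0 x = V.F 3 x + V.s x * V.d 0 := by
  rw [h.F3_eq, Dat.F, h.toPt_u0, det_add_left, det_smul_left, Dat.s]
  ring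

theorem u0_e0 (h : V.Ok A B) : idet (V.u 0) (V.e 0) = V.d 0 := h.det_e' 3
theorem u3_e0 (h : V.Ok A B) : idet (V.u 3) (V.e 0) = V.d 0 := h.det_e 3
theorem u1_e0 (_h : V.Ok A B) : idet (V.u 1) (V.e 0) = -V.dp := by rw [idet_comm]; rfl
theorem u2_e0 (_h : V.Ok A B) : idet (V.u 2) (V.e 0) = -V.dm := by rw [idet_comm]; rfl

theorem F0_ph (h : V.Ok A B) (x : Pt) : V.F 0 (V.ph x) = V.F 3 x := by
  rw [V.F_ph, h.u0_e0, h.F0_eq]; ring
theorem F1_ph (h : V.Ok A B) (x : Pt) : V.F 1 (V.ph x) = V.F 1 x + V.s x * V.dp := by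
  rw [V.F_ph, h.u1_e0]; push_cast; ring
theorem F2_ph (h : V.Ok A B) (x : Pt) : V.F 2 (V.ph x) = V.F 2 x + V.s x * V.dm := by
  rw [V.F_ph, h.u2_e0]; push_cast; ring
theorem F3_ph (h : V.Ok A B) (x : Pt) : V.F 3 (V.ph x) = V.F 3 x - V.s x * V.d 0 := by
  rw [V.F_ph, h.u3_e0]

/-- Identity used on the moved side in the left case. -/
theorem J1 (h : V.Ok A B) (x : Pt) :
    V.F 2 x * (V.l 0 * (V.d 1 : ℝ) ^ 2 * V.d 0) =
      V.d 0 * V.l 3 * (V.d 3 : ℝ) ^ 2 * V.F 1 x -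
      (V.d 2 : ℝ) ^ 2 * V.l 1 * (V.d 1 : ℝ) ^ 2 * V.s x + (V.d 2 : ℝ) ^ 2 * V.S * V.F 0 x := by
  rw [h.F1_eq, h.F2_eq, h.S_eq]
  have q : V.F 0 x = det (toPt (V.u 0)) (x - V.P 0) := rfl
  have qs : V.s x = det (toPt (V.e 0)) (x - V.P 0) := rfl
  rw [q, qs]
  set v := x - V.P 0
  have d1 : det (toPt (V.u 0)) (toPt (V.u 1)) = (V.d 1 : ℝ) ^ 2 := h.detR 0
  have d2 : det (toPt (V.u 1)) (toPt (V.u 2)) = (V.d 2 : ℝ) ^ 2 := h.detR 1
  have d3 : det (toPt (V.u 2)) (toPt (V.u 3)) = (V.d 3 : ℝ) ^ 2 := h.detR 2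
  have c1 := congrArg (fun w => det w v) (det_cramer (toPt (V.e 0)) (toPt (V.u 0)) (toPt (V.u 1)))
  have c2 := congrArg (fun w => det w v) (det_cramer (toPt (V.u 0)) (toPt (V.u 1)) (toPt (V.u 2)))
  have c3 := congrArg (fun w => det (toPt (V.u 2)) w) h.closing
  have e0 : det (toPt (V.e 0)) (toPt (V.u 0)) = -(V.d 0 : ℝ) := by
    rw [det_toPt, h.e0_u0]; push_cast; ring
  have e1 : det (toPt (V.u 1)) (toPt (V.e 0)) = -(V.dp : ℝ) := by
    rw [det_toPt, h.u1_e0]; push_cast; ring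
  simp only [det_add_left, det_smul_left, d1, e0, e1, d2] at c1 c2
  simp only [det_add_right, det_smul_right, det_self, d3,
    det_comm (toPt (V.u 2)) (toPt (V.u 1)), d2] at c3
  have z1 : det 0 v = 0 := by simp [det]
  have z2 : det (toPt (V.u 2)) 0 = 0 := by simp [det]
  rw [z1] at c1 c2
  rw [z2] at c3
  linear_combination (V.d 2 : ℝ) ^ 2 * V.l 1 * c1 + V.d 0 * V.l 0 * c2 -
    V.d 0 * det (toPt (V.u 1)) v * c3

/-- Identity used on the fixed side in the right case. -/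
theorem J3 (h : V.Ok A B) (x : Pt) :
    V.F 1 x * (V.l 3 * (V.d 3 : ℝ) ^ 2 * V.d 0) =
      V.d 0 * V.l 0 * (V.d 1 : ℝ) ^ 2 * V.F 2 x +
      (V.d 2 : ℝ) ^ 2 * V.l 2 * (V.d 3 : ℝ) ^ 2 * V.s x - (V.d 2 : ℝ) ^ 2 * V.S * V.F 3 x := by
  rw [h.F1_eq, h.F2_eq, h.S_eq', h.F3_eq]
  have qs : V.s x = det (toPt (V.e 0)) (x - V.P 0) := rfl
  rw [qs]
  set v := x - V.P 0
  have d1 : det (toPt (V.u 0)) (toPt (V.u 1)) = (V.d 1 : ℝ) ^ 2 := h.detR 0
  have d2 : det (toPt (V.u 1)) (toPt (V.u 2)) = (V.d 2 : ℝ) ^ 2 := h.detR 1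
  have d3 : det (toPt (V.u 2)) (toPt (V.u 3)) = (V.d 3 : ℝ) ^ 2 := h.detR 2
  have c1 := congrArg (fun w => det w v) (det_cramer (toPt (V.e 0)) (toPt (V.u 2)) (toPt (V.u 3)))
  have c2 := congrArg (fun w => det w v) (det_cramer (toPt (V.u 1)) (toPt (V.u 2)) (toPt (V.u 3)))
  have c3 := congrArg (fun w => det (toPt (V.u 1)) w) h.closing
  have e0 : det (toPt (V.u 3)) (toPt (V.e 0)) = (V.d 0 : ℝ) := by
    rw [det_toPt, h.u3_e0]
  have e1 : det (toPt (V.e 0)) (toPt (V.u 2)) = (V.dm : ℝ) := by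
    rw [det_toPt]; rfl
  simp only [det_add_left, det_smul_left, d3, e0, e1, d2] at c1 c2
  simp only [det_add_right, det_smul_right, det_self,
    det_comm (toPt (V.u 1)) (toPt (V.u 0)), d1, d2] at c3
  have z1 : det 0 v = 0 := by simp [det]
  have z2 : det (toPt (V.u 1)) 0 = 0 := by simp [det]
  rw [z1] at c1 c2
  rw [z2] at c3
  rw [det_comm (toPt (V.u 3)) (toPt (V.u 1))] at c2
  linear_combination -(V.d 2 : ℝ) ^ 2 * V.l 2 * c1 + V.d 0 * V.l 3 * c2 +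
    V.d 0 * det (toPt (V.u 2)) v * c3

/-! ### The functionals of the mutated data -/

theorem mutL_F0 (h : V.Ok A B) (y : Pt) : V.mutL.F 0 y = V.F 1 y + V.s y * V.dp := by
  have e1 : V.mutL.F 0 y = det (toPt (nn (V.e 0) (V.u 1))) (y - V.psi (V.P 1)) := rfl
  have e2 : y - V.psi (V.P 1) = (y - V.P 1) + (V.l 0 * V.d 0) • toPt (V.e 0) := by
    rw [h.psi_P1]; module
  have e3 : det (toPt (V.u 1)) (toPt (V.e 0)) = -(V.dp : ℝ) := by
    rw [det_toPt, h.u1_e0]; push_cast; ring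
  have e4 : det (toPt (V.e 0)) (y - V.P 1) = V.s y + V.l 0 * V.d 0 := by
    have := h.s_P1
    have e : y - V.P 1 = (y - V.P 0) - (V.P 1 - V.P 0) := by abel
    rw [e, det_sub_right]
    simp only [Dat.s] at this ⊢
    linarith
  have e5 : (idet (V.e 0) (V.u 1) : ℝ) = V.dp := rfl
  rw [e1, toPt_nn, e2, det_add_left, det_add_right, det_smul_left, det_add_right,
    det_smul_right, det_smul_right, det_self, e3, e4, e5]
  rw [Dat.F]
  ring

theorem mutL_F1 (_h : V.Ok A B) (y : Pt) : V.mutL.F 1 y = V.F 1 y := by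
  have e1 : V.mutL.F 1 y = det (toPt (V.u 1)) (y - (V.P 1 + V.tL • toPt (V.u 1))) := rfl
  rw [e1, ← sub_sub, det_sub_right, det_smul_right, det_self, Dat.F]
  ring

theorem mutL_F2 (_h : V.Ok A B) (y : Pt) : V.mutL.F 2 y = V.F 2 y := rfl

theorem mutL_F3 (_h : V.Ok A B) (y : Pt) : V.mutL.F 3 y = V.F 3 y := rfl

theorem mutR_F0 (h : V.Ok A B) (y : Pt) : V.mutR.F 0 y = V.F 1 y + V.s y * V.dp := h.mutL_F0 y

theorem mutR_F1 (_h : V.Ok A B) (y : Pt) : V.mutR.F 1 y = V.F 2 y + V.s y * V.dm := by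
  have e1 : V.mutR.F 1 y = det (toPt (nn (V.e 0) (V.u 2))) (y - V.psi (V.P 2)) := rfl
  have e2 : y - V.psi (V.P 2) = (y - V.P 2) - V.S • toPt (V.e 0) := by
    rw [Dat.psi]
    simp only [Dat.S]
    abel
  have e3 : det (toPt (V.u 2)) (toPt (V.e 0)) = -(V.dm : ℝ) := by
    rw [det_toPt, _h.u2_e0]; push_cast; ring
  have e4 : det (toPt (V.e 0)) (y - V.P 2) = V.s y - V.S := by
    have e : y - V.P 2 = (y - V.P 0) - (V.P 2 - V.P 0) := by abel
    rw [e, det_sub_right]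
    rfl
  have e5 : (idet (V.e 0) (V.u 2) : ℝ) = V.dm := rfl
  have e6 : ∀ (a b w : Pt) (k s : ℝ),
      det (a + k • b) (w - s • b) = det a w - s * det a b + k * det b w := by
    intro a b w k s
    simp [det]
    ring
  rw [e1, toPt_nn, e2, e6, e3, e4, e5]
  rw [Dat.F]
  ring

theorem mutR_F2 (h : V.Ok A B) (y : Pt) : V.mutR.F 2 y = V.F 2 y := by
  have e1 : V.mutR.F 2 y = det (toPt (V.u 2)) (y - (V.P 3 - V.tR • toPt (V.u 2))) := rfl
  have e2 : y - (V.P 3 - V.tR • toPt (V.u 2)) = (y - V.P 2) + (V.tR - V.l 2) • toPt (V.u 2) := by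
    rw [h.P3_eq]; module
  rw [e1, e2, det_add_right, det_smul_right, det_self, Dat.F]
  ring

theorem mutR_F3 (_h : V.Ok A B) (y : Pt) : V.mutR.F 3 y = V.F 3 y := rfl

theorem mem_reg {y : Pt} : y ∈ V.reg ↔ 0 ≤ V.F 0 y ∧ 0 ≤ V.F 1 y ∧ 0 ≤ V.F 2 y ∧ 0 ≤ V.F 3 y := by
  constructor
  · intro h
    exact ⟨h 0, h 1, h 2, h 3⟩
  · rintro ⟨h0, h1, h2, h3⟩
    exact forall4 h0 h1 h2 h3

theorem Dsq_pos (h : V.Ok A B) (i : Fin 4) : (0 : ℝ) < (V.d i : ℝ) ^ 2 := by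
  have : (0 : ℝ) < V.d i := by exact_mod_cast h.d_pos i
  positivity

/-- **The region of the left mutation.** -/
theorem reg_mutL (h : V.Ok A B) (hS : 0 ≤ V.S) (y : Pt) :
    y ∈ V.mutL.reg ↔ (0 ≤ V.s y ∧ y ∈ V.reg) ∨ (V.s y ≤ 0 ∧ V.ph y ∈ V.reg) := by
  rw [mem_reg, mem_reg, mem_reg, h.mutL_F0, h.mutL_F1, h.mutL_F2, h.mutL_F3, h.F0_ph, h.F1_ph,
    h.F2_ph, h.F3_ph, h.F0_eq]
  have hdp : (0 : ℝ) < V.dp := by exact_mod_cast h.dp_pos hS
  have hd0 : (0 : ℝ) < V.d 0 := by exact_mod_cast h.d_pos 0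
  have hl0 := h.l0_pos hS
  have hl1 := h.l_nonneg 1
  have hl3 := h.l_nonneg 3
  have D1 := h.Dsq_pos 1
  have D2 := h.Dsq_pos 2
  have D3 := h.Dsq_pos 3
  constructor
  · rintro ⟨h0, h1, h2, h3⟩
    rcases le_total 0 (V.s y) with hs | hs
    · left
      refine ⟨hs, ?_, h1, h2, h3⟩
      have := mul_nonneg hs hd0.le
      linarith
    · right
      refine ⟨hs, h3, h0, ?_, ?_⟩
      · -- `F₂(φ y) ≥ 0`
        have j := h.J1 (V.ph y)
        rw [h.F2_ph, h.F1_ph, h.F0_ph, V.s_ph] at j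
        have i1 : 0 ≤ V.d 0 * V.l 3 * (V.d 3 : ℝ) ^ 2 * (V.F 1 y + V.s y * V.dp) := by positivity
        have i2 : 0 ≤ (V.d 2 : ℝ) ^ 2 * V.l 1 * (V.d 1 : ℝ) ^ 2 * (-V.s y) :=
          mul_nonneg (by positivity) (by linarith)
        have i3 : 0 ≤ (V.d 2 : ℝ) ^ 2 * V.S * V.F 3 y := by positivity
        have pos : 0 < V.l 0 * (V.d 1 : ℝ) ^ 2 * V.d 0 := by positivity
        by_contra hcon
        push Not at hcon
        have := mul_neg_of_neg_of_pos hcon pos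
        linarith
      · have := mul_nonpos_of_nonpos_of_nonneg hs hd0.le
        linarith
  · rintro (⟨hs, h0, h1, h2, h3⟩ | ⟨hs, h0, h1, h2, h3⟩)
    · refine ⟨?_, h1, h2, h3⟩
      have := mul_nonneg hs hdp.le
      linarith
    · refine ⟨h1, ?_, ?_, h0⟩
      · have := mul_nonpos_of_nonpos_of_nonneg hs hdp.le
        linarith
      · -- `F₂(y) ≥ 0`
        have j := h.J1 (V.ph y)
        rw [h.F2_ph, h.F1_ph, h.F0_ph, V.s_ph] at j
        have hi := h.area_id2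
        have i1 : 0 ≤ V.d 0 * V.l 3 * (V.d 3 : ℝ) ^ 2 * (V.F 1 y + V.s y * V.dp) := by positivity
        have i2 : 0 ≤ (V.l 3 + V.l 0) * (V.d 3 : ℝ) ^ 2 * (V.d 1 : ℝ) ^ 2 * (-V.s y) :=
          mul_nonneg (by positivity) (by linarith)
        have i3 : 0 ≤ (V.d 2 : ℝ) ^ 2 * V.S * V.F 3 y := by positivity
        have pos : 0 < V.l 0 * (V.d 1 : ℝ) ^ 2 * V.d 0 := by positivity
        have e : V.F 2 y * (V.l 0 * (V.d 1 : ℝ) ^ 2 * V.d 0) =
            V.d 0 * V.l 3 * (V.d 3 : ℝ) ^ 2 * (V.F 1 y + V.s y * V.dp) +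
            (V.l 3 + V.l 0) * (V.d 3 : ℝ) ^ 2 * (V.d 1 : ℝ) ^ 2 * (-V.s y) +
            (V.d 2 : ℝ) ^ 2 * V.S * V.F 3 y := by
          linear_combination j - V.s y * (V.d 1 : ℝ) ^ 2 * hi
        by_contra hcon
        push Not at hcon
        have := mul_neg_of_neg_of_pos hcon pos
        linarith

/-- `l₃ d₀ δ⁺ = (l₃ + l₀) D₁ - l₂ D₂`. -/
theorem area_id3 (h : V.Ok A B) :
    V.l 3 * V.d 0 * V.dp = (V.l 3 + V.l 0) * (V.d 1 : ℝ) ^ 2 - V.l 2 * (V.d 2 : ℝ) ^ 2 := by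
  have hc := h.closing
  have k := congrArg (fun x => det (toPt (V.u 1)) x) hc
  simp only [det_add_right, det_smul_right, det_toPt] at k
  have k0 : idet (V.u 1) (V.u 0) = -V.d 1 ^ 2 := by
    have : idet (V.u 0) (V.u 1) = V.d 1 ^ 2 := h.det_u 0
    rw [idet_comm, this]
  have k2 : idet (V.u 1) (V.u 2) = V.d 2 ^ 2 := h.det_u 1
  have k3 : idet (V.u 1) (V.u 3) = V.d 0 * V.dp - V.d 1 ^ 2 := by
    have e : V.u 3 = V.u 0 - V.d 0 • V.e 0 := by rw [h.u0_eq]; abel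
    have : idet (V.u 0) (V.u 1) = V.d 1 ^ 2 := h.det_u 0
    rw [e, idet_sub_right, idet_comm (V.u 1) (V.u 0), this, idet_smul_right,
      idet_comm (V.u 1) (V.e 0)]
    simp only [Dat.dp]
    ring
  rw [k0, k2, k3, idet_self] at k
  simp only [det, Prod.fst_zero, Prod.snd_zero, mul_zero, sub_zero] at k
  push_cast at k
  linear_combination k

/-- **The region of the right mutation.** -/
theorem reg_mutR (h : V.Ok A B) (hS : V.S ≤ 0) (y : Pt) :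
    y ∈ V.mutR.reg ↔ (0 ≤ V.s y ∧ y ∈ V.reg) ∨ (V.s y ≤ 0 ∧ V.ph y ∈ V.reg) := by
  rw [mem_reg, mem_reg, mem_reg, h.mutR_F0, h.mutR_F1, h.mutR_F2, h.mutR_F3, h.F0_ph, h.F1_ph,
    h.F2_ph, h.F3_ph, h.F0_eq]
  have hdm : (0 : ℝ) < V.dm := by exact_mod_cast h.dm_pos hS
  have hd0 : (0 : ℝ) < V.d 0 := by exact_mod_cast h.d_pos 0
  have hl3 := h.l3_pos hS
  have hl0 := h.l_nonneg 0
  have hl2 := h.l_nonneg 2
  have D1 := h.Dsq_pos 1
  have D2 := h.Dsq_pos 2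
  have D3 := h.Dsq_pos 3
  constructor
  · rintro ⟨h0, h1, h2, h3⟩
    rcases le_total 0 (V.s y) with hs | hs
    · left
      refine ⟨hs, ?_, ?_, h2, h3⟩
      · have := mul_nonneg hs hd0.le
        linarith
      · have j := h.J3 y
        have i1 : 0 ≤ V.d 0 * V.l 0 * (V.d 1 : ℝ) ^ 2 * V.F 2 y := by positivity
        have i2 : 0 ≤ (V.d 2 : ℝ) ^ 2 * V.l 2 * (V.d 3 : ℝ) ^ 2 * V.s y := by positivity
        have i3 : 0 ≤ (V.d 2 : ℝ) ^ 2 * (-V.S) * V.F 3 y :=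
          mul_nonneg (mul_nonneg D2.le (by linarith)) h3
        have pos : 0 < V.l 3 * (V.d 3 : ℝ) ^ 2 * V.d 0 := by positivity
        by_contra hcon
        push Not at hcon
        have := mul_neg_of_neg_of_pos hcon pos
        linarith
    · right
      refine ⟨hs, h3, h0, h1, ?_⟩
      have := mul_nonpos_of_nonpos_of_nonneg hs hd0.le
      linarith
  · rintro (⟨hs, h0, h1, h2, h3⟩ | ⟨hs, h0, h1, h2, h3⟩)
    · refine ⟨?_, ?_, h2, h3⟩
      · have j := h.J3 y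
        have hi := h.area_id3
        have i1 : 0 ≤ V.d 0 * V.l 0 * (V.d 1 : ℝ) ^ 2 * V.F 2 y := by positivity
        have i2 : 0 ≤ (V.l 3 + V.l 0) * (V.d 1 : ℝ) ^ 2 * (V.d 3 : ℝ) ^ 2 * V.s y := by positivity
        have i3 : 0 ≤ (V.d 2 : ℝ) ^ 2 * (-V.S) * V.F 3 y :=
          mul_nonneg (mul_nonneg D2.le (by linarith)) h3
        have pos : 0 < V.l 3 * (V.d 3 : ℝ) ^ 2 * V.d 0 := by positivity
        have e : (V.F 1 y + V.s y * V.dp) * (V.l 3 * (V.d 3 : ℝ) ^ 2 * V.d 0) =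
            V.d 0 * V.l 0 * (V.d 1 : ℝ) ^ 2 * V.F 2 y +
            (V.l 3 + V.l 0) * (V.d 1 : ℝ) ^ 2 * (V.d 3 : ℝ) ^ 2 * V.s y +
            (V.d 2 : ℝ) ^ 2 * (-V.S) * V.F 3 y := by
          linear_combination j + V.s y * (V.d 3 : ℝ) ^ 2 * hi
        by_contra hcon
        push Not at hcon
        have := mul_neg_of_neg_of_pos hcon pos
        linarith
      · have := mul_nonneg hs hdm.le
        linarith
    · refine ⟨h1, h2, ?_, h0⟩
      have := mul_nonpos_of_nonpos_of_nonneg hs hdm.le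
      linarith

end Dat.Ok

end Pool.Agent.NH80.Quad
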