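import Pool.Agent.NH80.Quad.Fwd

/-!
# Validity of the diagrams of admissible data
-/

open Set Filter Topology

namespace Pool.Agent.NH80.Quad

/-- The diagram of the data `V` with the nodes at the distances `t`, the node `j` belonging to
the corner `τ j`. -/
noncomputable def Dat.dg (V : Dat) (τ : Equiv.Perm (Fin 4)) (t : Fin 4 → ℝ) : Diagram :=
  ⟨V.reg, fun j => V.nd t (τ j)⟩

/-- The signed distance to the eigenline of the corner `i`. -/
noncomputable def Dat.si (V : Dat) (i : Fin 4) (x : Pt) : ℝ := det (toPt (V.e i)) (x - V.P i)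

/-- The cut of length `r` at the corner `k` does not cross the eigenline of the corner `i`. -/
def Dat.Short (V : Dat) (i k : Fin 4) (r : ℝ) : Prop :=
  V.si i (V.P k) = 0 ∨ r * |(idet (V.e i) (V.e k) : ℝ)| < |V.si i (V.P k)|

theorem Dat.si_line (V : Dat) (i k : Fin 4) (r : ℝ) :
    V.si i (V.P k + r • toPt (V.e k)) = V.si i (V.P k) + r * idet (V.e i) (V.e k) := by
  simp [Dat.si, det, toPt, idet]; ring

theorem Dat.si_self (V : Dat) (i : Fin 4) (r : ℝ) :
    V.si i (V.P i + r • toPt (V.e i)) = 0 := by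
  simp [Dat.si, det, toPt]; ring

theorem SameLine.symm' {n m : Node} (hm : toPt m.cut ≠ 0) (h : SameLine n m) : SameLine m n := by
  obtain ⟨h1, s, hs⟩ := h
  have h2 : idet m.cut n.cut = 0 := by rw [idet_comm, h1]; rfl
  refine ⟨h2, ?_⟩
  have h3 : det (toPt m.cut) (n.pos - m.pos) = 0 := by
    have e : n.pos - m.pos = -(s • toPt n.cut) := by rw [hs]; abel
    rw [e, det_neg_right, det_smul_right, det_toPt, h2]
    simp
  obtain ⟨r, hr⟩ := exists_smul_of_det hm h3
  exact ⟨r, by rw [← hr]; abel⟩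

theorem Dat.Short.mono {V : Dat} {i k : Fin 4} {r r' : ℝ} (h : V.Short i k r) (hr : r' ≤ r) :
    V.Short i k r' := by
  rcases h with h | h
  · exact Or.inl h
  · right
    exact lt_of_le_of_lt (mul_le_mul_of_nonneg_right hr (abs_nonneg _)) h

/-- On a short cut the sign of the distance to another eigenline does not change. -/
theorem Dat.Short.pos {V : Dat} {i k : Fin 4} {r t : ℝ} (h : V.Short i k t) (hr0 : 0 ≤ r)
    (hr : r ≤ t) (hs : 0 < V.si i (V.P k)) : 0 < V.si i (V.P k + r • toPt (V.e k)) := by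
  rw [V.si_line]
  rcases h with h | h
  · exact absurd h hs.ne'
  · rw [abs_of_pos hs] at h
    have h1 : r * |(idet (V.e i) (V.e k) : ℝ)| ≤ t * |(idet (V.e i) (V.e k) : ℝ)| :=
      mul_le_mul_of_nonneg_right hr (abs_nonneg _)
    have h2 : -(r * |(idet (V.e i) (V.e k) : ℝ)|) ≤ r * (idet (V.e i) (V.e k) : ℝ) := by
      rw [← mul_neg]
      exact mul_le_mul_of_nonneg_left (neg_abs_le _) hr0
    linarith

theorem Dat.Short.neg {V : Dat} {i k : Fin 4} {r t : ℝ} (h : V.Short i k t) (hr0 : 0 ≤ r)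
    (hr : r ≤ t) (hs : V.si i (V.P k) < 0) : V.si i (V.P k + r • toPt (V.e k)) < 0 := by
  rw [V.si_line]
  rcases h with h | h
  · exact absurd h hs.ne
  · rw [abs_of_neg hs] at h
    have h1 : r * |(idet (V.e i) (V.e k) : ℝ)| ≤ t * |(idet (V.e i) (V.e k) : ℝ)| :=
      mul_le_mul_of_nonneg_right hr (abs_nonneg _)
    have h2 : r * (idet (V.e i) (V.e k) : ℝ) ≤ r * |(idet (V.e i) (V.e k) : ℝ)| :=
      mul_le_mul_of_nonneg_left (le_abs_self _) hr0
    linarith

namespace Dat.Ok

variable {V : Dat} {A B : ℝ}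

theorem F_corner (h : V.Ok A B) (k : Fin 4) (r : ℝ) :
    V.F k (V.P k + r • toPt (V.e k)) = r * V.d k := by
  have h4 := h.det_e' (k - 1)
  rw [sub_add_cancel] at h4
  rw [Dat.F, add_sub_cancel_left, det_smul_right, det_toPt, h4]

/-- Points of a cut. -/
theorem mem_cut (h : V.Ok A B) {τ : Equiv.Perm (Fin 4)} {t : Fin 4 → ℝ} {j : Fin 4} {x : Pt}
    (hx : x ∈ (V.dg τ t).cutSeg j) :
    ∃ r : ℝ, 0 ≤ r ∧ r ≤ t (τ j) ∧ x = V.P (τ j) + r • toPt (V.e (τ j)) := by
  obtain ⟨h1, s, hs, h2⟩ := hx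
  have h3 : x = V.P (τ j) + (t (τ j) - s) • toPt (V.e (τ j)) := by
    rw [h2]
    simp only [Dat.dg, Dat.nd, toPt_neg]
    module
  refine ⟨t (τ j) - s, ?_, by linarith, h3⟩
  have h4 := h1 (τ j)
  rw [h3, h.F_corner] at h4
  have h5 : (0 : ℝ) < V.d (τ j) := by exact_mod_cast h.d_pos (τ j)
  by_contra hcon
  push Not at hcon
  have := mul_neg_of_neg_of_pos hcon h5
  linarith

theorem P_frontier (h : V.Ok A B) (k : Fin 4) : V.P k ∈ frontier V.reg := by
  rw [frontier, V.isClosed_reg.closure_eq]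
  refine ⟨h.P_mem k, fun hi => ?_⟩
  have := h.F_pos_of_mem_interior hi k
  rw [F_self] at this
  exact lt_irrefl _ this

/-- Two cuts, one of which is short. -/
theorem cuts_short (h : V.Ok A B) (τ : Equiv.Perm (Fin 4)) {t : Fin 4 → ℝ} {i j : Fin 4}
    (hs : V.Short (τ i) (τ j) (t (τ j))) :
    SameLine ((V.dg τ t).node i) ((V.dg τ t).node j) ∨
      (V.dg τ t).cutSeg i ∩ (V.dg τ t).cutSeg j ⊆ frontier (V.dg τ t).region := by
  by_cases hsame : V.si (τ i) (V.P (τ j)) = 0 ∧ idet (V.e (τ i)) (V.e (τ j)) = 0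
  · left
    obtain ⟨h1, h2⟩ := hsame
    refine ⟨?_, ?_⟩
    · simp only [Dat.dg, Dat.nd, idet_neg_left, idet_neg_right, neg_neg, h2]
    · have h3 : det (toPt (-V.e (τ i))) ((V.nd t (τ j)).pos - (V.nd t (τ i)).pos) = 0 := by
        have e : (V.nd t (τ j)).pos - (V.nd t (τ i)).pos =
            (V.P (τ j) - V.P (τ i)) + t (τ j) • toPt (V.e (τ j)) - t (τ i) • toPt (V.e (τ i)) := by
          simp only [Dat.nd]; abel
        rw [e, toPt_neg, det_neg_left, det_sub_right, det_add_right, det_smul_right,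
          det_smul_right, det_self, det_toPt, h2]
        rw [Dat.si] at h1
        rw [h1]
        simp
      have hne : toPt (-V.e (τ i)) ≠ 0 := ne_zero_of_coprime (coprime_neg (h.prim_e _))
      obtain ⟨s, hs⟩ := exists_smul_of_det hne h3
      refine ⟨s, ?_⟩
      change (V.nd t (τ j)).pos = (V.nd t (τ i)).pos + s • toPt (-V.e (τ i))
      rw [← hs]; abel
  · right
    rintro x ⟨hx1, hx2⟩
    obtain ⟨r, hr0, hr1, hr⟩ := h.mem_cut hx1
    obtain ⟨q, hq0, hq1, hq⟩ := h.mem_cut hx2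
    have h1 : V.si (τ i) x = 0 := by rw [hr, V.si_self]
    have hx : x = V.P (τ j) := by
      rcases lt_trichotomy (V.si (τ i) (V.P (τ j))) 0 with h2 | h2 | h2
      · have := hs.neg hq0 hq1 h2
        rw [← hq] at this
        linarith
      · rw [hq, V.si_line, h2, zero_add] at h1
        rcases mul_eq_zero.mp h1 with h3 | h3
        · rw [hq, h3]; simp
        · exact absurd ⟨h2, by exact_mod_cast h3⟩ hsame
      · have := hs.pos hq0 hq1 h2
        rw [← hq] at this
        linarith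
    rw [hx]
    exact h.P_frontier _

/-- **Validity.** -/
theorem valid (h : V.Ok A B) (τ : Equiv.Perm (Fin 4)) {t : Fin 4 → ℝ}
    (hin : ∀ k i, 0 < V.F i (V.nd t k).pos)
    (hinj : Function.Injective fun j => ((V.dg τ t).node j).pos)
    (hpair : ∀ i k, i ≠ k → V.Short i k (t k) ∨ V.Short k i (t i)) :
    (V.dg τ t).Valid where
  polygon := ⟨range V.P, finite_range _, h.reg_eq_hull⟩
  prim j := coprime_neg (h.prim_e _)
  inside j := V.mem_interior fun i => hin _ i
  distinct := hinj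
  cuts i j hij := by
    have hne : τ i ≠ τ j := fun h => hij (τ.injective h)
    rcases hpair (τ i) (τ j) hne with h1 | h1
    · exact h.cuts_short τ h1
    · rcases h.cuts_short τ (i := j) (j := i) h1 with h2 | h2
      · left
        exact h2.symm' (ne_zero_of_coprime (coprime_neg (h.prim_e _)))
      · right
        rw [inter_comm]
        exact h2

/-! ### Smallness -/

theorem ev_lt (a : ℝ) {b : ℝ} (hb : 0 < b) : ∀ᶠ ε in 𝓝[>] (0 : ℝ), a * ε < b := by
  have h1 : Tendsto (fun ε : ℝ => a * ε) (𝓝 0) (𝓝 (a * 0)) := by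
    apply Continuous.tendsto
    fun_prop
  rw [mul_zero] at h1
  exact (h1.mono_left nhdsWithin_le_nhds).eventually_lt_const hb

theorem ev_short (V : Dat) (c : ℝ) (i k : Fin 4) :
    ∀ᶠ ε in 𝓝[>] (0 : ℝ), V.Short i k (c * ε) := by
  by_cases h0 : V.si i (V.P k) = 0
  · exact Eventually.of_forall fun _ => Or.inl h0
  · filter_upwards [ev_lt (c * |(idet (V.e i) (V.e k) : ℝ)|) (abs_pos.mpr h0)] with ε hε
    right
    calc c * ε * |(idet (V.e i) (V.e k) : ℝ)| = c * |(idet (V.e i) (V.e k) : ℝ)| * ε := by ring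
      _ < _ := hε

/-- At a vertex a functional is positive, or vanishes and increases inwards. -/
theorem F_vertex (h : V.Ok A B) (i k : Fin 4) :
    0 < V.F i (V.P k) ∨ (V.F i (V.P k) = 0 ∧ 0 < idet (V.u i) (V.e k)) := by
  have hi : i = k ∨ k = i + 1 ∨ k = i + 2 ∨ i = k + 1 := by
    revert i k; decide
  rcases hi with rfl | rfl | rfl | rfl
  · right
    refine ⟨F_self V i, ?_⟩
    have h4 := h.det_e' (i - 1)
    rw [sub_add_cancel] at h4
    rw [h4]
    exact h.d_pos i
  · right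
    refine ⟨h.F_next i, ?_⟩
    rw [h.det_e]
    exact h.d_pos _
  · rw [h.F_next2]
    rcases (h.l_nonneg (i + 1)).lt_or_eq with h0 | h0
    · left
      have := h.Dsq_pos (i + 1)
      positivity
    · right
      rw [← h0, zero_mul]
      refine ⟨rfl, ?_⟩
      have e2 : i + 2 = i + 1 + 1 := by rw [add_assoc]; rfl
      have e1 : V.u i = V.u (i + 1) - V.d (i + 1) • V.e (i + 1) := by
        rw [← h.diff i]; abel
      have hz := h.zero (i + 1) h0.symm
      rw [e2, e1, idet_sub_left, idet_smul_left, h.det_e]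
      have h1 := h.d_pos (i + 1)
      have h2 := h.d_pos (i + 1 + 1)
      have h3 := mul_nonpos_of_nonneg_of_nonpos h1.le hz
      linarith
  · rw [h.F_prev]
    rcases (h.l_nonneg k).lt_or_eq with h0 | h0
    · left
      have := h.Dsq_pos (k + 1)
      positivity
    · right
      rw [← h0, zero_mul]
      refine ⟨rfl, ?_⟩
      have e1 : V.u (k + 1) = V.u k + V.d (k + 1) • V.e (k + 1) := by
        rw [← h.diff k]; abel
      have hz := h.zero k h0.symm
      have h4 := h.det_e' (k - 1)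
      rw [sub_add_cancel] at h4
      rw [e1, idet_add_left, idet_smul_left, h4, idet_comm]
      have h1 := h.d_pos k
      have h2 := h.d_pos (k + 1)
      have h3 := mul_nonpos_of_nonneg_of_nonpos h2.le hz
      linarith

theorem ev_inside (h : V.Ok A B) {c : ℝ} (hc : 0 < c) (i k : Fin 4) :
    ∀ᶠ ε in 𝓝[>] (0 : ℝ), 0 < V.F i (V.P k + (c * ε) • toPt (V.e k)) := by
  have e : ∀ ε : ℝ, V.F i (V.P k + (c * ε) • toPt (V.e k)) =
      V.F i (V.P k) + c * ε * idet (V.u i) (V.e k) := by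
    intro ε
    rw [F_sub i _ (V.P k), add_sub_cancel_left, det_smul_right, det_toPt]
  rcases h.F_vertex i k with h0 | ⟨h0, h1⟩
  · filter_upwards [ev_lt (-(c * idet (V.u i) (V.e k))) h0] with ε hε
    rw [e]
    linarith
  · have h2 : (0 : ℝ) < idet (V.u i) (V.e k) := by exact_mod_cast h1
    filter_upwards [self_mem_nhdsWithin] with ε hε
    have hε' : 0 < ε := hε
    rw [e, h0]
    positivity

/-- Two primitive vectors with proportional positive multiples are equal. -/
theorem prim_unique {e f : ℤ × ℤ} (he : IsCoprime e.1 e.2) (hf : IsCoprime f.1 f.2) {r s : ℝ}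
    (hr : 0 < r) (hs : 0 < s) (h : r • toPt e = s • toPt f) : r = s := by
  have h1 : r * e.1 = s * f.1 := by
    have := congrArg Prod.fst h
    simpa [toPt] using this
  have h2 : r * e.2 = s * f.2 := by
    have := congrArg Prod.snd h
    simpa [toPt] using this
  obtain ⟨x, y, hxy⟩ := he
  obtain ⟨z, w, hzw⟩ := hf
  have k1 : r = s * ((x * f.1 + y * f.2 : ℤ) : ℝ) := by
    have : ((x * e.1 + y * e.2 : ℤ) : ℝ) = 1 := by rw [hxy]; norm_num
    push_cast at this ⊢
    linear_combination -r * this + x * h1 + y * h2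
  have k2 : s = r * ((z * e.1 + w * e.2 : ℤ) : ℝ) := by
    have : ((z * f.1 + w * f.2 : ℤ) : ℝ) = 1 := by rw [hzw]; norm_num
    push_cast at this ⊢
    linear_combination -s * this - z * h1 - w * h2
  set p := x * f.1 + y * f.2
  set q := z * e.1 + w * e.2
  have k3 : ((p * q : ℤ) : ℝ) = 1 := by
    have : r * (p * q : ℝ) = r * 1 := by
      calc r * (p * q : ℝ) = (r * q) * p := by ring
        _ = s * p := by rw [← k2]
        _ = r * 1 := by rw [← k1]; ring
    have := mul_left_cancel₀ hr.ne' this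
    push_cast
    exact this
  have k4 : p * q = 1 := by exact_mod_cast k3
  have hp : (0 : ℝ) < p := by
    by_contra hcon
    push Not at hcon
    have := mul_nonpos_of_nonneg_of_nonpos hs.le hcon
    linarith
  have hp' : 0 < p := by exact_mod_cast hp
  have k5 : p = 1 := by
    rcases Int.eq_one_or_neg_one_of_mul_eq_one k4 with h | h
    · exact h
    · rw [h] at hp'; norm_num at hp'
  rw [k1, k5]
  norm_num

theorem ev_distinct (h : V.Ok A B) {c c' : ℝ} (hc : 0 < c) (hc' : 0 < c') (hcc : c ≠ c')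
    (i k : Fin 4) :
    ∀ᶠ ε in 𝓝[>] (0 : ℝ), V.P i + (c * ε) • toPt (V.e i) ≠ V.P k + (c' * ε) • toPt (V.e k) := by
  by_cases hP : V.P i = V.P k
  · filter_upwards [self_mem_nhdsWithin] with ε hε heq
    have hε' : 0 < ε := hε
    rw [hP] at heq
    have h1 := add_left_cancel heq
    have h2 := prim_unique (h.prim_e i) (h.prim_e k) (by positivity) (by positivity) h1
    exact hcc (mul_right_cancel₀ hε'.ne' h2)
  · have h1 : Tendsto (fun ε : ℝ => V.P i + (c * ε) • toPt (V.e i) -
        (V.P k + (c' * ε) • toPt (V.e k))) (𝓝 0)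
        (𝓝 (V.P i + (c * 0) • toPt (V.e i) - (V.P k + (c' * 0) • toPt (V.e k)))) := by
      apply Continuous.tendsto
      fun_prop
    have h2 : V.P i + (c * 0) • toPt (V.e i) - (V.P k + (c' * 0) • toPt (V.e k)) ≠ 0 := by
      simp only [mul_zero, zero_smul, add_zero]
      exact sub_ne_zero.mpr hP
    have h3 := (h1.mono_left (nhdsWithin_le_nhds (s := Ioi 0))).eventually_ne h2
    filter_upwards [h3] with ε hε heq
    exact hε (sub_eq_zero.mpr heq)

end Dat.Ok

/-- The factors of the distances. -/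
noncomputable def cf : Fin 4 → ℝ := ![1, 2, 3, 4]

theorem cf_pos (k : Fin 4) : 0 < cf k := by
  revert k
  exact forall4 (show (0 : ℝ) < 1 by norm_num) (show (0 : ℝ) < 2 by norm_num)
    (show (0 : ℝ) < 3 by norm_num) (show (0 : ℝ) < 4 by norm_num)

theorem cf_inj {i k : Fin 4} (h : i ≠ k) : cf i ≠ cf k := by
  have e : ∀ j : Fin 4, cf j = (j : ℕ) + 1 := by
    refine forall4 ?_ ?_ ?_ ?_
    · change (1 : ℝ) = ((0 : ℕ) : ℝ) + 1
      norm_num
    · change (2 : ℝ) = ((1 : ℕ) : ℝ) + 1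
      norm_num
    · change (3 : ℝ) = ((2 : ℕ) : ℝ) + 1
      norm_num
    · change (4 : ℝ) = ((3 : ℕ) : ℝ) + 1
      norm_num
  intro heq
  rw [e, e] at heq
  have : ((i : ℕ) : ℝ) = ((k : ℕ) : ℝ) := by linarith
  exact h (Fin.ext (by exact_mod_cast this))

/-- The near diagrams are valid. -/
theorem Dat.Ok.near {V : Dat} {A B : ℝ} (h : V.Ok A B) :
    ∀ᶠ ε in 𝓝[>] (0 : ℝ), ∀ τ : Equiv.Perm (Fin 4), (V.dg τ fun k => cf k * ε).Valid := by
  have h1 : ∀ᶠ ε in 𝓝[>] (0 : ℝ), ∀ i k, V.Short i k (cf k * ε) :=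
    eventually_all.mpr fun i => eventually_all.mpr fun k => Dat.Ok.ev_short V (cf k) i k
  have h2 : ∀ᶠ ε in 𝓝[>] (0 : ℝ), ∀ i k, 0 < V.F i (V.P k + (cf k * ε) • toPt (V.e k)) :=
    eventually_all.mpr fun i => eventually_all.mpr fun k => h.ev_inside (cf_pos k) i k
  have h3 : ∀ᶠ ε in 𝓝[>] (0 : ℝ), ∀ i k, i ≠ k → V.P i + (cf i * ε) • toPt (V.e i) ≠
      V.P k + (cf k * ε) • toPt (V.e k) := by
    refine eventually_all.mpr fun i => eventually_all.mpr fun k => ?_
    by_cases hik : i = k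
    · exact Eventually.of_forall fun ε hne => absurd hik hne
    · filter_upwards [h.ev_distinct (cf_pos i) (cf_pos k) (cf_inj hik) i k] with ε hε _
      exact hε
  filter_upwards [h1, h2, h3] with ε h1 h2 h3 τ
  refine h.valid τ (fun k i => h2 i k) ?_ (fun i k _ => Or.inl (h1 i k))
  intro i j hij
  by_contra hne
  exact h3 (τ i) (τ j) (fun h => hne (τ.injective h)) hij

end Pool.Agent.NH80.Quad
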