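import Pool.Agent.NH80.Quad.Defs

/-!
# Virtual quadrilaterals
-/

open Set

namespace Pool.Agent.NH80.Quad

/-! ### Basic algebra -/

theorem idet_add_left (a b c : ℤ × ℤ) : idet (a + b) c = idet a c + idet b c := by
  simp [idet]; ring
theorem idet_add_right (a b c : ℤ × ℤ) : idet a (b + c) = idet a b + idet a c := by
  simp [idet]; ring
theorem idet_sub_left (a b c : ℤ × ℤ) : idet (a - b) c = idet a c - idet b c := by
  simp [idet]; ring
theorem idet_sub_right (a b c : ℤ × ℤ) : idet a (b - c) = idet a b - idet a c := by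
  simp [idet]; ring
theorem idet_smul_left (k : ℤ) (a b : ℤ × ℤ) : idet (k • a) b = k * idet a b := by
  simp [idet]; ring
theorem idet_smul_right (k : ℤ) (a b : ℤ × ℤ) : idet a (k • b) = k * idet a b := by
  simp [idet]; ring
theorem idet_neg_left (a b : ℤ × ℤ) : idet (-a) b = -idet a b := by
  simp [idet]; ring
theorem idet_neg_right (a b : ℤ × ℤ) : idet a (-b) = -idet a b := by
  simp [idet]; ring
theorem idet_self (a : ℤ × ℤ) : idet a a = 0 := by
  simp [idet]; ring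
theorem idet_comm (a b : ℤ × ℤ) : idet a b = -idet b a := by
  simp [idet]; ring
theorem idet_plucker (a b c d : ℤ × ℤ) :
    idet a b * idet c d - idet a c * idet b d + idet a d * idet b c = 0 := by
  simp [idet]; ring

theorem det_toPt (a b : ℤ × ℤ) : det (toPt a) (toPt b) = (idet a b : ℝ) := by
  simp [det, idet, toPt]

theorem toPt_add (a b : ℤ × ℤ) : toPt (a + b) = toPt a + toPt b := by
  simp [toPt]
theorem toPt_sub (a b : ℤ × ℤ) : toPt (a - b) = toPt a - toPt b := by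
  simp [toPt]
theorem toPt_neg (a : ℤ × ℤ) : toPt (-a) = -toPt a := by
  simp [toPt]
theorem toPt_smul (k : ℤ) (a : ℤ × ℤ) : toPt (k • a) = (k : ℝ) • toPt a := by
  simp [toPt]

theorem det_add_left (a b c : Pt) : det (a + b) c = det a c + det b c := by
  simp [det]; ring
theorem det_add_right (a b c : Pt) : det a (b + c) = det a b + det a c := by
  simp [det]; ring
theorem det_sub_left (a b c : Pt) : det (a - b) c = det a c - det b c := by
  simp [det]; ring
theorem det_sub_right (a b c : Pt) : det a (b - c) = det a b - det a c := by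
  simp [det]; ring
theorem det_smul_left (k : ℝ) (a b : Pt) : det (k • a) b = k * det a b := by
  simp [det]; ring
theorem det_smul_right (k : ℝ) (a b : Pt) : det a (k • b) = k * det a b := by
  simp [det]; ring
theorem det_neg_left (a b : Pt) : det (-a) b = -det a b := by
  simp [det]; ring
theorem det_neg_right (a b : Pt) : det a (-b) = -det a b := by
  simp [det]; ring
theorem det_self (a : Pt) : det a a = 0 := by
  simp [det]; ring
theorem det_comm (a b : Pt) : det a b = -det b a := by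
  simp [det]; ring
theorem det_cramer (a b c : Pt) : det a b • c + det b c • a + det c a • b = 0 := by
  ext <;> simp [det] <;> ring
theorem det_plucker (a b c d : Pt) :
    det a b * det c d - det a c * det b d + det a d * det b c = 0 := by
  simp [det]; ring

/-- The inverse monodromy of `e` on integer vectors. -/
def nn (e v : ℤ × ℤ) : ℤ × ℤ := v - idet v e • e

theorem idet_nn_nn (e v w : ℤ × ℤ) : idet (nn e v) (nn e w) = idet v w := by
  simp [nn, idet]; ring

theorem idet_nn_self (e v : ℤ × ℤ) : idet (nn e v) e = idet v e := by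
  simp [nn, idet]; ring

theorem idet_self_nn (e v : ℤ × ℤ) : idet e (nn e v) = idet e v := by
  simp [nn, idet]; ring

theorem nn_sub (e v w : ℤ × ℤ) : nn e (v - w) = nn e v - nn e w := by
  ext <;> simp [nn, idet] <;> ring

theorem nn_smul (k : ℤ) (e v : ℤ × ℤ) : nn e (k • v) = k • nn e v := by
  ext <;> simp [nn, idet] <;> ring

/-- A unimodular integer matrix preserves primitivity. -/
theorem coprime_lin {p q r s : ℤ} (h : p * s - q * r = 1) {v w : ℤ} (hv : IsCoprime v w) :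
    IsCoprime (p * v + r * w) (q * v + s * w) := by
  obtain ⟨x, y, hxy⟩ := hv
  refine ⟨x * s - y * q, p * y - r * x, ?_⟩
  linear_combination (p * s - q * r) * hxy + h

theorem coprime_nn (e : ℤ × ℤ) {v : ℤ × ℤ} (hv : IsCoprime v.1 v.2) :
    IsCoprime (nn e v).1 (nn e v).2 := by
  have := coprime_lin (p := 1 - e.2 * e.1) (q := -(e.2 * e.2)) (r := e.1 * e.1)
    (s := 1 + e.1 * e.2) (by ring) hv
  have e1 : (nn e v).1 = (1 - e.2 * e.1) * v.1 + e.1 * e.1 * v.2 := by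
    simp [nn, idet]; ring
  have e2 : (nn e v).2 = -(e.2 * e.2) * v.1 + (1 + e.1 * e.2) * v.2 := by
    simp [nn, idet]; ring
  rw [e1, e2]
  exact this

theorem coprime_neg {v : ℤ × ℤ} (hv : IsCoprime v.1 v.2) : IsCoprime (-v).1 (-v).2 :=
  hv.neg_neg

theorem ne_zero_of_coprime {v : ℤ × ℤ} (hv : IsCoprime v.1 v.2) : toPt v ≠ 0 := by
  intro h
  have h1 : v.1 = 0 := by
    have := congrArg Prod.fst h
    simpa [toPt] using this
  have h2 : v.2 = 0 := by
    have := congrArg Prod.snd h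
    simpa [toPt] using this
  rw [h1, h2] at hv
  exact not_isCoprime_zero_zero hv

/-- A vector whose determinant with a nonzero vector vanishes is a multiple of it. -/
theorem exists_smul_of_det {e v : Pt} (he : e ≠ 0) (h : det e v = 0) : ∃ s : ℝ, v = s • e := by
  by_cases h1 : e.1 = 0
  · have h2 : e.2 ≠ 0 := by
      intro h2
      exact he (Prod.ext h1 h2)
    refine ⟨v.2 / e.2, ?_⟩
    have h3 : e.2 * v.1 = 0 := by
      simp only [det, h1] at h
      linarith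
    have h4 : v.1 = 0 := by
      rcases mul_eq_zero.mp h3 with h | h
      · exact absurd h h2
      · exact h
    ext
    · simp [h1, h4]
    · simp only [Prod.smul_snd, smul_eq_mul]
      field_simp
  · refine ⟨v.1 / e.1, ?_⟩
    simp only [det] at h
    ext
    · simp only [Prod.smul_fst, smul_eq_mul]
      field_simp
    · simp only [Prod.smul_snd, smul_eq_mul]
      field_simp
      linarith

/-! ### The data -/

/-- Data of a quadrilateral with possibly one edge of length zero. -/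
structure Dat where
  /-- vertices -/
  P : Fin 4 → Pt
  /-- affine lengths of the edges -/
  l : Fin 4 → ℝ
  /-- primitive directions of the edges -/
  u : Fin 4 → ℤ × ℤ
  /-- eigendirections at the corners -/
  e : Fin 4 → ℤ × ℤ
  /-- indices of the corners -/
  d : Fin 4 → ℤ

theorem Dat.ext' {V W : Dat} (h1 : V.P = W.P) (h2 : V.l = W.l) (h3 : V.u = W.u) (h4 : V.e = W.e)
    (h5 : V.d = W.d) : V = W := by
  cases V; cases W; simp_all

/-- `m i = det (e i) (e (i+1))`. -/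
def Dat.m (V : Dat) (i : Fin 4) : ℤ := idet (V.e i) (V.e (i + 1))

/-- The admissible data. `A` is the double area, `B` the affine perimeter. -/
structure Dat.Ok (V : Dat) (A B : ℝ) : Prop where
  l_nonneg : ∀ i, 0 ≤ V.l i
  step : ∀ i, V.P (i + 1) = V.P i + V.l i • toPt (V.u i)
  prim_u : ∀ i, IsCoprime (V.u i).1 (V.u i).2
  prim_e : ∀ i, IsCoprime (V.e i).1 (V.e i).2
  d_pos : ∀ i, 0 < V.d i
  diff : ∀ i, V.u (i + 1) - V.u i = V.d (i + 1) • V.e (i + 1)
  det_e : ∀ i, idet (V.u i) (V.e (i + 1)) = V.d (i + 1)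
  zero : ∀ i, V.l i = 0 → idet (V.e i) (V.e (i + 1)) ≤ 0
  parity : ∀ i, (2 : ℤ) ∣ (V.e (i + 1)).1 - (V.e i).1 ∧ (2 : ℤ) ∣ (V.e (i + 1)).2 - (V.e i).2
  markov : V.m 0 * V.d 2 * V.d 3 + V.m 1 * V.d 3 * V.d 0 + V.m 2 * V.d 0 * V.d 1 +
    V.m 3 * V.d 1 * V.d 2 = 8 * V.d 0 * V.d 1 * V.d 2 * V.d 3
  area : V.l 0 * V.l 1 * V.d 1 ^ 2 + V.l 2 * V.l 3 * V.d 3 ^ 2 = A
  perim : V.l 0 + V.l 1 + V.l 2 + V.l 3 = B
  A_pos : 0 < A

namespace Dat.Ok

variable {V : Dat} {A B : ℝ}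

theorem det_e' (h : V.Ok A B) (i : Fin 4) : idet (V.u (i + 1)) (V.e (i + 1)) = V.d (i + 1) := by
  have := h.diff i
  have e : V.u (i + 1) = V.u i + V.d (i + 1) • V.e (i + 1) := by rw [← this]; abel
  rw [e, idet_add_left, idet_smul_left, idet_self, h.det_e i]
  ring

theorem det_u (h : V.Ok A B) (i : Fin 4) : idet (V.u i) (V.u (i + 1)) = V.d (i + 1) ^ 2 := by
  have := h.diff i
  have e : V.u (i + 1) = V.u i + V.d (i + 1) • V.e (i + 1) := by rw [← this]; abel
  rw [e, idet_add_right, idet_smul_right, idet_self, h.det_e i]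
  ring

/-- The closing condition. -/
theorem closing (h : V.Ok A B) :
    V.l 0 • toPt (V.u 0) + V.l 1 • toPt (V.u 1) + V.l 2 • toPt (V.u 2) +
      V.l 3 • toPt (V.u 3) = 0 := by
  have h0 : V.P 1 = V.P 0 + _ := h.step 0
  have h1 : V.P 2 = V.P 1 + _ := h.step 1
  have h2 : V.P 3 = V.P 2 + _ := h.step 2
  have h3 : V.P 0 = V.P 3 + _ := h.step 3
  rw [h2, h1, h0] at h3
  have : V.P 0 + (V.l 0 • toPt (V.u 0) + V.l 1 • toPt (V.u 1) + V.l 2 • toPt (V.u 2) +
      V.l 3 • toPt (V.u 3)) = V.P 0 := by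
    conv_rhs => rw [h3]
    abel
  simpa using this

/-! ### Scalar relations -/

theorem e0_u0 (h : V.Ok A B) : idet (V.e 0) (V.u 0) = -V.d 0 := by
  have : idet (V.u 0) (V.e 0) = V.d 0 := h.det_e' 3
  rw [idet_comm, this]

theorem e0_u3 (h : V.Ok A B) : idet (V.e 0) (V.u 3) = -V.d 0 := by
  have : idet (V.u 3) (V.e 0) = V.d 0 := h.det_e 3
  rw [idet_comm, this]

/-- `u 1 = u 0 + d 1 e 1`. -/
theorem u1_eq (h : V.Ok A B) : V.u 1 = V.u 0 + V.d 1 • V.e 1 := by
  have : V.u 1 - V.u 0 = V.d 1 • V.e 1 := h.diff 0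
  rw [← this]; abel
theorem u2_eq (h : V.Ok A B) : V.u 2 = V.u 1 + V.d 2 • V.e 2 := by
  have : V.u 2 - V.u 1 = V.d 2 • V.e 2 := h.diff 1
  rw [← this]; abel
theorem u3_eq (h : V.Ok A B) : V.u 3 = V.u 2 + V.d 3 • V.e 3 := by
  have : V.u 3 - V.u 2 = V.d 3 • V.e 3 := h.diff 2
  rw [← this]; abel
theorem u0_eq (h : V.Ok A B) : V.u 0 = V.u 3 + V.d 0 • V.e 0 := by
  have : V.u 0 - V.u 3 = V.d 0 • V.e 0 := h.diff 3
  rw [← this]; abel

/-- `δ⁺ = m₀ d₁ - d₀`. -/
theorem delta_plus (h : V.Ok A B) : idet (V.e 0) (V.u 1) = V.m 0 * V.d 1 - V.d 0 := by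
  rw [h.u1_eq, idet_add_right, h.e0_u0, idet_smul_right]
  simp only [Dat.m]
  change _ + V.d 1 * idet (V.e 0) (V.e 1) = idet (V.e 0) (V.e 1) * V.d 1 - V.d 0
  ring

/-- `δ⁻ = m₃ d₃ - d₀`. -/
theorem delta_minus (h : V.Ok A B) : idet (V.e 0) (V.u 2) = V.m 3 * V.d 3 - V.d 0 := by
  have e : V.u 2 = V.u 3 - V.d 3 • V.e 3 := by rw [h.u3_eq]; abel
  rw [e, idet_sub_right, h.e0_u3, idet_smul_right]
  simp only [Dat.m]
  change _ - V.d 3 * idet (V.e 0) (V.e 3) = idet (V.e 3) (V.e 0) * V.d 3 - V.d 0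
  rw [idet_comm (V.e 0) (V.e 3)]
  ring

/-- `δ⁺ = δ⁻ - d₂ det(e₀,e₂)`. -/
theorem delta_rel (h : V.Ok A B) :
    idet (V.e 0) (V.u 2) = idet (V.e 0) (V.u 1) + V.d 2 * idet (V.e 0) (V.e 2) := by
  rw [h.u2_eq, idet_add_right, idet_smul_right]

/-- The relation `S₀`. -/
theorem star0 (h : V.Ok A B) :
    V.m 0 * V.d 3 + V.m 3 * V.d 1 - V.m 0 * V.m 3 * V.d 0 +
      V.d 0 * idet (V.e 1) (V.e 3) = 0 := by
  have h0 : idet (V.e 0) (V.u 3) = -V.d 0 := h.e0_u3
  have h1 : idet (V.e 1) (V.u 3) = -(V.d 1 - V.d 0 * V.m 0) := by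
    have e : V.u 3 = V.u 0 - V.d 0 • V.e 0 := by rw [h.u0_eq]; abel
    have h3 : idet (V.u 0) (V.e 1) = V.d 1 := h.det_e 0
    rw [idet_comm, e, idet_sub_left, idet_smul_left, h3]
    rfl
  have h3 : idet (V.e 3) (V.u 3) = -V.d 3 := by
    have : idet (V.u 3) (V.e 3) = V.d 3 := h.det_e' 2
    rw [idet_comm, this]
  have hp := idet_plucker (V.e 0) (V.e 1) (V.e 3) (V.u 3)
  rw [h0, h1, h3] at hp
  have m0 : idet (V.e 0) (V.e 1) = V.m 0 := rfl
  have m3 : idet (V.e 0) (V.e 3) = -V.m 3 := by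
    rw [idet_comm]; rfl
  rw [m0, m3] at hp
  linear_combination -hp

end Dat.Ok

/-! ### Rotation -/

/-- Rotation of the corners. -/
def Dat.rot (V : Dat) (k : Fin 4) : Dat where
  P i := V.P (i + k)
  l i := V.l (i + k)
  u i := V.u (i + k)
  e i := V.e (i + k)
  d i := V.d (i + k)

theorem Dat.rot_add (V : Dat) (j k : Fin 4) : (V.rot j).rot k = V.rot (k + j) := by
  apply Dat.ext' <;> funext i <;> simp [Dat.rot, add_assoc]

theorem Dat.rot_zero (V : Dat) : V.rot 0 = V := by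
  apply Dat.ext' <;> funext i <;> simp [Dat.rot]

theorem Dat.Ok.rot1 {V : Dat} {A B : ℝ} (h : V.Ok A B) : (V.rot 1).Ok A B where
  l_nonneg i := h.l_nonneg (i + 1)
  step i := h.step (i + 1)
  prim_u i := h.prim_u (i + 1)
  prim_e i := h.prim_e (i + 1)
  d_pos i := h.d_pos (i + 1)
  diff i := h.diff (i + 1)
  det_e i := h.det_e (i + 1)
  zero i := h.zero (i + 1)
  parity i := h.parity (i + 1)
  markov := by
    have := h.markov
    change V.m 1 * V.d 3 * V.d 0 + V.m 2 * V.d 0 * V.d 1 + V.m 3 * V.d 1 * V.d 2 +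
      V.m 0 * V.d 2 * V.d 3 = 8 * V.d 1 * V.d 2 * V.d 3 * V.d 0
    linear_combination this
  area := by
    have hc := h.closing
    have ha := h.area
    change V.l 1 * V.l 2 * (V.d 2 : ℝ) ^ 2 + V.l 3 * V.l 0 * (V.d 0 : ℝ) ^ 2 = A
    have d0 : det (toPt (V.u 3)) (toPt (V.u 0)) = (V.d 0 : ℝ) ^ 2 := by
      have := h.det_u 3
      rw [det_toPt]; exact_mod_cast this
    have d1 : det (toPt (V.u 0)) (toPt (V.u 1)) = (V.d 1 : ℝ) ^ 2 := by
      have := h.det_u 0
      rw [det_toPt]; exact_mod_cast this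
    have d2 : det (toPt (V.u 1)) (toPt (V.u 2)) = (V.d 2 : ℝ) ^ 2 := by
      have := h.det_u 1
      rw [det_toPt]; exact_mod_cast this
    have d3 : det (toPt (V.u 2)) (toPt (V.u 3)) = (V.d 3 : ℝ) ^ 2 := by
      have := h.det_u 2
      rw [det_toPt]; exact_mod_cast this
    rw [← ha, ← d0, ← d1, ← d2, ← d3]
    have c1 := congrArg Prod.fst hc
    have c2 := congrArg Prod.snd hc
    simp only [Prod.fst_add, Prod.snd_add, Prod.smul_fst, Prod.smul_snd, smul_eq_mul,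
      Prod.fst_zero, Prod.snd_zero] at c1 c2
    simp only [det]
    linear_combination (-(V.l 0 * (toPt (V.u 0)).1 + V.l 2 * (toPt (V.u 2)).1)) * c2 +
      (V.l 0 * (toPt (V.u 0)).2 + V.l 2 * (toPt (V.u 2)).2) * c1
  perim := by
    have := h.perim
    change V.l 1 + V.l 2 + V.l 3 + V.l 0 = B
    linarith
  A_pos := h.A_pos

theorem Dat.Ok.rot {V : Dat} {A B : ℝ} (h : V.Ok A B) (k : Fin 4) : (V.rot k).Ok A B := by
  have h1 := h.rot1
  have h2 := h1.rot1
  have h3 := h2.rot1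
  rw [Dat.rot_add] at h2
  rw [Dat.rot_add, Dat.rot_add] at h3
  fin_cases k
  · have : V.rot 0 = V := V.rot_zero
    simpa [this] using h
  · exact h1
  · exact h2
  · exact h3

/-! ### More scalar relations by rotation -/

namespace Dat.Ok

variable {V : Dat} {A B : ℝ}

theorem star1 (h : V.Ok A B) :
    V.m 1 * V.d 0 + V.m 0 * V.d 2 - V.m 1 * V.m 0 * V.d 1 +
      V.d 1 * idet (V.e 2) (V.e 0) = 0 := (h.rot 1).star0

theorem star3 (h : V.Ok A B) :
    V.m 3 * V.d 2 + V.m 2 * V.d 0 - V.m 3 * V.m 2 * V.d 3 +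
      V.d 3 * idet (V.e 0) (V.e 2) = 0 := (h.rot 3).star0

/-- The double area, rotated. -/
theorem area1 (h : V.Ok A B) :
    V.l 1 * V.l 2 * (V.d 2 : ℝ) ^ 2 + V.l 3 * V.l 0 * (V.d 0 : ℝ) ^ 2 = A := (h.rot 1).area

/-- Two adjacent edges are not both zero. -/
theorem not_adj (h : V.Ok A B) : ¬(V.l 0 = 0 ∧ V.l 1 = 0) := by
  rintro ⟨h0, h1⟩
  have := h.area1
  rw [h0, h1] at this
  have := h.A_pos
  simp at *
  linarith

theorem not_opp (h : V.Ok A B) : ¬(V.l 0 = 0 ∧ V.l 2 = 0) := by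
  rintro ⟨h0, h1⟩
  have := h.area
  rw [h0, h1] at this
  have := h.A_pos
  simp at *
  linarith

end Dat.Ok

/-! ### The signed distance to the eigenline of the corner `0` -/

/-- `s x = det(e₀, x - P₀)`. -/
noncomputable def Dat.s (V : Dat) (x : Pt) : ℝ := det (toPt (V.e 0)) (x - V.P 0)

/-- `S = s(P₂)`. -/
noncomputable def Dat.S (V : Dat) : ℝ := V.s (V.P 2)

/-- `δ⁺`. -/
def Dat.dp (V : Dat) : ℤ := idet (V.e 0) (V.u 1)

/-- `δ⁻`. -/
def Dat.dm (V : Dat) : ℤ := idet (V.e 0) (V.u 2)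

namespace Dat.Ok

variable {V : Dat} {A B : ℝ}

theorem P1_eq (h : V.Ok A B) : V.P 1 = V.P 0 + V.l 0 • toPt (V.u 0) := h.step 0
theorem P2_eq (h : V.Ok A B) : V.P 2 = V.P 1 + V.l 1 • toPt (V.u 1) := h.step 1
theorem P3_eq (h : V.Ok A B) : V.P 3 = V.P 2 + V.l 2 • toPt (V.u 2) := h.step 2
theorem P0_eq (h : V.Ok A B) : V.P 0 = V.P 3 + V.l 3 • toPt (V.u 3) := h.step 3

theorem s_P1 (h : V.Ok A B) : V.s (V.P 1) = -(V.l 0 * V.d 0) := by
  have e : V.P 1 - V.P 0 = V.l 0 • toPt (V.u 0) := by rw [h.P1_eq]; abel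
  rw [Dat.s, e, det_smul_right, det_toPt, h.e0_u0]
  push_cast; ring

theorem s_P3 (h : V.Ok A B) : V.s (V.P 3) = V.l 3 * V.d 0 := by
  have e : V.P 3 - V.P 0 = -(V.l 3 • toPt (V.u 3)) := by
    conv_lhs => rw [h.P0_eq]
    abel
  rw [Dat.s, e, det_neg_right, det_smul_right, det_toPt, h.e0_u3]
  push_cast; ring

theorem S_eq (h : V.Ok A B) : V.S = V.l 1 * V.dp - V.l 0 * V.d 0 := by
  have e : V.P 2 - V.P 0 = (V.P 1 - V.P 0) + V.l 1 • toPt (V.u 1) := by rw [h.P2_eq]; abel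
  rw [Dat.S, Dat.s, e, det_add_right, det_smul_right, det_toPt]
  have := h.s_P1
  rw [Dat.s] at this
  rw [this]
  simp only [Dat.dp]
  ring

theorem S_eq' (h : V.Ok A B) : V.S = V.l 3 * V.d 0 - V.l 2 * V.dm := by
  have e : V.P 2 - V.P 0 = (V.P 3 - V.P 0) - V.l 2 • toPt (V.u 2) := by rw [h.P3_eq]; abel
  rw [Dat.S, Dat.s, e, det_sub_right, det_smul_right, det_toPt]
  have := h.s_P3
  rw [Dat.s] at this
  rw [this]
  simp only [Dat.dm]

/-- In the left case the edge `0` is not zero. -/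
theorem l0_pos (h : V.Ok A B) (hS : 0 ≤ V.S) : 0 < V.l 0 := by
  rcases (h.l_nonneg 0).lt_or_eq with h0 | h0
  · exact h0
  exfalso
  have m0 : V.m 0 ≤ 0 := h.zero 0 h0.symm
  have hd : V.dp < 0 := by
    have h1 := h.delta_plus
    have hd1 : 0 < V.d 1 := h.d_pos 1
    have hd0 : 0 < V.d 0 := h.d_pos 0
    have : V.m 0 * V.d 1 ≤ 0 := mul_nonpos_of_nonpos_of_nonneg m0 hd1.le
    simp only [Dat.dp]
    linarith
  have hS' := h.S_eq
  rw [← h0] at hS'
  have h1 : 0 < V.l 1 := by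
    rcases (h.l_nonneg 1).lt_or_eq with h1 | h1
    · exact h1
    · exact absurd ⟨h0.symm, h1.symm⟩ h.not_adj
  have : V.l 1 * (V.dp : ℝ) < 0 := mul_neg_of_pos_of_neg h1 (by exact_mod_cast hd)
  linarith

theorem dp_pos (h : V.Ok A B) (hS : 0 ≤ V.S) : 0 < V.dp := by
  have h0 := h.l0_pos hS
  have hS' := h.S_eq
  have hd0 : (0 : ℝ) < V.d 0 := by exact_mod_cast h.d_pos 0
  have h1 : 0 < V.l 1 * (V.dp : ℝ) := by
    have := mul_pos h0 hd0
    linarith
  have h2 : (0 : ℝ) < V.dp := by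
    by_contra hcon
    push Not at hcon
    have := mul_nonpos_of_nonneg_of_nonpos (h.l_nonneg 1) hcon
    linarith
  exact_mod_cast h2

/-- In the right case the edge `3` is not zero. -/
theorem l3_pos (h : V.Ok A B) (hS : V.S ≤ 0) : 0 < V.l 3 := by
  rcases (h.l_nonneg 3).lt_or_eq with h0 | h0
  · exact h0
  exfalso
  have m3 : V.m 3 ≤ 0 := h.zero 3 h0.symm
  have hd : V.dm < 0 := by
    have h1 := h.delta_minus
    have hd1 : 0 < V.d 3 := h.d_pos 3
    have hd0 : 0 < V.d 0 := h.d_pos 0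
    have : V.m 3 * V.d 3 ≤ 0 := mul_nonpos_of_nonpos_of_nonneg m3 hd1.le
    simp only [Dat.dm]
    linarith
  have hS' := h.S_eq'
  rw [← h0] at hS'
  have h1 : 0 < V.l 2 := by
    rcases (h.l_nonneg 2).lt_or_eq with h1 | h1
    · exact h1
    · exact absurd ⟨h1.symm, h0.symm⟩ (h.rot 2).not_adj
  have : V.l 2 * (V.dm : ℝ) < 0 := mul_neg_of_pos_of_neg h1 (by exact_mod_cast hd)
  linarith

theorem dm_pos (h : V.Ok A B) (hS : V.S ≤ 0) : 0 < V.dm := by
  have h0 := h.l3_pos hS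
  have hS' := h.S_eq'
  have hd0 : (0 : ℝ) < V.d 0 := by exact_mod_cast h.d_pos 0
  have h1 : 0 < V.l 2 * (V.dm : ℝ) := by
    have := mul_pos h0 hd0
    linarith
  have h2 : (0 : ℝ) < V.dm := by
    by_contra hcon
    push Not at hcon
    have := mul_nonpos_of_nonneg_of_nonpos (h.l_nonneg 2) hcon
    linarith
  exact_mod_cast h2

end Dat.Ok

end Pool.Agent.NH80.Quad
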